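import Pool.Agent.HMP.SDefs
import Pool.Agent.HMV.Defs

/-!
PROJECT HMP (MP_d9a86d_gt, helper67): internal definitions of the proof.
-/

open scoped ContDiff ComplexOrder Matrix
open Finset

namespace Pool.Agent.HMP

open Pool.Agent.HMV

/-- `s = log (N1 N2)` -/
noncomputable def ss (z : Fin 4 → ℂ) : ℝ := Real.log (N1 z) + Real.log (N2 z)

/-- `w = z₀ z₂ - 1` -/
def ww (z : Fin 4 → ℂ) : ℂ := z 0 * z 2 - 1

/-- `c = b(s) + s` -/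
noncomputable def cp (B T : ℝ) (z : Fin 4 → ℂ) : ℝ := bb B T (ss z) + ss z

/-- `E = e^c` -/
noncomputable def Ep (B T : ℝ) (z : Fin 4 → ℂ) : ℝ := Real.exp (cp B T z)

/-- `F = |w|² + E` -/
noncomputable def Fp (B T : ℝ) (z : Fin 4 → ℂ) : ℝ := ‖ww z‖ ^ 2 + Ep B T z

/-- `a = log F - s` -/
noncomputable def ap (B T : ℝ) (z : Fin 4 → ℂ) : ℝ := Real.log (Fp B T z) - ss z

/-- `G = h(a)` -/
noncomputable def Gp (B T : ℝ) (z : Fin 4 → ℂ) : ℝ := hh (ap B T z)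

/-- `τ = E / F` -/
noncomputable def taup (B T : ℝ) (z : Fin 4 → ℂ) : ℝ := Ep B T z / Fp B T z

/-- `∂ log N1 (v)` -/
noncomputable def dL1 (z v : Fin 4 → ℂ) : ℂ :=
  ((starRingEnd ℂ) (z 0) * v 0 + (starRingEnd ℂ) (z 1) * v 1) / (N1 z : ℝ)

/-- `∂ log N2 (v)` -/
noncomputable def dL2 (z v : Fin 4 → ℂ) : ℂ :=
  ((starRingEnd ℂ) (z 2) * v 2 + (starRingEnd ℂ) (z 3) * v 3) / (N2 z : ℝ)

/-- `∂s(v)` -/
noncomputable def dsp (z v : Fin 4 → ℂ) : ℂ := dL1 z v + dL2 z v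

/-- the Levi form of `log N1` -/
noncomputable def LL1 (z v : Fin 4 → ℂ) : ℝ := ‖z 0 * v 1 - z 1 * v 0‖ ^ 2 / N1 z ^ 2

/-- the Levi form of `log N2` -/
noncomputable def LL2 (z v : Fin 4 → ℂ) : ℝ := ‖z 2 * v 3 - z 3 * v 2‖ ^ 2 / N2 z ^ 2

/-- `∂w(v)` -/
def dw (z v : Fin 4 → ℂ) : ℂ := z 2 * v 0 + z 0 * v 2

/-- `∂c(v)` -/
noncomputable def dcp (B T : ℝ) (z v : Fin 4 → ℂ) : ℂ :=
  ((1 + bb1 B T (ss z) : ℝ) : ℂ) * dsp z v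

/-- the product metric `|dz'|²/|z'|² + |dz''|²/|z''|²` -/
noncomputable def om (z v : Fin 4 → ℂ) : ℝ :=
  (‖v 0‖ ^ 2 + ‖v 1‖ ^ 2) / N1 z + (‖v 2‖ ^ 2 + ‖v 3‖ ^ 2) / N2 z

/-- the positive part of the Levi form of `a` -/
noncomputable def Qp (B T : ℝ) (z v : Fin 4 → ℂ) : ℝ :=
  taup B T z * (1 + bb1 B T (ss z)) * (LL1 z v + LL2 z v) +
    Ep B T z / Fp B T z ^ 2 * ‖dw z v - ww z * dcp B T z v‖ ^ 2

/-- the size of the negative part -/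
noncomputable def negp (B T : ℝ) (z : Fin 4 → ℂ) : ℝ :=
  1 + B * taup B T z + B * Real.exp (-(B * (T - ss z) ^ 2))

/-- the `k`-th point -/
noncomputable def yp (q : ℂ) (k : ℤ) (z : Fin 4 → ℂ) : Fin 4 → ℂ := sc (q ^ (-k)) 1 z

/-- `Φ(z) = ∑_k G(y_k)` -/
noncomputable def Ph (q : ℂ) (B T : ℝ) (z : Fin 4 → ℂ) : ℝ :=
  ∑ᶠ k : ℤ, Gp B T (yp q k z)

end Pool.Agent.HMP
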