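import Pool.Agent.HMP.Defs

/-!
HMP-DetS. Lower bound of the determinant of a Hermitian matrix by `|det S|²`, and the determinant of the
matrix `S` of the problem.

`det_ge_sq`: if `det S = 0` the matrix `A` is positive semidefinite; otherwise `B = (S⁻¹)ᴴ A S⁻¹` has
eigenvalues `≥ 1` and `det A = det B * ‖det S‖²`. `det4` is the case of an explicit `4 × 4` matrix, and
`dcp_row` gives the row of the linear form `∂c`.
-/

open scoped Matrix ComplexOrder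
open Finset

namespace Pool.Agent.HMP

open Pool.Agent.HMV

private theorem det_one_le {n : ℕ} {B : Matrix (Fin n) (Fin n) ℂ} (hB : B.IsHermitian) {c : ℝ}
    (hc : c = 0 ∨ c = 1)
    (h : ∀ v : Fin n → ℂ, c * ∑ i, ‖v i‖ ^ 2 ≤ (star v ⬝ᵥ (B *ᵥ v)).re) :
    ∃ r : ℝ, (0 ≤ r ∧ (c = 1 → 1 ≤ r)) ∧ B.det = (r : ℂ) := by
  have h1 : ∀ i, c ≤ hB.eigenvalues i := by
    intro i
    have h2 := h (hB.eigenvectorBasis i).ofLp
    have h3 : ∑ l, ‖(hB.eigenvectorBasis i).ofLp l‖ ^ 2 = 1 := by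
      have h4 := hB.eigenvectorBasis.norm_eq_one i
      rw [EuclideanSpace.norm_eq, Real.sqrt_eq_one] at h4
      exact h4
    have h5 : (star (hB.eigenvectorBasis i).ofLp ⬝ᵥ (hB.eigenvectorBasis i).ofLp) = (1 : ℂ) := by
      rw [dotProduct]
      have h6 : ∀ l, star ((hB.eigenvectorBasis i).ofLp) l * (hB.eigenvectorBasis i).ofLp l =
          ((‖(hB.eigenvectorBasis i).ofLp l‖ ^ 2 : ℝ) : ℂ) := by
        intro l
        rw [Pi.star_apply, Complex.star_def, ← Complex.normSq_eq_conj_mul_self, Complex.normSq_eq_norm_sq]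
      rw [Finset.sum_congr rfl fun l _ => h6 l, ← Complex.ofReal_sum, h3, Complex.ofReal_one]
    rw [h3, hB.mulVec_eigenvectorBasis, dotProduct_smul, h5] at h2
    simpa using h2
  refine ⟨∏ i, hB.eigenvalues i, ⟨?_, ?_⟩, ?_⟩
  · refine Finset.prod_nonneg fun i _ => ?_
    refine le_trans ?_ (h1 i)
    rcases hc with hc | hc <;> rw [hc]
    exact zero_le_one
  · intro hc1
    calc (1 : ℝ) = ∏ _i : Fin n, (1 : ℝ) := by simp
      _ ≤ ∏ i, hB.eigenvalues i :=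
        Finset.prod_le_prod (fun _ _ => zero_le_one) fun i _ => hc1 ▸ h1 i
  · rw [hB.det_eq_prod_eigenvalues]
    push_cast
    rfl

theorem det_ge_sq {n : ℕ} {A : Matrix (Fin n) (Fin n) ℂ} (hA : A.IsHermitian)
    (S : Matrix (Fin n) (Fin n) ℂ)
    (h : ∀ v : Fin n → ℂ, ∑ i, ‖(S *ᵥ v) i‖ ^ 2 ≤ (star v ⬝ᵥ (A *ᵥ v)).re) :
    ‖S.det‖ ^ 2 ≤ A.det.re := by
  by_cases hdet : S.det = 0
  · rw [hdet, norm_zero, zero_pow two_ne_zero]
    obtain ⟨r, ⟨hr, -⟩, hB⟩ := det_one_le hA (Or.inl rfl) (fun v => by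
      rw [zero_mul]
      exact (Finset.sum_nonneg fun i _ => sq_nonneg _).trans (h v))
    rw [hB, Complex.ofReal_re]
    exact hr
  · have hu : IsUnit S.det := isUnit_iff_ne_zero.2 hdet
    obtain ⟨r, ⟨-, hr⟩, hB⟩ := det_one_le (B := (S⁻¹)ᴴ * A * S⁻¹) (c := 1)
      (Matrix.isHermitian_conjTranspose_mul_mul _ hA) (Or.inr rfl) (fun v => by
        have h1 := h (S⁻¹ *ᵥ v)
        rw [Matrix.mulVec_mulVec, Matrix.mul_nonsing_inv _ hu, Matrix.one_mulVec] at h1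
        rw [one_mul]
        refine h1.trans (le_of_eq ?_)
        congr 1
        rw [Matrix.star_mulVec, Matrix.mulVec_mulVec, ← Matrix.dotProduct_mulVec, Matrix.mulVec_mulVec,
          Matrix.mul_assoc])
    have h2 : A = Sᴴ * ((S⁻¹)ᴴ * A * S⁻¹) * S := by
      rw [Matrix.mul_assoc, Matrix.mul_assoc, Matrix.nonsing_inv_mul _ hu, Matrix.mul_one, ← Matrix.mul_assoc,
        ← Matrix.conjTranspose_mul, Matrix.nonsing_inv_mul _ hu, Matrix.conjTranspose_one, Matrix.one_mul]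
    have h3 : A.det = ((‖S.det‖ ^ 2 * r : ℝ) : ℂ) := by
      rw [h2, Matrix.det_mul, Matrix.det_mul, hB, Matrix.det_conjTranspose]
      rw [mul_right_comm, Complex.star_def, ← Complex.normSq_eq_conj_mul_self, Complex.normSq_eq_norm_sq,
        ← Complex.ofReal_mul]
    rw [h3, Complex.ofReal_re]
    have h4 : 0 ≤ ‖S.det‖ ^ 2 := sq_nonneg _
    have h5 := hr rfl
    nlinarith

theorem det4 {A : Matrix (Fin 4) (Fin 4) ℂ} (hA : A.IsHermitian) (z : Fin 4 → ℂ) (w : ℂ)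
    (c : Fin 4 → ℂ) {p lam mu kap : ℝ} (hp : 0 ≤ p) (hl : 0 ≤ lam) (hm : 0 ≤ mu) (hk : 0 ≤ kap)
    (h : ∀ v : Fin 4 → ℂ,
      p * ‖v 0‖ ^ 2 + lam * ‖z 0 * v 1 - z 1 * v 0‖ ^ 2 +
        mu * ‖dw z v - w * ∑ j, c j * v j‖ ^ 2 + kap * ‖z 2 * v 3 - z 3 * v 2‖ ^ 2 ≤
        (star v ⬝ᵥ (A *ᵥ v)).re) :
    p * lam * mu * kap * ‖z 0‖ ^ 2 * ‖z 0 * z 2 - w * (c 2 * z 2 + c 3 * z 3)‖ ^ 2 ≤
      A.det.re := by
  have key := det_ge_sq hA
    !![((√p : ℝ) : ℂ), 0, 0, 0;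
      -((√lam : ℝ) : ℂ) * z 1, ((√lam : ℝ) : ℂ) * z 0, 0, 0;
      ((√mu : ℝ) : ℂ) * (z 2 - w * c 0), -((√mu : ℝ) : ℂ) * (w * c 1), ((√mu : ℝ) : ℂ) * (z 0 - w * c 2),
        -((√mu : ℝ) : ℂ) * (w * c 3);
      0, 0, -((√kap : ℝ) : ℂ) * z 3, ((√kap : ℝ) : ℂ) * z 2] (fun v => by
    refine le_trans (le_of_eq ?_) (h v)
    rw [Fin.sum_univ_four]
    have e0 : ‖((√p : ℝ) : ℂ) * v 0‖ ^ 2 = p * ‖v 0‖ ^ 2 := by
      rw [norm_mul, mul_pow, Complex.norm_real, Real.norm_of_nonneg (Real.sqrt_nonneg _), Real.sq_sqrt hp]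
    have e1 : ‖((√lam : ℝ) : ℂ) * (z 0 * v 1 - z 1 * v 0)‖ ^ 2 = lam * ‖z 0 * v 1 - z 1 * v 0‖ ^ 2 := by
      rw [norm_mul, mul_pow, Complex.norm_real, Real.norm_of_nonneg (Real.sqrt_nonneg _), Real.sq_sqrt hl]
    have e2 : ‖((√mu : ℝ) : ℂ) * (dw z v - w * ∑ j, c j * v j)‖ ^ 2 =
        mu * ‖dw z v - w * ∑ j, c j * v j‖ ^ 2 := by
      rw [norm_mul, mul_pow, Complex.norm_real, Real.norm_of_nonneg (Real.sqrt_nonneg _), Real.sq_sqrt hm]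
    have e3 : ‖((√kap : ℝ) : ℂ) * (z 2 * v 3 - z 3 * v 2)‖ ^ 2 = kap * ‖z 2 * v 3 - z 3 * v 2‖ ^ 2 := by
      rw [norm_mul, mul_pow, Complex.norm_real, Real.norm_of_nonneg (Real.sqrt_nonneg _), Real.sq_sqrt hk]
    rw [← e0, ← e1, ← e2, ← e3]
    congr 1
    · congr 1
      · congr 1
        · congr 2
          simp [Matrix.mulVec, dotProduct, Fin.sum_univ_four]
        · congr 2
          simp [Matrix.mulVec, dotProduct, Fin.sum_univ_four]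
          ring
      · congr 2
        simp [Matrix.mulVec, dotProduct, Fin.sum_univ_four, dw]
        ring
    · congr 2
      simp [Matrix.mulVec, dotProduct, Fin.sum_univ_four]
      ring)
  refine le_trans (le_of_eq ?_) key
  have hd : (!![((√p : ℝ) : ℂ), 0, 0, 0;
      -((√lam : ℝ) : ℂ) * z 1, ((√lam : ℝ) : ℂ) * z 0, 0, 0;
      ((√mu : ℝ) : ℂ) * (z 2 - w * c 0), -((√mu : ℝ) : ℂ) * (w * c 1), ((√mu : ℝ) : ℂ) * (z 0 - w * c 2),
        -((√mu : ℝ) : ℂ) * (w * c 3);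
      0, 0, -((√kap : ℝ) : ℂ) * z 3, ((√kap : ℝ) : ℂ) * z 2]).det =
      ((√p : ℝ) : ℂ) * ((√lam : ℝ) : ℂ) * ((√mu : ℝ) : ℂ) * ((√kap : ℝ) : ℂ) * z 0 *
        (z 0 * z 2 - w * (c 2 * z 2 + c 3 * z 3)) := by
    rw [Matrix.det_succ_row_zero, Fin.sum_univ_four]
    simp [Matrix.det_fin_three, Matrix.submatrix, Fin.succAbove]
    ring
  rw [hd]
  simp only [norm_mul, mul_pow, Complex.norm_real, Real.norm_of_nonneg (Real.sqrt_nonneg _), Real.sq_sqrt hp,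
    Real.sq_sqrt hl, Real.sq_sqrt hm, Real.sq_sqrt hk]

theorem dcp_row (B T : ℝ) {z : Fin 4 → ℂ} (hz : N2 z ≠ 0) : ∃ c : Fin 4 → ℂ,
    (∀ v, dcp B T z v = ∑ j, c j * v j) ∧
      c 2 * z 2 + c 3 * z 3 = ((1 + bb1 B T (ss z) : ℝ) : ℂ) := by
  have h2 : ((N2 z : ℝ) : ℂ) ≠ 0 := by exact_mod_cast hz
  refine ⟨![((1 + bb1 B T (ss z) : ℝ) : ℂ) * ((starRingEnd ℂ) (z 0) / (N1 z : ℝ)),
    ((1 + bb1 B T (ss z) : ℝ) : ℂ) * ((starRingEnd ℂ) (z 1) / (N1 z : ℝ)),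
    ((1 + bb1 B T (ss z) : ℝ) : ℂ) * ((starRingEnd ℂ) (z 2) / (N2 z : ℝ)),
    ((1 + bb1 B T (ss z) : ℝ) : ℂ) * ((starRingEnd ℂ) (z 3) / (N2 z : ℝ))], ?_, ?_⟩
  · intro v
    rw [Fin.sum_univ_four]
    simp only [dcp, dsp, dL1, dL2, Matrix.cons_val_zero, Matrix.cons_val_one, Matrix.cons_val]
    ring
  · simp only [Matrix.cons_val]
    have h3 : (starRingEnd ℂ) (z 2) * z 2 + (starRingEnd ℂ) (z 3) * z 3 = ((N2 z : ℝ) : ℂ) := by
      rw [← Complex.normSq_eq_conj_mul_self, ← Complex.normSq_eq_conj_mul_self, Complex.normSq_eq_norm_sq,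
        Complex.normSq_eq_norm_sq, N2]
      push_cast
      ring
    calc _ = ((1 + bb1 B T (ss z) : ℝ) : ℂ) *
        (((starRingEnd ℂ) (z 2) * z 2 + (starRingEnd ℂ) (z 3) * z 3) / (N2 z : ℝ)) := by ring
      _ = _ := by rw [h3, div_self h2, mul_one]

end Pool.Agent.HMP
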