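import Pool.Agent.HMP.Vol

/-!
HMP-Fin. Assembly, second part: the volume, and the theorem (helper67).
-/

open scoped Matrix ComplexOrder Topology ContDiff
open Finset MeasureTheory Filter

namespace Pool.Agent.HMP

open Pool.Agent.HMV

private theorem smallP {η : ℝ} (hη : 0 < η) :
    ∃ T1 : ℝ, 10 ≤ T1 ∧ ∀ T, T1 ≤ T → Real.exp (1 - 2 * T * (T - 1) ^ 2) ≤ η := by
  have h1 : Tendsto (fun T : ℝ => Real.exp (-T)) atTop (𝓝 0) :=
    Real.tendsto_exp_neg_atTop_nhds_zero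
  obtain ⟨T1, hT1⟩ := eventually_atTop.1 (h1.eventually_lt_const hη)
  refine ⟨max T1 10, le_max_right _ _, fun T hT => ?_⟩
  have h2 := hT1 T (le_trans (le_max_left _ _) hT)
  have h3 : 10 ≤ T := le_trans (le_max_right _ _) hT
  refine le_trans (Real.exp_le_exp.2 ?_) h2.le
  have h4 : 1 ≤ (T - 1) ^ 2 := by nlinarith
  nlinarith

/-- lower bound of the determinant in the tube -/
theorem det_tubeP {q : ℂ} (hq : 1 < ‖q‖) {A : (Fin 4 → ℂ) → Matrix (Fin 4) (Fin 4) ℂ}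
    (hM : IsMetric q A) {ε θ : ℝ} (hε : 0 < ε) (hθ0 : 0 < θ)
    (hA : ∀ z ∈ UU, ∀ v : Fin 4 → ℂ, ε * om z v ≤ (star v ⬝ᵥ (A z *ᵥ v)).re)
    (hθ : ∀ T : ℝ, 1 ≤ T → ∀ z : Fin 4 → ℂ, z ∈ UU → ∀ v : Fin 4 → ℂ,
      -(1 / 2) * om z v ≤ θ / (2 * T) * lev (Ph q (2 * T) T) z v ∧
      (ap (2 * T) T z < -4 →
        -(1 / 2) * om z v + θ / (2 * T) * Qp (2 * T) T z v ≤
          θ / (2 * T) * lev (Ph q (2 * T) T) z v))
    {a T : ℝ} (ha : 0 < a) (ha1 : a ≤ 1 / 8) (ha2 : 8 * a ≤ ‖q‖ ^ 2 - 1) (hT : 10 ≤ T)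
    (hT2 : Real.exp (1 - 2 * T * (T - 1) ^ 2) ≤ (a / 32) ^ 2)
    {z : Fin 4 → ℂ} (hz : z ∈ tubeP a T) :
    z ∈ fundP q ∧
    ε / 4 * (ε * θ * T / 8) * (ε * θ / (8 * Real.exp 2 * T)) * (ε * θ * T / 8) / 16 *
      (1 / eP T (fun i => z (Fin.succ i))) ≤
      (A z + leviMat (potP q ε θ T) z).det.re := by
  obtain ⟨hD, hz0⟩ := hz
  set y : Fin 3 → ℂ := fun i => z (Fin.succ i) with hy
  have hT0 : 0 < T := by linarith
  have hy1 : y 1 ≠ 0 := dom_ne (by linarith) hD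
  have hy1n : 0 < ‖y 1‖ := norm_pos_iff.2 hy1
  have heP : eP T y = E0 T y / ‖y 1‖ ^ 2 := by
    unfold eP
    rw [if_neg hy1]
  have hE0 : 0 < E0 T y := Real.exp_pos _
  have hh : ‖z 0 - 1 / y 1‖ ^ 2 ≤ E0 T y / ‖y 1‖ ^ 2 := by
    rw [← heP]; exact hz0
  obtain ⟨hU, hap, hwb, hw, hQ⟩ := tube_main ha ha1 hT hy hD hh
  have hw2 : ‖ww z‖ ≤ a / 32 := by
    have h1 : ‖ww z‖ ^ 2 ≤ (a / 32) ^ 2 := le_trans hw hT2
    exact le_of_sq_le_sq h1 (by positivity)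
  obtain ⟨hF, hN1, hN2, hz02⟩ := tube_fund hq ha ha1 ha2 hy hD hw2
  refine ⟨hF, ?_⟩
  have hN1p := N1_pos hU
  have hN2p := N2_pos hU
  have hH := hermP hq hM ε θ hT0.le hU
  obtain ⟨c, hc, hc2⟩ := dcp_row (2 * T) T hN2p.ne'
  have key := det4 hH z (ww z) c (p := ε / 4) (lam := ε * θ * T / 8)
    (mu := ε * θ / (8 * Real.exp 2 * T * E0 T y)) (kap := ε * θ * T / 8)
    (by positivity) (by positivity) (by positivity) (by positivity) ?_
  · refine le_trans ?_ key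
    have h1 : z 0 * z 2 - ww z * (c 2 * z 2 + c 3 * z 3) =
        1 - ww z * ((bb1 (2 * T) T (ss z) : ℝ) : ℂ) := by
      rw [hc2]
      unfold ww
      push_cast
      ring
    have h2 : 1 / 2 ≤ ‖z 0 * z 2 - ww z * (c 2 * z 2 + c 3 * z 3)‖ := by
      rw [h1]
      have h3 : ‖ww z * ((bb1 (2 * T) T (ss z) : ℝ) : ℂ)‖ ≤ 1 / 2 := by
        rw [norm_mul, Complex.norm_real, Real.norm_eq_abs,
          abs_of_pos (bb1_pos (by linarith : (0 : ℝ) < 2 * T) T (ss z))]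
        exact hwb
      have h4 := norm_sub_norm_le (1 : ℂ) (ww z * ((bb1 (2 * T) T (ss z) : ℝ) : ℂ))
      rw [norm_one] at h4
      linarith
    have h5 : 1 / 4 ≤ ‖z 0 * z 2 - ww z * (c 2 * z 2 + c 3 * z 3)‖ ^ 2 := by nlinarith
    have h6 : 1 / 8 ≤ ‖z 0‖ ^ 2 * ‖z 0 * z 2 - ww z * (c 2 * z 2 + c 3 * z 3)‖ ^ 2 := by
      nlinarith
    have hy12 : ‖y 1‖ ^ 2 ≤ 2 := by
      have := hD.2.1.2
      linarith
    have h7 : 1 / eP T y ≤ 2 / E0 T y := by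
      rw [heP, one_div_div]
      exact div_le_div_of_nonneg_right hy12 hE0.le
    have hK : 0 ≤ ε / 4 * (ε * θ * T / 8) * (ε * θ / (8 * Real.exp 2 * T)) * (ε * θ * T / 8) := by
      positivity
    calc ε / 4 * (ε * θ * T / 8) * (ε * θ / (8 * Real.exp 2 * T)) * (ε * θ * T / 8) / 16 *
          (1 / eP T y)
        ≤ ε / 4 * (ε * θ * T / 8) * (ε * θ / (8 * Real.exp 2 * T)) * (ε * θ * T / 8) / 16 *
          (2 / E0 T y) := mul_le_mul_of_nonneg_left h7 (by positivity)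
      _ = (ε / 4 * (ε * θ * T / 8) * (ε * θ / (8 * Real.exp 2 * T * E0 T y)) *
          (ε * θ * T / 8)) * (1 / 8) := by field_simp; ring
      _ ≤ (ε / 4 * (ε * θ * T / 8) * (ε * θ / (8 * Real.exp 2 * T * E0 T y)) *
          (ε * θ * T / 8)) *
          (‖z 0‖ ^ 2 * ‖z 0 * z 2 - ww z * (c 2 * z 2 + c 3 * z 3)‖ ^ 2) :=
          mul_le_mul_of_nonneg_left h6 (by positivity)
      _ = _ := by ring
  · intro v
    have h6 := (formP_lower hq hε hA hθ (by linarith : (1 : ℝ) ≤ T) hU v).2 hap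
    have h7 := hQ v
    rw [← hc v]
    have h8 : ‖v 0‖ ^ 2 / 2 ≤ om z v := by
      unfold om
      have e1 : ‖v 0‖ ^ 2 / 2 ≤ (‖v 0‖ ^ 2 + ‖v 1‖ ^ 2) / N1 z := by
        rw [div_le_div_iff₀ (by norm_num) hN1p]
        nlinarith [sq_nonneg ‖v 0‖, sq_nonneg ‖v 1‖]
      have e2 : 0 ≤ (‖v 2‖ ^ 2 + ‖v 3‖ ^ 2) / N2 z := by positivity
      linarith
    have h9 : ‖z 0 * v 1 - z 1 * v 0‖ ^ 2 / 4 ≤ LL1 z v := by
      unfold LL1
      have e1 : N1 z ^ 2 ≤ 4 := by nlinarith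
      exact div_le_div_of_nonneg_left (by positivity) (by positivity) e1
    have h10 : ‖z 2 * v 3 - z 3 * v 2‖ ^ 2 / 4 ≤ LL2 z v := by
      unfold LL2
      have e1 : N2 z ^ 2 ≤ 4 := by nlinarith
      exact div_le_div_of_nonneg_left (by positivity) (by positivity) e1
    have h11 : T ^ 2 * (‖z 0 * v 1 - z 1 * v 0‖ ^ 2 / 4 + ‖z 2 * v 3 - z 3 * v 2‖ ^ 2 / 4) +
        1 / (4 * Real.exp 2 * E0 T y) * ‖dw z v - ww z * dcp (2 * T) T z v‖ ^ 2 ≤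
        Qp (2 * T) T z v := by
      have : T ^ 2 * (‖z 0 * v 1 - z 1 * v 0‖ ^ 2 / 4 + ‖z 2 * v 3 - z 3 * v 2‖ ^ 2 / 4) ≤
          T ^ 2 * (LL1 z v + LL2 z v) :=
        mul_le_mul_of_nonneg_left (by linarith) (by positivity)
      linarith
    have h12 := mul_le_mul_of_nonneg_left h11 (by positivity : 0 ≤ ε * (θ / (2 * T)))
    have h13 : ε / 4 * ‖v 0‖ ^ 2 ≤ ε / 2 * om z v := by nlinarith
    have h14 : ε * θ * T / 8 * ‖z 0 * v 1 - z 1 * v 0‖ ^ 2 +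
        ε * θ / (8 * Real.exp 2 * T * E0 T y) * ‖dw z v - ww z * dcp (2 * T) T z v‖ ^ 2 +
        ε * θ * T / 8 * ‖z 2 * v 3 - z 3 * v 2‖ ^ 2 =
        ε * (θ / (2 * T)) *
        (T ^ 2 * (‖z 0 * v 1 - z 1 * v 0‖ ^ 2 / 4 + ‖z 2 * v 3 - z 3 * v 2‖ ^ 2 / 4) +
        1 / (4 * Real.exp 2 * E0 T y) * ‖dw z v - ww z * dcp (2 * T) T z v‖ ^ 2) := by
      field_simp
      ring
    linarith

theorem pvol_lower {q : ℂ} (hq : 1 < ‖q‖) {A : (Fin 4 → ℂ) → Matrix (Fin 4) (Fin 4) ℂ}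
    (hM : IsMetric q A) {ε θ : ℝ} (hε : 0 < ε) (hθ0 : 0 < θ)
    (hA : ∀ z ∈ UU, ∀ v : Fin 4 → ℂ, ε * om z v ≤ (star v ⬝ᵥ (A z *ᵥ v)).re)
    (hθ : ∀ T : ℝ, 1 ≤ T → ∀ z : Fin 4 → ℂ, z ∈ UU → ∀ v : Fin 4 → ℂ,
      -(1 / 2) * om z v ≤ θ / (2 * T) * lev (Ph q (2 * T) T) z v ∧
      (ap (2 * T) T z < -4 →
        -(1 / 2) * om z v + θ / (2 * T) * Qp (2 * T) T z v ≤
          θ / (2 * T) * lev (Ph q (2 * T) T) z v))
    {a T : ℝ} (ha : 0 < a) (ha1 : a ≤ 1 / 8) (ha2 : 8 * a ≤ ‖q‖ ^ 2 - 1) (hT : 10 ≤ T)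
    (hT2 : Real.exp (1 - 2 * T * (T - 1) ^ 2) ≤ (a / 32) ^ 2) :
    ε / 4 * (ε * θ * T / 8) * (ε * θ / (8 * Real.exp 2 * T)) * (ε * θ * T / 8) / 16 *
      (Real.pi * (volume (dom a (a / 4))).toReal) ≤ pvol q A (potP q ε θ T) := by
  have hT0 : 0 < T := by linarith
  have hpot : IsPot q A (potP q ε θ T) := potP_isPot hq hM hε hA hθ (by linarith)
  set φ := potP q ε θ T with hφ
  set f : (Fin 4 → ℂ) → ℝ := fun z => (A z + leviMat φ z).det.re with hf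
  have hfc : ContinuousOn f UU := by
    have h1 : ContinuousOn (fun z => A z + leviMat φ z) UU :=
      hM.cont.add (leviMat_contP hpot.smooth)
    have h2 : Continuous fun M : Matrix (Fin 4) (Fin 4) ℂ => M.det.re :=
      Complex.continuous_re.comp (Continuous.matrix_det continuous_id)
    exact h2.comp_continuousOn h1
  have hint : IntegrableOn f (fundP q) := integrable_fundP q hfc
  have hdet : ∀ z ∈ tubeP a T, z ∈ fundP q ∧
      ε / 4 * (ε * θ * T / 8) * (ε * θ / (8 * Real.exp 2 * T)) * (ε * θ * T / 8) / 16 *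
      (1 / eP T (fun i => z (Fin.succ i))) ≤ f z := fun z hz =>
    det_tubeP hq hM hε hθ0 hA hθ ha ha1 ha2 hT hT2 hz
  have hsub : tubeP a T ⊆ fundP q := fun z hz => (hdet z hz).1
  have hfpos : ∀ z ∈ fundP q, 0 ≤ f z := by
    intro z hz
    have h1 := (hpot.pos z (fundP_sub q hz)).det_pos
    exact (Complex.lt_def.1 h1).1.le
  have hs := dom_vol ha (by positivity : 0 < a / 4)
  have hr : Measurable fun y : Fin 3 → ℂ => 1 / y 1 := by fun_prop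
  have hmeas : MeasurableSet (tubeP a T) :=
    tube_meas (eP T) (eP_meas T) (dom a (a / 4)) hs.2.2 (fun y => 1 / y 1) hr
  have h1 : ∫ z in tubeP a T, f z ≤ ∫ z in fundP q, f z := by
    refine setIntegral_mono_set hint ?_ (Filter.Eventually.of_forall hsub)
    exact (ae_restrict_iff' (fundP_measurable _)).2 (Filter.Eventually.of_forall hfpos)
  have hint2 : IntegrableOn f (tubeP a T) := hint.mono_set hsub
  set K : ℝ := ε / 4 * (ε * θ * T / 8) * (ε * θ / (8 * Real.exp 2 * T)) * (ε * θ * T / 8) / 16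
    with hK
  have hK0 : 0 ≤ K := by positivity
  have h2 : ENNReal.ofReal (∫ z in tubeP a T, f z) =
      ∫⁻ z in tubeP a T, ENNReal.ofReal (f z) := by
    refine ofReal_integral_eq_lintegral_ofReal hint2 ?_
    exact (ae_restrict_iff' hmeas).2 (Filter.Eventually.of_forall fun z hz => hfpos z (hsub hz))
  have h3 : ENNReal.ofReal K * (ENNReal.ofReal Real.pi * volume (dom a (a / 4))) ≤
      ∫⁻ z in tubeP a T, ENNReal.ofReal (f z) := by
    rw [← tube_lint (eP T) (eP_meas T) (eP_pos T) (dom a (a / 4)) hs.2.2 (fun y => 1 / y 1) hr]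
    rw [← lintegral_const_mul' _ _ ENNReal.ofReal_ne_top]
    refine setLIntegral_mono' hmeas ?_
    intro z hz
    rw [← ENNReal.ofReal_mul hK0]
    exact ENNReal.ofReal_le_ofReal (hdet z hz).2
  have h4 : ENNReal.ofReal (K * (Real.pi * (volume (dom a (a / 4))).toReal)) ≤
      ENNReal.ofReal (∫ z in tubeP a T, f z) := by
    rw [h2, ENNReal.ofReal_mul hK0, ENNReal.ofReal_mul Real.pi_pos.le,
      ENNReal.ofReal_toReal hs.2.1.ne]
    exact h3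
  have h5 : 0 ≤ ∫ z in tubeP a T, f z :=
    setIntegral_nonneg hmeas fun z hz => hfpos z (hsub hz)
  have h6 := (ENNReal.ofReal_le_ofReal_iff h5).1 h4
  exact le_trans h6 h1

/-- For every Hermitian metric on the product of two Hopf surfaces there are potentials with
`|φ| ≤ T²` and volume at least `c T`. -/
theorem volumesP {q : ℂ} (hq : 1 < ‖q‖)
    (A : (Fin 4 → ℂ) → Matrix (Fin 4) (Fin 4) ℂ) (hA : IsMetric q A) :
    ∃ c : ℝ, 0 < c ∧ ∀ T : ℝ, 1 ≤ T → ∃ φ : (Fin 4 → ℂ) → ℝ, IsPot q A φ ∧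
      (∀ z ∈ UU, |φ z| ≤ T ^ 2) ∧ c * T ≤ pvol q A φ := by
  obtain ⟨ε0, hε0, hAε0⟩ := metric_ge hq hA
  obtain ⟨θ, hθ0, -, hθ⟩ := Ph_lower hq
  obtain ⟨C, hC0, hC⟩ := Ph_bound hq
  have hQ : 0 < ‖q‖ ^ 2 - 1 := by nlinarith
  set a : ℝ := min (1 / 8) ((‖q‖ ^ 2 - 1) / 8) with ha
  have ha0 : 0 < a := lt_min (by norm_num) (by positivity)
  have ha1 : a ≤ 1 / 8 := min_le_left _ _
  have ha2 : 8 * a ≤ ‖q‖ ^ 2 - 1 := by
    have : a ≤ (‖q‖ ^ 2 - 1) / 8 := min_le_right _ _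
    linarith
  obtain ⟨T1, hT13, hT1⟩ := smallP (by positivity : 0 < (a / 32) ^ 2)
  have hs := dom_vol ha0 (by positivity : 0 < a / 4)
  set V : ℝ := Real.pi * (volume (dom a (a / 4))).toReal with hV
  have hV0 : 0 < V := mul_pos Real.pi_pos (ENNReal.toReal_pos hs.1.ne' hs.2.1.ne)
  have hT10 : 0 < T1 := by linarith
  set ε : ℝ := min ε0 (2 / (θ * C * T1 ^ 2)) with hε
  have hεpos : 0 < ε := lt_min hε0 (by positivity)
  have hε1 : ε ≤ ε0 := min_le_left _ _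
  have hε2 : ε * (θ * C * T1 ^ 2) ≤ 2 := by
    have h1 : ε ≤ 2 / (θ * C * T1 ^ 2) := min_le_right _ _
    rwa [le_div_iff₀ (by positivity)] at h1
  have hAε : ∀ z ∈ UU, ∀ v : Fin 4 → ℂ, ε * om z v ≤ (star v ⬝ᵥ (A z *ᵥ v)).re :=
    fun z hz v => le_trans (mul_le_mul_of_nonneg_right hε1 (om_nonneg hz v)) (hAε0 z hz v)
  refine ⟨ε / 4 * (ε * θ * T1 / 8) * (ε * θ / (8 * Real.exp 2 * T1)) * (ε * θ * T1 / 8) / 16 * V,
    by positivity, ?_⟩
  intro T hT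
  have hT0 : 0 < T := by linarith
  have hTT : T1 ≤ T1 * T := by nlinarith
  have hTT3 : 10 ≤ T1 * T := le_trans hT13 hTT
  refine ⟨potP q ε θ (T1 * T), potP_isPot hq hA hεpos hAε hθ (by linarith), ?_, ?_⟩
  · intro z hz
    have h1 := hC (T1 * T) (by linarith) z hz
    have h2 : |potP q ε θ (T1 * T) z| = ε * (θ / (2 * (T1 * T))) *
        |Ph q (2 * (T1 * T)) (T1 * T) z| := by
      unfold potP
      rw [abs_mul, abs_of_pos (by positivity : 0 < ε * (θ / (2 * (T1 * T))))]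
    rw [h2]
    have h3 : 0 ≤ ε * (θ / (2 * (T1 * T))) := by positivity
    calc ε * (θ / (2 * (T1 * T))) * |Ph q (2 * (T1 * T)) (T1 * T) z|
        ≤ ε * (θ / (2 * (T1 * T))) * (C * (T1 * T) ^ 3) := mul_le_mul_of_nonneg_left h1 h3
      _ = ε * (θ * C * T1 ^ 2) / 2 * T ^ 2 := by field_simp
      _ ≤ 1 * T ^ 2 := mul_le_mul_of_nonneg_right (by linarith) (by positivity)
      _ = T ^ 2 := one_mul _
  · have h1 := pvol_lower hq hA hεpos hθ0 hAε hθ ha0 ha1 ha2 hTT3 (hT1 _ hTT)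
    refine le_trans (le_of_eq ?_) h1
    rw [← hV]
    field_simp

end Pool.Agent.HMP
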