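import Pool.Agent.HMP.SDefs

/-!
HMP-Fub. The integral of `1/e` over a tube with moving center (measure theory only).

`dom a d` is the set of the `y ∈ ℂ³` (the coordinates `z₁, z₂, z₃`) with
`a ≤ |y₀|² ≤ 2a`, `1 - d ≤ |y₁|² ≤ 1 + d`, `a ≤ |y₂|² ≤ 2a`.
-/

open MeasureTheory

namespace Pool.Agent.HMP

private theorem disc_vol {ε : ℝ} (hε : 0 < ε) (r : ℂ) :
    ENNReal.ofReal (1 / ε) * volume {x : ℂ | ‖x - r‖ ^ 2 ≤ ε} = ENNReal.ofReal Real.pi := by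
  have h1 : {x : ℂ | ‖x - r‖ ^ 2 ≤ ε} = Metric.closedBall r (√ε) := by
    ext x
    rw [Set.mem_ofPred_eq, Metric.mem_closedBall, dist_eq_norm, Real.le_sqrt (norm_nonneg _) hε.le]
  rw [h1, Complex.volume_closedBall, ← ENNReal.ofReal_pow (Real.sqrt_nonneg _), Real.sq_sqrt hε.le, ← mul_assoc,
    ← ENNReal.ofReal_mul (by positivity), one_div, inv_mul_cancel₀ hε.ne', ENNReal.ofReal_one, one_mul]
  rw [← NNReal.coe_real_pi, ENNReal.ofReal_coe_nnreal]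

theorem tube_meas {m : ℕ} (e : (Fin m → ℂ) → ℝ) (he : Measurable e)
    (D : Set (Fin m → ℂ)) (hD : MeasurableSet D) (r : (Fin m → ℂ) → ℂ) (hr : Measurable r) :
    MeasurableSet {z : Fin (m + 1) → ℂ | (fun i => z (Fin.succ i)) ∈ D ∧
        ‖z 0 - r (fun i => z (Fin.succ i))‖ ^ 2 ≤ e (fun i => z (Fin.succ i))} := by
  have h1 : Measurable (fun z : Fin (m + 1) → ℂ => fun i : Fin m => z (Fin.succ i)) := by fun_prop
  have h0 : Measurable (fun z : Fin (m + 1) → ℂ => r (fun i => z (Fin.succ i))) := hr.comp h1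
  have h2 : Measurable (fun z : Fin (m + 1) → ℂ => ‖z 0 - r (fun i => z (Fin.succ i))‖ ^ 2) :=
    (((measurable_pi_apply 0).sub h0).norm).pow_const 2
  exact (h1 hD).inter (measurableSet_le h2 (he.comp h1))

theorem tube_lint {m : ℕ} (e : (Fin m → ℂ) → ℝ) (he : Measurable e)
    (hpos : ∀ y, 0 < e y) (D : Set (Fin m → ℂ)) (hD : MeasurableSet D)
    (r : (Fin m → ℂ) → ℂ) (hr : Measurable r) :
    ∫⁻ z in {z : Fin (m + 1) → ℂ | (fun i => z (Fin.succ i)) ∈ D ∧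
        ‖z 0 - r (fun i => z (Fin.succ i))‖ ^ 2 ≤ e (fun i => z (Fin.succ i))},
      ENNReal.ofReal (1 / e (fun i => z (Fin.succ i))) =
    ENNReal.ofReal Real.pi * volume D := by
  set T : Set (ℂ × (Fin m → ℂ)) := {p | p.2 ∈ D ∧ ‖p.1 - r p.2‖ ^ 2 ≤ e p.2} with hT
  have hTm : MeasurableSet T := by
    have h2 : Measurable (fun p : ℂ × (Fin m → ℂ) => ‖p.1 - r p.2‖ ^ 2) :=
      ((measurable_fst.sub (hr.comp measurable_snd)).norm).pow_const 2
    exact (measurable_snd hD).inter (measurableSet_le h2 (he.comp measurable_snd))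
  set G : ℂ × (Fin m → ℂ) → ENNReal := T.indicator fun p => ENNReal.ofReal (1 / e p.2) with hG
  have hGm : Measurable G := by
    refine Measurable.indicator ?_ hTm
    exact ((measurable_const.div (he.comp measurable_snd))).ennreal_ofReal
  have hp := volume_preserving_piFinSuccAbove (fun _ : Fin (m + 1) => ℂ) 0
  have h1 : ∫⁻ z in {z : Fin (m + 1) → ℂ | (fun i => z (Fin.succ i)) ∈ D ∧
        ‖z 0 - r (fun i => z (Fin.succ i))‖ ^ 2 ≤ e (fun i => z (Fin.succ i))},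
      ENNReal.ofReal (1 / e (fun i => z (Fin.succ i))) =
      ∫⁻ z, G (MeasurableEquiv.piFinSuccAbove (fun _ : Fin (m + 1) => ℂ) 0 z) := by
    rw [← lintegral_indicator (tube_meas e he D hD r hr)]
    refine lintegral_congr fun z => ?_
    rfl
  rw [h1, hp.lintegral_comp hGm, Measure.volume_eq_prod, lintegral_prod_symm _ hGm.aemeasurable]
  have h2 : ∀ y : Fin m → ℂ, ∫⁻ x : ℂ, G (x, y) = D.indicator (fun _ => ENNReal.ofReal Real.pi) y := by
    intro y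
    by_cases hy : y ∈ D
    · rw [Set.indicator_of_mem hy, ← disc_vol (hpos y) (r y)]
      have hm : MeasurableSet {x : ℂ | ‖x - r y‖ ^ 2 ≤ e y} := by
        have h2 : Measurable (fun x : ℂ => ‖x - r y‖ ^ 2) := by fun_prop
        exact measurableSet_le h2 measurable_const
      rw [← lintegral_indicator_const hm]
      refine lintegral_congr fun x => ?_
      rw [hG]
      by_cases hx : ‖x - r y‖ ^ 2 ≤ e y
      · rw [Set.indicator_of_mem (show (x, y) ∈ T from ⟨hy, hx⟩), Set.indicator_of_mem (show x ∈ _ from hx)]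
      · rw [Set.indicator_of_notMem (show (x, y) ∉ T from fun h => hx h.2),
          Set.indicator_of_notMem (show x ∉ _ from hx)]
    · rw [Set.indicator_of_notMem hy]
      have h3 : ∀ x : ℂ, G (x, y) = 0 := fun x => by
        rw [hG, Set.indicator_of_notMem (show (x, y) ∉ T from fun h => hy h.1)]
      simp only [h3, lintegral_zero]
  simp only [h2]
  rw [lintegral_indicator_const hD]

/-- the domain of the other coordinates -/
def dom (a d : ℝ) : Set (Fin 3 → ℂ) :=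
  {y | (a ≤ ‖y 0‖ ^ 2 ∧ ‖y 0‖ ^ 2 ≤ 2 * a) ∧ (1 - d ≤ ‖y 1‖ ^ 2 ∧ ‖y 1‖ ^ 2 ≤ 1 + d) ∧
    (a ≤ ‖y 2‖ ^ 2 ∧ ‖y 2‖ ^ 2 ≤ 2 * a)}

theorem dom_vol {a d : ℝ} (ha : 0 < a) (hd : 0 < d) :
    0 < volume (dom a d) ∧ volume (dom a d) < ⊤ ∧ MeasurableSet (dom a d) := by
  have hc : ∀ i : Fin 3, Continuous (fun y : Fin 3 → ℂ => ‖y i‖ ^ 2) := fun i => by fun_prop
  have hcl : ∀ (i : Fin 3) (b c : ℝ), IsClosed {y : Fin 3 → ℂ | b ≤ ‖y i‖ ^ 2 ∧ ‖y i‖ ^ 2 ≤ c} :=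
    fun i b c => (isClosed_le continuous_const (hc i)).inter (isClosed_le (hc i) continuous_const)
  have hop : ∀ (i : Fin 3) (b c : ℝ), IsOpen {y : Fin 3 → ℂ | b < ‖y i‖ ^ 2 ∧ ‖y i‖ ^ 2 < c} :=
    fun i b c => (isOpen_lt continuous_const (hc i)).inter (isOpen_lt (hc i) continuous_const)
  refine ⟨?_, ?_, ?_⟩
  · have ho : IsOpen ({y : Fin 3 → ℂ | a < ‖y 0‖ ^ 2 ∧ ‖y 0‖ ^ 2 < 2 * a} ∩
        ({y : Fin 3 → ℂ | 1 - d < ‖y 1‖ ^ 2 ∧ ‖y 1‖ ^ 2 < 1 + d} ∩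
          {y : Fin 3 → ℂ | a < ‖y 2‖ ^ 2 ∧ ‖y 2‖ ^ 2 < 2 * a})) :=
      (hop 0 _ _).inter ((hop 1 _ _).inter (hop 2 _ _))
    have hs : ∀ x : ℝ, 0 ≤ x → ‖((√x : ℝ) : ℂ)‖ ^ 2 = x := by
      intro x hx
      rw [Complex.norm_real, Real.norm_eq_abs, sq_abs, Real.sq_sqrt hx]
    have h1 := hs (3 / 2 * a) (by positivity)
    refine (ho.measure_pos volume
      ⟨![((√(3 / 2 * a) : ℝ) : ℂ), 1, ((√(3 / 2 * a) : ℝ) : ℂ)], ?_⟩).trans_le (measure_mono ?_)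
    · refine ⟨?_, ?_, ?_⟩
      · show a < ‖((√(3 / 2 * a) : ℝ) : ℂ)‖ ^ 2 ∧ ‖((√(3 / 2 * a) : ℝ) : ℂ)‖ ^ 2 < 2 * a
        rw [h1]
        constructor <;> linarith
      · show 1 - d < ‖(1 : ℂ)‖ ^ 2 ∧ ‖(1 : ℂ)‖ ^ 2 < 1 + d
        rw [norm_one, one_pow]
        constructor <;> linarith
      · show a < ‖((√(3 / 2 * a) : ℝ) : ℂ)‖ ^ 2 ∧ ‖((√(3 / 2 * a) : ℝ) : ℂ)‖ ^ 2 < 2 * a
        rw [h1]
        constructor <;> linarith
    · rintro y ⟨h1, h2, h3⟩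
      exact ⟨⟨h1.1.le, h1.2.le⟩, ⟨h2.1.le, h2.2.le⟩, ⟨h3.1.le, h3.2.le⟩⟩
  · have hb : dom a d ⊆ Metric.closedBall 0 (√(2 * a + (1 + d))) := by
      rintro y ⟨h1, h2, h3⟩
      rw [mem_closedBall_zero_iff, pi_norm_le_iff_of_nonneg (Real.sqrt_nonneg _)]
      intro i
      refine Real.le_sqrt_of_sq_le ?_
      fin_cases i
      · exact h1.2.trans (by linarith)
      · exact h2.2.trans (by linarith)
      · exact h3.2.trans (by linarith)
    exact (measure_mono hb).trans_lt measure_closedBall_lt_top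
  · exact ((hcl 0 a (2 * a)).inter ((hcl 1 (1 - d) (1 + d)).inter (hcl 2 a (2 * a)))).measurableSet

end Pool.Agent.HMP
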