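import Pool.Agent.HMP.Phi

/-!
HMP-Glob. Global lower bound of the Levi form of `Φ`: sum of the local bounds `Gp_local` over the sheets with
`a < -3`, the negative parts are controlled by `sum_neg_le`; the positive term is kept for `k = 0` only.
-/

open scoped ContDiff Topology
open Finset

namespace Pool.Agent.HMP

open Pool.Agent.HMV

private theorem yp_zero (q : ℂ) (x : Fin 4 → ℂ) : yp q 0 x = x := by
  funext i
  unfold yp sc
  fin_cases i <;> simp

theorem Ph_lower {q : ℂ} (hq : 1 < ‖q‖) : ∃ θ : ℝ, 0 < θ ∧ θ ≤ 1 ∧ ∀ T : ℝ, 1 ≤ T →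
    ∀ z : Fin 4 → ℂ, z ∈ UU → ∀ v : Fin 4 → ℂ,
      -(1 / 2) * om z v ≤ θ / (2 * T) * lev (Ph q (2 * T) T) z v ∧
      (ap (2 * T) T z < -4 →
        -(1 / 2) * om z v + θ / (2 * T) * Qp (2 * T) T z v ≤
          θ / (2 * T) * lev (Ph q (2 * T) T) z v) := by
  classical
  obtain ⟨C, hC1, hC⟩ := Gp_local
  obtain ⟨C', hC'0, hC'⟩ := sum_neg_le hq
  have hC0 : 0 < C := by linarith
  have hCC : 0 < C * C' := mul_pos hC0 hC'0
  have hq0 : q ≠ 0 := by
    rintro rfl
    rw [norm_zero] at hq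
    linarith
  refine ⟨1 / (C * C' + 1), by positivity, ?_, ?_⟩
  · rw [div_le_one (by positivity)]
    linarith
  intro T hT z hz v
  obtain ⟨θ, hθ⟩ : ∃ θ, θ = 1 / (C * C' + 1) := ⟨_, rfl⟩
  rw [← hθ]
  have hθ0 : 0 < θ := by
    rw [hθ]
    positivity
  have hθ1 : θ * (C * C') ≤ 1 := by
    rw [hθ, one_div, inv_mul_le_iff₀ (by positivity)]
    linarith
  have hT0 : 0 < T := by linarith
  have hB0 : (0 : ℝ) ≤ 2 * T := by linarith
  have hB1 : (1 : ℝ) ≤ 2 * T := by linarith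
  have hB2 : (0 : ℝ) < 2 * T := by linarith
  obtain ⟨S, h0S, hS⟩ := lev_Ph hq hB0 T hz
  have hom : ∀ k : ℤ, om (yp q k z) (yp q k v) = om z v := fun k =>
    om_sc (zpow_ne_zero _ hq0) one_ne_zero z v
  obtain ⟨R, hR⟩ : ∃ R, R = om z v := ⟨_, rfl⟩
  have hR0 : 0 ≤ R := by
    rw [hR]
    exact om_nonneg hz v
  rw [← hR]
  have hterm : ∀ k : ℤ, ap (2 * T) T (yp q k z) < -3 →
      deriv hh (ap (2 * T) T (yp q k z)) * Qp (2 * T) T (yp q k z) (yp q k v) -
        C * negp (2 * T) T (yp q k z) * R ≤ lev (Gp (2 * T) T) (yp q k z) (yp q k v) := by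
    intro k hk
    have h1 := hC (2 * T) T hB1 (yp q k z) (yp_mem hq k hz) hk (yp q k v)
    rw [hom k, ← hR] at h1
    exact h1
  obtain ⟨S', hS'⟩ : ∃ S', S' = S.filter (fun k => ap (2 * T) T (yp q k z) < -3) := ⟨_, rfl⟩
  have hS'm : ∀ k ∈ S', ap (2 * T) T (yp q k z) < -3 := fun k hk => by
    rw [hS'] at hk
    exact (Finset.mem_filter.1 hk).2
  have hsum : lev (Ph q (2 * T) T) z v =
      ∑ k ∈ S', lev (Gp (2 * T) T) (yp q k z) (yp q k v) := by
    rw [hS v, hS']
    symm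
    refine Finset.sum_filter_of_ne fun k _ hne => ?_
    by_contra h
    exact hne (Gp_far hB0 T (yp_mem hq k hz) (not_lt.1 h) _).2
  have hneg : ∑ k ∈ S', negp (2 * T) T (yp q k z) ≤ C' * T := hC' T hT z hz S' hS'm
  have main : ∀ d : ℝ, (d = 0 ∨ ((0 : ℤ) ∈ S' ∧
      d ≤ deriv hh (ap (2 * T) T z) * Qp (2 * T) T z v)) →
      d - C * (C' * T) * R ≤ lev (Ph q (2 * T) T) z v := by
    intro d hd
    rw [hsum]
    have h1 : ∑ k ∈ S', ((if k = 0 then d else 0) - C * negp (2 * T) T (yp q k z) * R) ≤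
        ∑ k ∈ S', lev (Gp (2 * T) T) (yp q k z) (yp q k v) := by
      refine Finset.sum_le_sum fun k hk => ?_
      have hk' := hterm k (hS'm k hk)
      have hpp : 0 ≤ deriv hh (ap (2 * T) T (yp q k z)) *
          Qp (2 * T) T (yp q k z) (yp q k v) :=
        mul_nonneg (hh_d_nonneg _) (Qp_nonneg hB2 T _ _)
      by_cases hk0 : k = 0
      · rw [if_pos hk0]
        rw [hk0, yp_zero, yp_zero] at hk' hpp ⊢
        rcases hd with hd | ⟨-, hd⟩
        · rw [hd]
          linarith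
        · linarith
      · rw [if_neg hk0]
        linarith
    have h2 : ∑ k ∈ S', ((if k = 0 then d else 0) - C * negp (2 * T) T (yp q k z) * R) =
        (∑ k ∈ S', if k = 0 then d else 0) - C * (∑ k ∈ S', negp (2 * T) T (yp q k z)) * R := by
      rw [Finset.sum_sub_distrib, Finset.mul_sum, Finset.sum_mul]
    have h3 : d ≤ ∑ k ∈ S', if k = 0 then d else 0 := by
      rw [Finset.sum_ite_eq']
      rcases hd with hd | ⟨h, -⟩
      · rw [hd, ite_self]
      · rw [if_pos h]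
    have h4 : C * (∑ k ∈ S', negp (2 * T) T (yp q k z)) * R ≤ C * (C' * T) * R :=
      mul_le_mul_of_nonneg_right (mul_le_mul_of_nonneg_left hneg hC0.le) hR0
    linarith
  have fin : ∀ d X : ℝ, d - C * (C' * T) * R ≤ X →
      -(1 / 2) * R + θ / (2 * T) * d ≤ θ / (2 * T) * X := by
    intro d X h
    have h1 : 0 ≤ θ / (2 * T) := by positivity
    have h2 := mul_le_mul_of_nonneg_left h h1
    have h3 : θ / (2 * T) * (d - C * (C' * T) * R) =
        θ / (2 * T) * d - θ * (C * C') * R / 2 := by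
      field_simp
    have h4 : θ * (C * C') * R ≤ 1 * R := mul_le_mul_of_nonneg_right hθ1 hR0
    rw [h3] at h2
    linarith
  refine ⟨?_, fun ha => ?_⟩
  · have h1 := fin 0 _ (main 0 (Or.inl rfl))
    rw [mul_zero, add_zero] at h1
    exact h1
  · refine fin _ _ (main _ (Or.inr ⟨?_, ?_⟩))
    · rw [hS']
      refine Finset.mem_filter.2 ⟨h0S, ?_⟩
      rw [yp_zero]
      linarith
    · rw [(hh_near ha).1, one_mul]

end Pool.Agent.HMP
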