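import Pool.Agent.HMP.Supp
import Pool.Agent.HMV.Hfun

/-!
HMP-Loc. Local lower bound of the Levi form of `G = h(a)`. Model: the proved file HMV/Loc (copy and
simplify).

PLAN. `lev G z v = h'(a) La(v) + h''(a) ‖da(v)‖²` with `La, da` from `ap_jet`;
`0 ≤ h' ≤ C₀`, `|h''| ≤ C₀` (`hh_bound`). `LL1 + LL2 ≤ om`, `τ b'' ‖dsp‖² ≥ -2Bτ · 2 om`
(`bb2_ge`, `dsp_sq_le`). If `a < -4`, `h'' = 0` (`hh_near`). Otherwise `F ≥ e^{-4} e^s`:
`‖conj w dw/F‖² ≤ ‖dw‖²/F ≤ 2 e⁴ om` (`‖w‖² ≤ F`, `dw_sq_le`), `‖E dcp/F‖ = τ (1+b') ‖dsp‖`, `τ ≤ 1`,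
`τ b' = e^{b+s} b'/F ≤ e⁴ (e^b b')`, `(τ b')² ≤ e⁸ · 2 B e^{-B(T-s)²}` (`bb1_exp`, `s ≤ T` by
`ap_supp`), `‖dsp‖² ≤ 2 om`. If `a ≥ -3` all of `hh`, `h'`, `h''` vanish (`hh_far`, `hh_d_far`).
-/

open scoped ContDiff Topology
open Finset

namespace Pool.Agent.HMP

open Pool.Agent.HMV

private theorem Gp_jet {B : ℝ} (hB : 0 ≤ B) (T : ℝ) {z : Fin 4 → ℂ} (hz : z ∈ UU) :
    Jet (Gp B T) z
      (fun v => ((deriv hh (ap B T z) : ℝ) : ℂ) *
        (((starRingEnd ℂ) (ww z) * dw z v + ((Ep B T z : ℝ) : ℂ) * dcp B T z v) /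
        ((Fp B T z : ℝ) : ℂ) - dsp z v))
      (fun v => deriv hh (ap B T z) *
        (Qp B T z v + taup B T z * bb2 B T (ss z) * ‖dsp z v‖ ^ 2 - (LL1 z v + LL2 z v)) +
        deriv (deriv hh) (ap B T z) *
        ‖((starRingEnd ℂ) (ww z) * dw z v + ((Ep B T z : ℝ) : ℂ) * dcp B T z v) /
        ((Fp B T z : ℝ) : ℂ) - dsp z v‖ ^ 2) :=
  Jet.comp (f := ap B T) (h := hh) hh_smooth.contDiffAt (ap_jet hB T hz)

theorem Gp_smooth {B : ℝ} (hB : 0 ≤ B) (T : ℝ) {z : Fin 4 → ℂ} (hz : z ∈ UU) :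
    ContDiffAt ℝ ∞ (Gp B T) z := (Gp_jet hB T hz).smooth

theorem Gp_far {B : ℝ} (hB : 0 ≤ B) (T : ℝ) {z : Fin 4 → ℂ} (hz : z ∈ UU)
    (ha : -3 ≤ ap B T z) (v : Fin 4 → ℂ) : Gp B T z = 0 ∧ lev (Gp B T) z v = 0 := by
  refine ⟨hh_far ha, ?_⟩
  rw [(Gp_jet hB T hz).hl v, (hh_d_far ha).1, (hh_d_far ha).2]
  ring

theorem Qp_nonneg {B : ℝ} (hB : 0 < B) (T : ℝ) (z v : Fin 4 → ℂ) : 0 ≤ Qp B T z v := by
  have hE := Ep_pos B T z
  have hF := Fp_pos B T z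
  have hb1 : 0 < bb1 B T (ss z) := bb1_pos hB T (ss z)
  have hL := LL_nonneg z v
  have hL' : 0 ≤ LL1 z v + LL2 z v := add_nonneg hL.1 hL.2
  have hτ0 : 0 ≤ taup B T z := div_nonneg hE.le hF.le
  unfold Qp
  positivity

private theorem sq_add3 (x y w : ℂ) : ‖x + y - w‖ ^ 2 ≤ 3 * (‖x‖ ^ 2 + ‖y‖ ^ 2 + ‖w‖ ^ 2) := by
  have h1 : ‖x + y - w‖ ≤ ‖x‖ + ‖y‖ + ‖w‖ := by
    calc ‖x + y - w‖ ≤ ‖x + y‖ + ‖w‖ := norm_sub_le _ _
      _ ≤ ‖x‖ + ‖y‖ + ‖w‖ := by linarith [norm_add_le x y]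
  have h2 : ‖x + y - w‖ ^ 2 ≤ (‖x‖ + ‖y‖ + ‖w‖) ^ 2 := pow_le_pow_left₀ (norm_nonneg _) h1 2
  nlinarith [sq_nonneg (‖x‖ - ‖y‖), sq_nonneg (‖y‖ - ‖w‖), sq_nonneg (‖x‖ - ‖w‖)]

theorem Gp_local : ∃ C : ℝ, 1 ≤ C ∧ ∀ B T : ℝ, 1 ≤ B → ∀ z : Fin 4 → ℂ, z ∈ UU →
    ap B T z < -3 → ∀ v : Fin 4 → ℂ,
      deriv hh (ap B T z) * Qp B T z v - C * negp B T z * om z v ≤ lev (Gp B T) z v := by
  obtain ⟨C₀, hC₀, hCb⟩ := hh_bound
  set e4 : ℝ := Real.exp 4 with he4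
  have e4pos : 0 < e4 := Real.exp_pos _
  set C₁ : ℝ := 3 * (2 * e4 + 6 + 8 * e4 ^ 2) with hC₁
  have hC₁pos : 0 ≤ C₁ := by positivity
  refine ⟨C₀ * (4 + C₁), ?_, ?_⟩
  · nlinarith
  intro B T hB z hz ha v
  have hB0 : 0 ≤ B := by linarith
  have hB0' : 0 < B := by linarith
  have hsT : ss z ≤ T := (ap_supp hz ha).2.le
  have hE := Ep_pos B T z
  have hF := Fp_pos B T z
  have hEF : Ep B T z ≤ Fp B T z := by
    unfold Fp; nlinarith [sq_nonneg ‖ww z‖]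
  have hτ0 : 0 ≤ taup B T z := div_nonneg hE.le hF.le
  have hτ1 : taup B T z ≤ 1 := by
    unfold taup; rw [div_le_one hF]; exact hEF
  have hb1 : 0 < bb1 B T (ss z) := bb1_pos hB0' T (ss z)
  have hb2 := bb2_ge hB0 T (ss z)
  have hds := dsp_sq_le hz v
  have hdw := dw_sq_le hz v
  have hLL := LL_le hz v
  have hom := om_nonneg hz v
  rw [(Gp_jet hB0 T hz).hl v]
  set h' := deriv hh (ap B T z) with hh'
  set h'' := deriv (deriv hh) (ap B T z) with hh''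
  have hh'0 : 0 ≤ h' := hh_d_nonneg _
  have hh'1 : h' ≤ C₀ := (hCb _).1
  have hh''1 : |h''| ≤ C₀ := (hCb _).2
  set τ := taup B T z with hτ
  set b1 := bb1 B T (ss z) with hb1def
  set b2 := bb2 B T (ss z) with hb2def
  set n := om z v with hndef
  set ex := Real.exp (-(B * (T - ss z) ^ 2)) with hexdef
  have hex : 0 ≤ ex := Real.exp_nonneg _
  have hds0 : 0 ≤ ‖dsp z v‖ ^ 2 := sq_nonneg _
  -- part 1
  have part1 : -((1 + 4 * B * τ) * n) ≤ τ * b2 * ‖dsp z v‖ ^ 2 - (LL1 z v + LL2 z v) := by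
    have h2 : -(2 * B) * (τ * ‖dsp z v‖ ^ 2) ≤ b2 * (τ * ‖dsp z v‖ ^ 2) :=
      mul_le_mul_of_nonneg_right hb2 (mul_nonneg hτ0 hds0)
    have h3 : τ * ‖dsp z v‖ ^ 2 ≤ τ * (2 * n) := mul_le_mul_of_nonneg_left hds hτ0
    have h4 : 2 * B * (τ * ‖dsp z v‖ ^ 2) ≤ 2 * B * (τ * (2 * n)) :=
      mul_le_mul_of_nonneg_left h3 (by linarith)
    have h5 : τ * b2 * ‖dsp z v‖ ^ 2 - (LL1 z v + LL2 z v) =
        b2 * (τ * ‖dsp z v‖ ^ 2) - (LL1 z v + LL2 z v) := by ring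
    rw [h5]
    linarith
  have hX0 : 0 ≤ (1 + 4 * B * τ) * n := by positivity
  have part1' : -(C₀ * ((1 + 4 * B * τ) * n)) ≤
      h' * (τ * b2 * ‖dsp z v‖ ^ 2 - (LL1 z v + LL2 z v)) := by
    have h1 := mul_le_mul_of_nonneg_left part1 hh'0
    have h2 := mul_le_mul_of_nonneg_right hh'1 hX0
    linarith
  -- part 2
  set d : ℂ := ((starRingEnd ℂ) (ww z) * dw z v + ((Ep B T z : ℝ) : ℂ) * dcp B T z v) /
        ((Fp B T z : ℝ) : ℂ) - dsp z v with hd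
  have part2 : -(C₀ * (C₁ * (1 + B * ex) * n)) ≤ h'' * ‖d‖ ^ 2 := by
    by_cases ha4 : ap B T z < -4
    · have h0 : h'' = 0 := (hh_near ha4).2
      rw [h0]
      have : 0 ≤ C₀ * (C₁ * (1 + B * ex) * n) := by positivity
      linarith
    · push Not at ha4
      set es := Real.exp (ss z) with hes
      have hespos : 0 < es := Real.exp_pos _
      -- `es ≤ e4 F`
      have hNF : es ≤ e4 * Fp B T z := by
        have h1 : ss z ≤ 4 + Real.log (Fp B T z) := by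
          unfold ap at ha4; linarith
        have h2 := Real.exp_le_exp.2 h1
        rwa [Real.exp_add, Real.exp_log hF] at h2
      set F := Fp B T z with hFdef
      have hd3 : d = (starRingEnd ℂ) (ww z) * dw z v / (F : ℂ) +
          ((Ep B T z : ℝ) : ℂ) * dcp B T z v / (F : ℂ) - dsp z v := by
        rw [hd, add_div]
      have hsum : ‖d‖ ^ 2 ≤ 3 * (‖(starRingEnd ℂ) (ww z) * dw z v / (F : ℂ)‖ ^ 2 +
          ‖((Ep B T z : ℝ) : ℂ) * dcp B T z v / (F : ℂ)‖ ^ 2 + ‖dsp z v‖ ^ 2) := by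
        rw [hd3]; exact sq_add3 _ _ _
      -- first term
      have t1 : ‖(starRingEnd ℂ) (ww z) * dw z v / (F : ℂ)‖ ^ 2 ≤ 2 * e4 * n := by
        have e1 : ‖(starRingEnd ℂ) (ww z) * dw z v / (F : ℂ)‖ ^ 2 =
            ‖ww z‖ ^ 2 * ‖dw z v‖ ^ 2 / F ^ 2 := by
          rw [norm_div, norm_mul, RCLike.norm_conj, Complex.norm_real, Real.norm_of_nonneg hF.le,
            div_pow, mul_pow]
        have e2 : ‖ww z‖ ^ 2 ≤ F := by rw [hFdef]; unfold Fp; linarith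
        rw [e1, div_le_iff₀ (by positivity)]
        have e3 : ‖dw z v‖ ^ 2 ≤ 2 * (e4 * F) * n := by
          refine hdw.trans ?_
          have := mul_le_mul_of_nonneg_right hNF hom
          nlinarith
        calc ‖ww z‖ ^ 2 * ‖dw z v‖ ^ 2 ≤ F * (2 * (e4 * F) * n) :=
              mul_le_mul e2 e3 (sq_nonneg _) hF.le
          _ = 2 * e4 * n * F ^ 2 := by ring
      -- second term
      have hEP : Ep B T z = Real.exp (bb B T (ss z)) * es := by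
        unfold Ep cp
        rw [Real.exp_add]
      have hτb : τ * b1 ≤ e4 * (Real.exp (bb B T (ss z)) * b1) := by
        rw [hτ]
        unfold taup
        rw [← hFdef, div_mul_eq_mul_div, div_le_iff₀ hF, hEP]
        have q0 : 0 < Real.exp (bb B T (ss z)) := Real.exp_pos _
        have q2 : 0 ≤ Real.exp (bb B T (ss z)) * b1 := by positivity
        have q3 := mul_le_mul_of_nonneg_left hNF q2
        calc Real.exp (bb B T (ss z)) * es * b1 =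
            Real.exp (bb B T (ss z)) * b1 * es := by ring
          _ ≤ Real.exp (bb B T (ss z)) * b1 * (e4 * F) := q3
          _ = e4 * (Real.exp (bb B T (ss z)) * b1) * F := by ring
      have hτb0 : 0 ≤ τ * b1 := mul_nonneg hτ0 hb1.le
      have hτb2 : (τ * b1) ^ 2 ≤ 2 * e4 ^ 2 * (B * ex) := by
        have q1 := pow_le_pow_left₀ hτb0 hτb 2
        have q2 := bb1_exp hB0 hsT
        have q3 : (e4 * (Real.exp (bb B T (ss z)) * b1)) ^ 2 =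
            e4 ^ 2 * (Real.exp (bb B T (ss z)) * b1) ^ 2 := by ring
        rw [q3] at q1
        have q4 := mul_le_mul_of_nonneg_left q2 (show (0 : ℝ) ≤ e4 ^ 2 by positivity)
        calc (τ * b1) ^ 2 ≤ e4 ^ 2 * (Real.exp (bb B T (ss z)) * b1) ^ 2 := q1
          _ ≤ e4 ^ 2 * (2 * B * ex) := q4
          _ = 2 * e4 ^ 2 * (B * ex) := by ring
      have t2 : ‖((Ep B T z : ℝ) : ℂ) * dcp B T z v / (F : ℂ)‖ ^ 2 ≤
          (4 + 8 * e4 ^ 2 * (B * ex)) * n := by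
        have e1 : ‖((Ep B T z : ℝ) : ℂ) * dcp B T z v / (F : ℂ)‖ = τ * (1 + b1) * ‖dsp z v‖ := by
          unfold dcp
          rw [norm_div, norm_mul, norm_mul, Complex.norm_real, Complex.norm_real,
            Complex.norm_real, Real.norm_of_nonneg hF.le, Real.norm_of_nonneg hE.le,
            Real.norm_of_nonneg (by positivity), hτ]
          unfold taup
          rw [← hFdef]
          ring
        have e2 : τ * (1 + b1) ≤ 1 + τ * b1 := by nlinarith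
        have e3 : 0 ≤ τ * (1 + b1) := by positivity
        have e4' : (τ * (1 + b1)) ^ 2 ≤ 2 + 2 * (τ * b1) ^ 2 := by
          have := pow_le_pow_left₀ e3 e2 2
          nlinarith [sq_nonneg (1 - τ * b1)]
        rw [e1, mul_pow]
        have e5 : (τ * (1 + b1)) ^ 2 ≤ 2 + 4 * e4 ^ 2 * (B * ex) := by linarith
        calc (τ * (1 + b1)) ^ 2 * ‖dsp z v‖ ^ 2 ≤
            (2 + 4 * e4 ^ 2 * (B * ex)) * (2 * n) :=
            mul_le_mul e5 hds hds0 (by positivity)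
          _ = (4 + 8 * e4 ^ 2 * (B * ex)) * n := by ring
      have hNd : ‖d‖ ^ 2 ≤ C₁ * (1 + B * ex) * n := by
        have q2 : ‖d‖ ^ 2 ≤ 3 * (2 * e4 * n + (4 + 8 * e4 ^ 2 * (B * ex)) * n + 2 * n) := by
          linarith
        have hBx : 0 ≤ B * ex := by positivity
        have q3 : 3 * (2 * e4 * n + (4 + 8 * e4 ^ 2 * (B * ex)) * n + 2 * n) =
            (3 * (2 * e4 + 6 + 8 * e4 ^ 2 * (B * ex))) * n := by ring
        have q4 : 3 * (2 * e4 + 6 + 8 * e4 ^ 2 * (B * ex)) ≤ C₁ * (1 + B * ex) := by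
          rw [hC₁]
          have q5 : 0 ≤ e4 * (B * ex) := by positivity
          have q6 : 0 ≤ e4 ^ 2 * (B * ex) := by positivity
          nlinarith [sq_nonneg e4]
        calc ‖d‖ ^ 2 ≤ _ := q2
          _ = (3 * (2 * e4 + 6 + 8 * e4 ^ 2 * (B * ex))) * n := q3
          _ ≤ C₁ * (1 + B * ex) * n := mul_le_mul_of_nonneg_right q4 hom
      have hNd0 : 0 ≤ ‖d‖ ^ 2 := by positivity
      have q7 : -C₀ ≤ h'' := (abs_le.1 hh''1).1
      have q8 : -C₀ * ‖d‖ ^ 2 ≤ h'' * ‖d‖ ^ 2 := mul_le_mul_of_nonneg_right q7 hNd0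
      have q9 : C₀ * ‖d‖ ^ 2 ≤ C₀ * (C₁ * (1 + B * ex) * n) :=
        mul_le_mul_of_nonneg_left hNd (by linarith)
      linarith
  -- conclusion
  have hneg : C₀ * ((1 + 4 * B * τ) * n) + C₀ * (C₁ * (1 + B * ex) * n) ≤
      C₀ * (4 + C₁) * negp B T z * n := by
    have e1 : negp B T z = 1 + B * τ + B * ex := rfl
    rw [e1]
    have q1 : (1 + 4 * B * τ) + C₁ * (1 + B * ex) ≤ (4 + C₁) * (1 + B * τ + B * ex) := by
      have q2 : 0 ≤ B * τ := by positivity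
      have q3 : 0 ≤ B * ex := by positivity
      have q4 : 0 ≤ C₁ * (B * τ) := by positivity
      nlinarith
    have q5 : 0 ≤ C₀ * n := by positivity
    have q6 := mul_le_mul_of_nonneg_left q1 q5
    calc C₀ * ((1 + 4 * B * τ) * n) + C₀ * (C₁ * (1 + B * ex) * n) =
        C₀ * n * ((1 + 4 * B * τ) + C₁ * (1 + B * ex)) := by ring
      _ ≤ C₀ * n * ((4 + C₁) * (1 + B * τ + B * ex)) := q6
      _ = C₀ * (4 + C₁) * (1 + B * τ + B * ex) * n := by ring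
  have hfin : h' * (Qp B T z v + τ * b2 * ‖dsp z v‖ ^ 2 - (LL1 z v + LL2 z v)) + h'' * ‖d‖ ^ 2 =
      h' * Qp B T z v + h' * (τ * b2 * ‖dsp z v‖ ^ 2 - (LL1 z v + LL2 z v)) +
        h'' * ‖d‖ ^ 2 := by ring
  rw [hfin]
  linarith

end Pool.Agent.HMP
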