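import Pool.Agent.HMP.Defs
import Pool.Agent.HMV.Jet
import Pool.Agent.HMV.JetC
import Pool.Agent.HMV.JetQ

/-!
HMP-Log. Basic facts on the two blocks and the jets of `log N1`, `log N2`, `s`, `|w|²`.

The jets of `N1`, `N2` are sums of `jet_normSq_sub`; the logarithm is the chain rule `Jet.comp` and Lagrange's
identity (`lag`). For `|w|²` the first and second derivatives are computed directly (`ww_fd`, `ww_D2`).
-/

open scoped ContDiff Topology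
open Finset

namespace Pool.Agent.HMP

open Pool.Agent.HMV

private theorem lag (a b c d : ℂ) : (‖a‖ ^ 2 + ‖b‖ ^ 2) * (‖c‖ ^ 2 + ‖d‖ ^ 2) =
    ‖(starRingEnd ℂ) a * c + (starRingEnd ℂ) b * d‖ ^ 2 + ‖a * d - b * c‖ ^ 2 := by
  simp only [Complex.sq_norm, Complex.normSq_apply, Complex.add_re, Complex.add_im, Complex.sub_re,
    Complex.sub_im, Complex.mul_re, Complex.mul_im, Complex.conj_re, Complex.conj_im]
  ring

private theorem lag_div (a b c d : ℂ) {N : ℝ} (hN : 0 < N) (h : N = ‖a‖ ^ 2 + ‖b‖ ^ 2) :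
    (‖c‖ ^ 2 + ‖d‖ ^ 2) / N - ‖(starRingEnd ℂ) a * c + (starRingEnd ℂ) b * d‖ ^ 2 / N ^ 2 =
      ‖a * d - b * c‖ ^ 2 / N ^ 2 := by
  have h1 := lag a b c d
  rw [← h] at h1
  have h2 : (‖c‖ ^ 2 + ‖d‖ ^ 2) / N = N * (‖c‖ ^ 2 + ‖d‖ ^ 2) / N ^ 2 := by
    field_simp
  rw [h2, h1]
  ring

private theorem N1_nonneg (z : Fin 4 → ℂ) : 0 ≤ N1 z := by unfold N1; positivity

private theorem N2_nonneg (z : Fin 4 → ℂ) : 0 ≤ N2 z := by unfold N2; positivity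

private theorem add_sq_le (x y : ℂ) : ‖x + y‖ ^ 2 ≤ 2 * (‖x‖ ^ 2 + ‖y‖ ^ 2) := by
  have h1 := norm_add_le x y
  have h2 : ‖x + y‖ ^ 2 ≤ (‖x‖ + ‖y‖) ^ 2 := pow_le_pow_left₀ (norm_nonneg _) h1 2
  nlinarith [sq_nonneg (‖x‖ - ‖y‖)]

theorem UU_open : IsOpen UU := by
  have h1 : Continuous N1 := by unfold N1; fun_prop
  have h2 : Continuous N2 := by unfold N2; fun_prop
  exact (isOpen_ne_fun h1 continuous_const).inter (isOpen_ne_fun h2 continuous_const)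

theorem N1_pos {z : Fin 4 → ℂ} (hz : z ∈ UU) : 0 < N1 z := by
  exact lt_of_le_of_ne (N1_nonneg z) (Ne.symm hz.1)

theorem N2_pos {z : Fin 4 → ℂ} (hz : z ∈ UU) : 0 < N2 z := by
  exact lt_of_le_of_ne (N2_nonneg z) (Ne.symm hz.2)

theorem om_nonneg {z : Fin 4 → ℂ} (hz : z ∈ UU) (v : Fin 4 → ℂ) : 0 ≤ om z v := by
  have h1 := N1_pos hz
  have h2 := N2_pos hz
  unfold om
  positivity

theorem om_pos {z v : Fin 4 → ℂ} (hz : z ∈ UU) (hv : v ≠ 0) : 0 < om z v := by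
  have h1 := N1_pos hz
  have h2 := N2_pos hz
  obtain ⟨i, hi⟩ := Function.ne_iff.mp hv
  have hi' : 0 < ‖v i‖ := norm_pos_iff.mpr hi
  unfold om
  have e0 : 0 ≤ (‖v 0‖ ^ 2 + ‖v 1‖ ^ 2) / N1 z := by positivity
  have e1 : 0 ≤ (‖v 2‖ ^ 2 + ‖v 3‖ ^ 2) / N2 z := by positivity
  fin_cases i
  · have : 0 < (‖v 0‖ ^ 2 + ‖v 1‖ ^ 2) / N1 z := by
      have h3 : 0 < ‖v 0‖ := hi'
      positivity
    linarith
  · have : 0 < (‖v 0‖ ^ 2 + ‖v 1‖ ^ 2) / N1 z := by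
      have h3 : 0 < ‖v 1‖ := hi'
      positivity
    linarith
  · have : 0 < (‖v 2‖ ^ 2 + ‖v 3‖ ^ 2) / N2 z := by
      have h3 : 0 < ‖v 2‖ := hi'
      positivity
    linarith
  · have : 0 < (‖v 2‖ ^ 2 + ‖v 3‖ ^ 2) / N2 z := by
      have h3 : 0 < ‖v 3‖ := hi'
      positivity
    linarith

theorem LL_le {z : Fin 4 → ℂ} (hz : z ∈ UU) (v : Fin 4 → ℂ) : LL1 z v + LL2 z v ≤ om z v := by
  have h1 := lag_div (z 0) (z 1) (v 0) (v 1) (N1_pos hz) rfl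
  have h2 := lag_div (z 2) (z 3) (v 2) (v 3) (N2_pos hz) rfl
  unfold LL1 LL2 om
  have h3 : 0 ≤ ‖(starRingEnd ℂ) (z 0) * v 0 + (starRingEnd ℂ) (z 1) * v 1‖ ^ 2 / N1 z ^ 2 := by
    positivity
  have h4 : 0 ≤ ‖(starRingEnd ℂ) (z 2) * v 2 + (starRingEnd ℂ) (z 3) * v 3‖ ^ 2 / N2 z ^ 2 := by
    positivity
  linarith

theorem LL_nonneg (z v : Fin 4 → ℂ) : 0 ≤ LL1 z v ∧ 0 ≤ LL2 z v := by
  unfold LL1 LL2
  constructor <;> positivity

theorem dsp_sq_le {z : Fin 4 → ℂ} (hz : z ∈ UU) (v : Fin 4 → ℂ) :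
    ‖dsp z v‖ ^ 2 ≤ 2 * om z v := by
  have h1 := lag_div (z 0) (z 1) (v 0) (v 1) (N1_pos hz) rfl
  have h2 := lag_div (z 2) (z 3) (v 2) (v 3) (N2_pos hz) rfl
  have h3 := (LL_nonneg z v).1
  have h4 := (LL_nonneg z v).2
  unfold LL1 at h3
  unfold LL2 at h4
  have e1 : ‖dL1 z v‖ ^ 2 =
      ‖(starRingEnd ℂ) (z 0) * v 0 + (starRingEnd ℂ) (z 1) * v 1‖ ^ 2 / N1 z ^ 2 := by
    unfold dL1
    rw [norm_div, div_pow, Complex.norm_real, Real.norm_eq_abs, sq_abs]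
  have e2 : ‖dL2 z v‖ ^ 2 =
      ‖(starRingEnd ℂ) (z 2) * v 2 + (starRingEnd ℂ) (z 3) * v 3‖ ^ 2 / N2 z ^ 2 := by
    unfold dL2
    rw [norm_div, div_pow, Complex.norm_real, Real.norm_eq_abs, sq_abs]
  have h5 := add_sq_le (dL1 z v) (dL2 z v)
  unfold dsp om
  rw [e1, e2] at h5
  linarith

theorem dw_sq_le {z : Fin 4 → ℂ} (hz : z ∈ UU) (v : Fin 4 → ℂ) :
    ‖dw z v‖ ^ 2 ≤ 2 * Real.exp (ss z) * om z v := by
  have h1 := N1_pos hz
  have h2 := N2_pos hz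
  have hexp : Real.exp (ss z) = N1 z * N2 z := by
    unfold ss
    rw [Real.exp_add, Real.exp_log h1, Real.exp_log h2]
  have h3 := add_sq_le (z 2 * v 0) (z 0 * v 2)
  have h4 : ‖z 2‖ ^ 2 ≤ N2 z := by unfold N2; nlinarith [sq_nonneg ‖z 3‖]
  have h5 : ‖z 0‖ ^ 2 ≤ N1 z := by unfold N1; nlinarith [sq_nonneg ‖z 1‖]
  have e : N1 z * N2 z * om z v =
      N2 z * (‖v 0‖ ^ 2 + ‖v 1‖ ^ 2) + N1 z * (‖v 2‖ ^ 2 + ‖v 3‖ ^ 2) := by
    unfold om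
    field_simp
  have h6 : ‖z 2 * v 0‖ ^ 2 ≤ N2 z * (‖v 0‖ ^ 2 + ‖v 1‖ ^ 2) := by
    rw [norm_mul, mul_pow]
    have h7 : ‖v 0‖ ^ 2 ≤ ‖v 0‖ ^ 2 + ‖v 1‖ ^ 2 := by nlinarith [sq_nonneg ‖v 1‖]
    exact mul_le_mul h4 h7 (by positivity) h2.le
  have h8 : ‖z 0 * v 2‖ ^ 2 ≤ N1 z * (‖v 2‖ ^ 2 + ‖v 3‖ ^ 2) := by
    rw [norm_mul, mul_pow]
    have h7 : ‖v 2‖ ^ 2 ≤ ‖v 2‖ ^ 2 + ‖v 3‖ ^ 2 := by nlinarith [sq_nonneg ‖v 3‖]
    exact mul_le_mul h5 h7 (by positivity) h1.le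
  unfold dw
  rw [hexp, mul_assoc, e]
  linarith

theorem ss_jet {z : Fin 4 → ℂ} (hz : z ∈ UU) :
    Jet ss z (dsp z) (fun v => LL1 z v + LL2 z v) := by
  have h1 := N1_pos hz
  have h2 := N2_pos hz
  have j1 : Jet N1 z (fun v => (starRingEnd ℂ) (z 0) * v 0 + (starRingEnd ℂ) (z 1) * v 1)
      (fun v => ‖v 0‖ ^ 2 + ‖v 1‖ ^ 2) := by
    have h := (jet_normSq_sub 0 0 z).add (jet_normSq_sub 1 0 z)
    simp only [sub_zero] at h
    exact h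
  have j2 : Jet N2 z (fun v => (starRingEnd ℂ) (z 2) * v 2 + (starRingEnd ℂ) (z 3) * v 3)
      (fun v => ‖v 2‖ ^ 2 + ‖v 3‖ ^ 2) := by
    have h := (jet_normSq_sub 2 0 z).add (jet_normSq_sub 3 0 z)
    simp only [sub_zero] at h
    exact h
  have J := (Jet.comp (f := N1) (Real.contDiffAt_log.mpr h1.ne') j1).add
    (Jet.comp (f := N2) (Real.contDiffAt_log.mpr h2.ne') j2)
  refine ⟨J.smooth, fun v => (J.hd v).trans ?_, fun v => (J.hl v).trans ?_⟩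
  · rw [Real.deriv_log, Real.deriv_log]
    unfold dsp dL1 dL2
    push_cast
    rw [div_eq_inv_mul, div_eq_inv_mul]
  · rw [Real.deriv_log, Real.deriv_log, Real.deriv_log', deriv_inv, deriv_inv]
    have e1 := lag_div (z 0) (z 1) (v 0) (v 1) h1 rfl
    have e2 := lag_div (z 2) (z 3) (v 2) (v 3) h2 rfl
    unfold LL1 LL2
    rw [← e1, ← e2, div_eq_mul_inv, div_eq_mul_inv, div_eq_mul_inv, div_eq_mul_inv]
    ring

/-- the derivative of `ww` -/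
private noncomputable def wL (x : Fin 4 → ℂ) : (Fin 4 → ℂ) →L[ℝ] ℂ :=
  x 0 • ContinuousLinearMap.proj (R := ℝ) (φ := fun _ : Fin 4 => ℂ) 2 +
    x 2 • ContinuousLinearMap.proj (R := ℝ) (φ := fun _ : Fin 4 => ℂ) 0

private theorem wL_apply (x v : Fin 4 → ℂ) : wL x v = dw x v := by
  show x 0 * v 2 + x 2 * v 0 = _
  unfold dw
  ring

private theorem hasF_ww (x : Fin 4 → ℂ) : HasFDerivAt ww (wL x) x := by
  have h0 : HasFDerivAt (fun y : Fin 4 → ℂ => y 0)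
      (ContinuousLinearMap.proj (R := ℝ) (φ := fun _ : Fin 4 => ℂ) 0) x :=
    (ContinuousLinearMap.proj (R := ℝ) (φ := fun _ : Fin 4 => ℂ) 0).hasFDerivAt
  have h2 : HasFDerivAt (fun y : Fin 4 → ℂ => y 2)
      (ContinuousLinearMap.proj (R := ℝ) (φ := fun _ : Fin 4 => ℂ) 2) x :=
    (ContinuousLinearMap.proj (R := ℝ) (φ := fun _ : Fin 4 => ℂ) 2).hasFDerivAt
  exact (h0.mul h2).sub_const 1

private theorem ww_cd : ContDiff ℝ ∞ (fun x : Fin 4 → ℂ => ‖ww x‖ ^ 2) := by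
  have h1 : ContDiff ℝ ∞ ww := by
    unfold ww
    exact ((contDiff_apply ℝ ℂ (0 : Fin 4)).mul (contDiff_apply ℝ ℂ (2 : Fin 4))).sub contDiff_const
  exact h1.norm_sq ℝ

private theorem ww_fd (x v : Fin 4 → ℂ) : fderiv ℝ (fun x : Fin 4 → ℂ => ‖ww x‖ ^ 2) x v =
    2 * ((starRingEnd ℂ) (ww x) * dw x v).re := by
  have h := (hasF_ww x).norm_sq
  rw [h.fderiv, ← wL_apply]
  simp only [FunLike.coe_smul, Pi.smul_apply, ContinuousLinearMap.comp_apply, innerSL_apply_apply,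
    Complex.inner, nsmul_eq_mul, Nat.cast_ofNat]
  rw [mul_comm (wL x v)]

private theorem ww_D2 (z v u : Fin 4 → ℂ) : D2 (fun x : Fin 4 → ℂ => ‖ww x‖ ^ 2) z v u =
    2 * ((starRingEnd ℂ) (dw z v) * dw z u + (starRingEnd ℂ) (ww z) * dw v u).re := by
  have hd : DifferentiableAt ℝ (fderiv ℝ (fun x : Fin 4 → ℂ => ‖ww x‖ ^ 2)) z := by
    have h1 : ContDiffAt ℝ 1 (fderiv ℝ (fun x : Fin 4 → ℂ => ‖ww x‖ ^ 2)) z :=
      (ww_cd.contDiffAt).fderiv_right (by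
        show ((1 : ℕ∞) : WithTop ℕ∞) + 1 ≤ _
        exact_mod_cast le_top)
    exact h1.differentiableAt (by simp)
  have h2 : D2 (fun x : Fin 4 → ℂ => ‖ww x‖ ^ 2) z v u =
      fderiv ℝ (fun x => fderiv ℝ (fun x : Fin 4 → ℂ => ‖ww x‖ ^ 2) x u) z v := by
    unfold D2
    rw [fderiv_clm_apply hd (differentiableAt_const u)]
    simp
  have h3 : (fun x => fderiv ℝ (fun x : Fin 4 → ℂ => ‖ww x‖ ^ 2) x u) =
      fun x => 2 * ((starRingEnd ℂ) (ww x) * dw x u).re := by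
    funext x
    exact ww_fd x u
  have hw : HasFDerivAt (fun x => (starRingEnd ℂ) (ww x))
      ((Complex.conjCLE : ℂ →L[ℝ] ℂ).comp (wL z)) z :=
    (Complex.conjCLE : ℂ →L[ℝ] ℂ).hasFDerivAt.comp z (hasF_ww z)
  have hu : HasFDerivAt (fun x => dw x u) (wL u) z := by
    have h4 : (fun x => dw x u) = fun x => wL u x := by
      funext x
      rw [wL_apply]
      unfold dw
      ring
    rw [h4]
    exact (wL u).hasFDerivAt
  have h5 := ((Complex.reCLM.hasFDerivAt.comp z (hw.mul hu))).const_mul 2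
  rw [h2, h3]
  have h6 : fderiv ℝ (fun x => 2 * ((starRingEnd ℂ) (ww x) * dw x u).re) z = _ := h5.fderiv
  rw [h6]
  have e1 : wL u v = dw v u := by
    rw [wL_apply]
    unfold dw
    ring
  have e2 : wL z v = dw z v := wL_apply z v
  show 2 * ((starRingEnd ℂ) (ww z) * wL u v + dw z u * (starRingEnd ℂ) (wL z v)).re = _
  rw [e1, e2]
  congr 2
  ring

private theorem dw_I (z v : Fin 4 → ℂ) : dw z (Complex.I • v) = Complex.I * dw z v := by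
  unfold dw
  simp only [Pi.smul_apply, smul_eq_mul]
  ring

private theorem dw_II (v : Fin 4 → ℂ) : dw (Complex.I • v) (Complex.I • v) = -dw v v := by
  unfold dw
  simp only [Pi.smul_apply, smul_eq_mul]
  linear_combination (2 * v 0 * v 2) * Complex.I_mul_I

theorem jet_ww (z : Fin 4 → ℂ) :
    Jet (fun x => ‖ww x‖ ^ 2) z (fun v => (starRingEnd ℂ) (ww z) * dw z v)
      (fun v => ‖dw z v‖ ^ 2) := by
  refine ⟨ww_cd.contDiffAt, ?_, ?_⟩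
  · intro v
    unfold dz
    rw [ww_fd, ww_fd, dw_I]
    apply Complex.ext
    · simp
    · simp
      ring
  · intro v
    unfold lev
    rw [ww_D2, ww_D2, dw_I, dw_II]
    have e1 : ((starRingEnd ℂ) (dw z v) * dw z v).re = ‖dw z v‖ ^ 2 := by
      rw [Complex.sq_norm, Complex.normSq_apply]
      simp
    have e2 : ((starRingEnd ℂ) (Complex.I * dw z v) * (Complex.I * dw z v)).re = ‖dw z v‖ ^ 2 := by
      rw [Complex.sq_norm, Complex.normSq_apply]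
      simp
    rw [Complex.add_re, Complex.add_re, e1, e2, mul_neg, Complex.neg_re]
    ring

/-- behaviour under the deck transformations -/
theorem N_sc {a b : ℂ} (z : Fin 4 → ℂ) :
    N1 (sc a b z) = ‖a‖ ^ 2 * N1 z ∧ N2 (sc a b z) = ‖b‖ ^ 2 * N2 z := by
  unfold N1 N2 sc
  constructor
  · simp [mul_pow]
    ring
  · simp [mul_pow]
    ring

theorem sc_mem {a b : ℂ} (ha : a ≠ 0) (hb : b ≠ 0) {z : Fin 4 → ℂ} (hz : z ∈ UU) :
    sc a b z ∈ UU := by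
  have h := N_sc (a := a) (b := b) z
  refine ⟨?_, ?_⟩
  · rw [h.1]
    exact mul_ne_zero (by simpa using ha) hz.1
  · rw [h.2]
    exact mul_ne_zero (by simpa using hb) hz.2

theorem om_sc {a b : ℂ} (ha : a ≠ 0) (hb : b ≠ 0) (z v : Fin 4 → ℂ) :
    om (sc a b z) (sc a b v) = om z v := by
  have h := N_sc (a := a) (b := b) z
  have ha' : ‖a‖ ^ 2 ≠ 0 := by simpa using ha
  have hb' : ‖b‖ ^ 2 ≠ 0 := by simpa using hb
  have h3 := N_sc (a := a) (b := b) v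
  have e1 : ‖sc a b v 0‖ ^ 2 + ‖sc a b v 1‖ ^ 2 = ‖a‖ ^ 2 * (‖v 0‖ ^ 2 + ‖v 1‖ ^ 2) := h3.1
  have e2 : ‖sc a b v 2‖ ^ 2 + ‖sc a b v 3‖ ^ 2 = ‖b‖ ^ 2 * (‖v 2‖ ^ 2 + ‖v 3‖ ^ 2) := h3.2
  unfold om
  rw [h.1, h.2, e1, e2, mul_div_mul_left _ _ ha', mul_div_mul_left _ _ hb']

end Pool.Agent.HMP
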