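import Pool.Agent.HMP.Log

/-!
HMP-Met. Every Hermitian metric of `H × H` dominates a multiple of the product metric; integrability on
the fundamental domain. Model: the proved file HMV/Met.

PLAN. (1) `K = {z | 1 ≤ N1 z ≤ ‖q‖², 1 ≤ N2 z ≤ ‖q‖²}` is compact and contained in `UU`, the unit sphere
`{v | ∑ ‖v i‖² = 1}` is compact; `(z, v) ↦ Re (star v ⬝ᵥ A z *ᵥ v)` is continuous and positive there, so
it is `≥ ε₀ > 0`; on `K`, `om z v ≤ ∑ ‖v i‖²`; by homogeneity `Re(...) ≥ ε₀ om z v` for `z ∈ K` and all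
`v`.
(2) `form_sc`: `inv1` gives `Re (form of A (sc q 1 z) at sc q 1 v) = Re (form of A z at v)`
(`sc q 1 v = scM q 1 *ᵥ v`), the same for `sc 1 q`; by induction for `sc (q^j) (q^k)`, `j k : ℤ`;
`om_sc` says that `om` is invariant as well. For `z ∈ UU` choose j, k with `sc (q^j) (q^k) z ∈ K`
(`exists_mem_Ico_zpow` for `‖q‖² > 1` and `N1 z > 0`, `N2 z > 0`, `N_sc`).
(3) a function continuous on `UU` is integrable on `fundP q ⊆ K`.
-/

open scoped Matrix ComplexOrder Topology ContDiff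
open Finset MeasureTheory

namespace Pool.Agent.HMP

open Pool.Agent.HMV

private theorem Met_nsq_cont : Continuous (nsq : (Fin 4 → ℂ) → ℝ) := by
  unfold nsq
  fun_prop

private theorem Met_N1_cont : Continuous N1 := by unfold N1; fun_prop

private theorem Met_N2_cont : Continuous N2 := by unfold N2; fun_prop

private theorem Met_nsq_eq (z : Fin 4 → ℂ) : nsq z = N1 z + N2 z := by
  unfold nsq N1 N2
  rw [Fin.sum_univ_four]
  ring

private theorem Met_N_nonneg (z : Fin 4 → ℂ) : 0 ≤ N1 z ∧ 0 ≤ N2 z := by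
  unfold N1 N2
  constructor <;> positivity

private theorem Met_nsq_smul (c : ℂ) (z : Fin 4 → ℂ) : nsq (c • z) = ‖c‖ ^ 2 * nsq z := by
  unfold nsq
  rw [Finset.mul_sum]
  refine Finset.sum_congr rfl fun i _ => ?_
  rw [Pi.smul_apply, smul_eq_mul, norm_mul, mul_pow]

private theorem Met_nsq_nonneg (z : Fin 4 → ℂ) : 0 ≤ nsq z :=
  Finset.sum_nonneg fun _ _ => sq_nonneg _

private theorem Met_nsq_pos {z : Fin 4 → ℂ} (hz : z ≠ 0) : 0 < nsq z := by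
  obtain ⟨i, hi⟩ : ∃ i, z i ≠ 0 := by
    by_contra h
    push Not at h
    exact hz (funext h)
  have h1 : 0 < ‖z i‖ ^ 2 := pow_pos (norm_pos_iff.2 hi) 2
  exact lt_of_lt_of_le h1
    (Finset.single_le_sum (f := fun i => ‖z i‖ ^ 2) (fun _ _ => sq_nonneg _) (Finset.mem_univ i))

private theorem Met_nsq_zero : nsq (0 : Fin 4 → ℂ) = 0 := by
  unfold nsq
  simp

private theorem Met_bdd (r : ℝ) : Bornology.IsBounded {z : Fin 4 → ℂ | nsq z ≤ r} := by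
  refine (Metric.isBounded_closedBall (x := (0 : Fin 4 → ℂ)) (r := √r)).subset fun z hz => ?_
  rw [mem_closedBall_zero_iff, pi_norm_le_iff_of_nonneg (Real.sqrt_nonneg r)]
  intro i
  refine Real.le_sqrt_of_sq_le (le_trans ?_ hz)
  exact Finset.single_le_sum (f := fun i => ‖z i‖ ^ 2) (fun _ _ => sq_nonneg _)
    (Finset.mem_univ i)

private theorem Met_sph : IsCompact {z : Fin 4 → ℂ | 1 ≤ nsq z ∧ nsq z ≤ 1} := by
  refine Metric.isCompact_of_isClosed_isBounded ?_ ?_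
  · exact (isClosed_le continuous_const Met_nsq_cont).inter
      (isClosed_le Met_nsq_cont continuous_const)
  · exact (Met_bdd 1).subset fun z hz => hz.2

private theorem Met_compact (r : ℝ) :
    IsCompact {z : Fin 4 → ℂ | (1 ≤ N1 z ∧ N1 z ≤ r) ∧ (1 ≤ N2 z ∧ N2 z ≤ r)} := by
  refine Metric.isCompact_of_isClosed_isBounded ?_ ?_
  · exact ((isClosed_le continuous_const Met_N1_cont).inter
      (isClosed_le Met_N1_cont continuous_const)).inter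
      ((isClosed_le continuous_const Met_N2_cont).inter
      (isClosed_le Met_N2_cont continuous_const))
  · refine (Met_bdd (r + r)).subset fun z hz => ?_
    show nsq z ≤ r + r
    rw [Met_nsq_eq]
    exact add_le_add hz.1.2 hz.2.2

private theorem Met_K_sub (r : ℝ) :
    {z : Fin 4 → ℂ | (1 ≤ N1 z ∧ N1 z ≤ r) ∧ (1 ≤ N2 z ∧ N2 z ≤ r)} ⊆ UU := by
  intro z hz
  exact ⟨(lt_of_lt_of_le one_pos hz.1.1).ne', (lt_of_lt_of_le one_pos hz.2.1).ne'⟩

private theorem Met_hom (B : Matrix (Fin 4) (Fin 4) ℂ) (r : ℝ) (v : Fin 4 → ℂ) :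
    (star ((r : ℂ) • v) ⬝ᵥ (B *ᵥ ((r : ℂ) • v))).re = r ^ 2 * (star v ⬝ᵥ (B *ᵥ v)).re := by
  rw [Matrix.mulVec_smul, star_smul, smul_dotProduct, dotProduct_smul, smul_eq_mul, smul_eq_mul,
    ← mul_assoc]
  have h1 : star (r : ℂ) * (r : ℂ) = ((r ^ 2 : ℝ) : ℂ) := by
    have h2 : star (r : ℂ) = (r : ℂ) := Complex.conj_ofReal r
    rw [h2]
    push_cast
    ring
  rw [h1, Complex.re_ofReal_mul]

private theorem Met_mulVec (a b : ℂ) (v : Fin 4 → ℂ) : scM a b *ᵥ v = sc a b v := by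
  unfold scM sc
  funext i
  rw [Matrix.mulVec_diagonal]
  fin_cases i <;> rfl

private theorem Met_form (a b : ℂ) (B : Matrix (Fin 4) (Fin 4) ℂ) (v : Fin 4 → ℂ) :
    star v ⬝ᵥ (((scM a b)ᴴ * B * scM a b) *ᵥ v) = star (sc a b v) ⬝ᵥ (B *ᵥ sc a b v) := by
  rw [← Met_mulVec, Matrix.star_mulVec, ← Matrix.dotProduct_mulVec, Matrix.mulVec_mulVec,
    Matrix.mulVec_mulVec]

private theorem Met_sc_sc (a b c d : ℂ) (z : Fin 4 → ℂ) :
    sc a b (sc c d z) = sc (a * c) (b * d) z := by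
  unfold sc
  funext i
  fin_cases i <;> simp [mul_assoc]

private theorem Met_sc_one (z : Fin 4 → ℂ) : sc 1 1 z = z := by
  unfold sc
  funext i
  fin_cases i <;> simp

/-- the quadratic form is invariant under all deck transformations -/
private theorem Met_inv {q : ℂ} (hq0 : q ≠ 0)
    {A : (Fin 4 → ℂ) → Matrix (Fin 4) (Fin 4) ℂ} (hA : IsMetric q A) (j k : ℤ) :
    ∀ z ∈ UU, ∀ v : Fin 4 → ℂ,
      star (sc (q ^ j) (q ^ k) v) ⬝ᵥ (A (sc (q ^ j) (q ^ k) z) *ᵥ sc (q ^ j) (q ^ k) v) =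
        star v ⬝ᵥ (A z *ᵥ v) := by
  have h1 : ∀ z ∈ UU, ∀ v : Fin 4 → ℂ,
      star (sc q 1 v) ⬝ᵥ (A (sc q 1 z) *ᵥ sc q 1 v) = star v ⬝ᵥ (A z *ᵥ v) := by
    intro z hz v
    rw [← Met_form, hA.inv1 z hz]
  have h2 : ∀ z ∈ UU, ∀ v : Fin 4 → ℂ,
      star (sc 1 q v) ⬝ᵥ (A (sc 1 q z) *ᵥ sc 1 q v) = star v ⬝ᵥ (A z *ᵥ v) := by
    intro z hz v
    rw [← Met_form, hA.inv2 z hz]
  have h3 : ∀ j : ℤ, ∀ z ∈ UU, ∀ v : Fin 4 → ℂ,
      star (sc (q ^ j) 1 v) ⬝ᵥ (A (sc (q ^ j) 1 z) *ᵥ sc (q ^ j) 1 v) = star v ⬝ᵥ (A z *ᵥ v) := by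
    intro j
    induction j using Int.induction_on with
    | zero =>
      intro z _ v
      rw [zpow_zero, Met_sc_one, Met_sc_one]
    | succ j ih =>
      intro z hz v
      have h4 := h1 (sc (q ^ (j : ℤ)) 1 z) (sc_mem (zpow_ne_zero _ hq0) one_ne_zero hz) (sc (q ^ (j : ℤ)) 1 v)
      rw [Met_sc_sc, Met_sc_sc, ← zpow_one_add₀ hq0, add_comm (1 : ℤ), one_mul, ih z hz v] at h4
      exact h4
    | pred j ih =>
      intro z hz v
      have h4 : (1 : ℤ) + (-(j : ℤ) - 1) = -j := by ring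
      have h5 := h1 (sc (q ^ (-(j : ℤ) - 1)) 1 z) (sc_mem (zpow_ne_zero _ hq0) one_ne_zero hz) (sc (q ^ (-(j : ℤ) - 1)) 1 v)
      rw [Met_sc_sc, Met_sc_sc, ← zpow_one_add₀ hq0, one_mul, h4, ih z hz v] at h5
      exact h5.symm
  have h5 : ∀ k : ℤ, ∀ z ∈ UU, ∀ v : Fin 4 → ℂ,
      star (sc 1 (q ^ k) v) ⬝ᵥ (A (sc 1 (q ^ k) z) *ᵥ sc 1 (q ^ k) v) = star v ⬝ᵥ (A z *ᵥ v) := by
    intro j
    induction j using Int.induction_on with
    | zero =>
      intro z _ v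
      rw [zpow_zero, Met_sc_one, Met_sc_one]
    | succ j ih =>
      intro z hz v
      have h4 := h2 (sc 1 (q ^ (j : ℤ)) z) (sc_mem one_ne_zero (zpow_ne_zero _ hq0) hz) (sc 1 (q ^ (j : ℤ)) v)
      rw [Met_sc_sc, Met_sc_sc, ← zpow_one_add₀ hq0, add_comm (1 : ℤ), one_mul, ih z hz v] at h4
      exact h4
    | pred j ih =>
      intro z hz v
      have h4 : (1 : ℤ) + (-(j : ℤ) - 1) = -j := by ring
      have h5 := h2 (sc 1 (q ^ (-(j : ℤ) - 1)) z) (sc_mem one_ne_zero (zpow_ne_zero _ hq0) hz) (sc 1 (q ^ (-(j : ℤ) - 1)) v)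
      rw [Met_sc_sc, Met_sc_sc, ← zpow_one_add₀ hq0, one_mul, h4, ih z hz v] at h5
      exact h5.symm
  intro z hz v
  have h6 := h3 j _ (sc_mem one_ne_zero (zpow_ne_zero k hq0) hz) (sc 1 (q ^ k) v)
  rw [h5 k z hz v, Met_sc_sc, Met_sc_sc, one_mul, mul_one] at h6
  exact h6

private theorem Met_om_le {z : Fin 4 → ℂ} (h1 : 1 ≤ N1 z) (h2 : 1 ≤ N2 z) (v : Fin 4 → ℂ) :
    om z v ≤ nsq v := by
  rw [Met_nsq_eq]
  have h3 := Met_N_nonneg v
  exact add_le_add (div_le_self h3.1 h1) (div_le_self h3.2 h2)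

theorem metric_ge {q : ℂ} (hq : 1 < ‖q‖)
    {A : (Fin 4 → ℂ) → Matrix (Fin 4) (Fin 4) ℂ} (hA : IsMetric q A) :
    ∃ ε : ℝ, 0 < ε ∧ ∀ z ∈ UU, ∀ v : Fin 4 → ℂ,
      ε * om z v ≤ (star v ⬝ᵥ (A z *ᵥ v)).re := by
  have hq0 : q ≠ 0 := by
    rintro rfl
    rw [norm_zero] at hq
    linarith
  -- the minimum on the compact set
  obtain ⟨ε, hε, hmin⟩ : ∃ ε : ℝ, 0 < ε ∧ ∀ z : Fin 4 → ℂ,
      ((1 ≤ N1 z ∧ N1 z ≤ ‖q‖ ^ 2) ∧ (1 ≤ N2 z ∧ N2 z ≤ ‖q‖ ^ 2)) →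
      ∀ v : Fin 4 → ℂ, nsq v = 1 → ε ≤ (star v ⬝ᵥ (A z *ᵥ v)).re := by
    obtain ⟨K, hK⟩ : ∃ K : Set ((Fin 4 → ℂ) × (Fin 4 → ℂ)),
        K = {z | (1 ≤ N1 z ∧ N1 z ≤ ‖q‖ ^ 2) ∧ (1 ≤ N2 z ∧ N2 z ≤ ‖q‖ ^ 2)} ×ˢ
          {v | 1 ≤ nsq v ∧ nsq v ≤ 1} := ⟨_, rfl⟩
    have hKc : IsCompact K := by
      rw [hK]
      exact (Met_compact _).prod Met_sph
    by_cases hne : K.Nonempty
    · have hcont : ContinuousOn (fun x : (Fin 4 → ℂ) × (Fin 4 → ℂ) =>
          (star x.2 ⬝ᵥ (A x.1 *ᵥ x.2)).re) K := by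
        have h1 : ContinuousOn (fun x : (Fin 4 → ℂ) × (Fin 4 → ℂ) => A x.1) K := by
          refine hA.cont.comp continuousOn_fst fun x hx => ?_
          rw [hK] at hx
          exact Met_K_sub _ hx.1
        refine Complex.continuous_re.comp_continuousOn ?_
        have h2 : (fun x : (Fin 4 → ℂ) × (Fin 4 → ℂ) => star x.2 ⬝ᵥ (A x.1 *ᵥ x.2)) =
            fun x => ∑ i, star (x.2 i) * ∑ j, A x.1 i j * x.2 j := rfl
        rw [h2]
        refine continuousOn_finsetSum _ fun i _ => ContinuousOn.mul ?_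
          (continuousOn_finsetSum _ fun j _ => ContinuousOn.mul ?_ ?_)
        · fun_prop
        · exact (continuous_apply_apply i j).comp_continuousOn h1
        · fun_prop
      obtain ⟨x, hxK, hx⟩ := hKc.exists_isMinOn hne hcont
      have hxK' := hxK
      rw [hK] at hxK'
      refine ⟨_, ?_, fun z hz v hv => hx (a := (z, v)) ?_⟩
      · have hv0 : x.2 ≠ 0 := by
          intro h2
          have h3 := hxK'.2.1
          rw [h2, Met_nsq_zero] at h3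
          linarith
        exact (hA.pos x.1 (Met_K_sub _ hxK'.1)).re_dotProduct_pos hv0
      · rw [hK]
        exact ⟨hz, hv.ge, hv.le⟩
    · refine ⟨1, one_pos, fun z hz v hv => absurd ⟨(z, v), ?_⟩ hne⟩
      rw [hK]
      exact ⟨hz, hv.ge, hv.le⟩
  -- all vectors
  have hall : ∀ z : Fin 4 → ℂ,
      ((1 ≤ N1 z ∧ N1 z ≤ ‖q‖ ^ 2) ∧ (1 ≤ N2 z ∧ N2 z ≤ ‖q‖ ^ 2)) →
      ∀ v : Fin 4 → ℂ, ε * nsq v ≤ (star v ⬝ᵥ (A z *ᵥ v)).re := by
    intro z hz v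
    by_cases hv : v = 0
    · rw [hv, Met_nsq_zero, Matrix.mulVec_zero, dotProduct_zero, Complex.zero_re, mul_zero]
    · have h1 := Met_nsq_pos hv
      have h2 : 0 < √(nsq v) := Real.sqrt_pos.2 h1
      have h3 : v = ((√(nsq v) : ℝ) : ℂ) • ((((√(nsq v))⁻¹ : ℝ) : ℂ) • v) := by
        rw [smul_smul, ← Complex.ofReal_mul, mul_inv_cancel₀ h2.ne', Complex.ofReal_one, one_smul]
      have h4 : nsq ((((√(nsq v))⁻¹ : ℝ) : ℂ) • v) = 1 := by
        rw [Met_nsq_smul, Complex.norm_real, Real.norm_eq_abs, sq_abs, inv_pow, Real.sq_sqrt h1.le,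
          inv_mul_cancel₀ h1.ne']
      have h5 := hmin z hz _ h4
      have h6 : (star v ⬝ᵥ (A z *ᵥ v)).re = nsq v *
          (star ((((√(nsq v))⁻¹ : ℝ) : ℂ) • v) ⬝ᵥ
            (A z *ᵥ ((((√(nsq v))⁻¹ : ℝ) : ℂ) • v))).re := by
        conv_lhs => rw [h3]
        rw [Met_hom, Real.sq_sqrt h1.le]
      rw [h6, mul_comm]
      exact mul_le_mul_of_nonneg_left h5 h1.le
  refine ⟨ε, hε, fun z hz v => ?_⟩
  have hq2 : 1 < ‖q‖ ^ 2 := by nlinarith
  have hstep : ∀ x : ℝ, 0 < x → ∃ j : ℤ, 1 ≤ ‖q ^ j‖ ^ 2 * x ∧ ‖q ^ j‖ ^ 2 * x ≤ ‖q‖ ^ 2 := by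
    intro x hx
    obtain ⟨k, hk1, hk2⟩ := exists_mem_Ico_zpow hx hq2
    have hk3 : ‖q ^ (-k)‖ ^ 2 * x = x / (‖q‖ ^ 2) ^ k := by
      rw [norm_zpow, ← zpow_natCast, ← zpow_mul, mul_comm (-k), zpow_mul, zpow_neg,
        zpow_natCast, div_eq_inv_mul]
    have hy : 0 < (‖q‖ ^ 2) ^ k := zpow_pos (by positivity) k
    refine ⟨-k, ?_, ?_⟩
    · rw [hk3, one_le_div hy]
      exact hk1
    · rw [hk3, div_le_iff₀ hy]
      rw [zpow_add_one₀ (by positivity)] at hk2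
      linarith
  obtain ⟨j, hj1, hj2⟩ := hstep _ (N1_pos hz)
  obtain ⟨k, hk1, hk2⟩ := hstep _ (N2_pos hz)
  have hN := N_sc (a := q ^ j) (b := q ^ k) z
  rw [← hN.1] at hj1 hj2
  rw [← hN.2] at hk1 hk2
  have h3 := hall _ ⟨⟨hj1, hj2⟩, ⟨hk1, hk2⟩⟩ (sc (q ^ j) (q ^ k) v)
  rw [Met_inv hq0 hA j k z hz v] at h3
  refine le_trans ?_ h3
  rw [← om_sc (zpow_ne_zero j hq0) (zpow_ne_zero k hq0) z v]
  exact mul_le_mul_of_nonneg_left (Met_om_le hj1 hk1 _) hε.le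

theorem fundP_measurable (q : ℂ) : MeasurableSet (fundP q) := by
  exact ((isClosed_le continuous_const Met_N1_cont).measurableSet.inter
    (isOpen_lt Met_N1_cont continuous_const).measurableSet).inter
    ((isClosed_le continuous_const Met_N2_cont).measurableSet.inter
    (isOpen_lt Met_N2_cont continuous_const).measurableSet)

theorem fundP_sub (q : ℂ) : fundP q ⊆ UU := by
  intro z hz
  exact ⟨(lt_of_lt_of_le one_pos hz.1.1).ne', (lt_of_lt_of_le one_pos hz.2.1).ne'⟩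

theorem integrable_fundP (q : ℂ) {f : (Fin 4 → ℂ) → ℝ} (hf : ContinuousOn f UU) :
    IntegrableOn f (fundP q) := by
  have h1 := hf.mono (Met_K_sub (‖q‖ ^ 2))
  exact (h1.integrableOn_compact (Met_compact _)).mono_set
    fun z hz => ⟨⟨hz.1.1, hz.1.2.le⟩, ⟨hz.2.1, hz.2.2.le⟩⟩

/-- continuity of the complex Hessian on `UU` (model: `leviMat_cont` in HMV/Mat) -/
theorem leviMat_contP {f : (Fin 4 → ℂ) → ℝ} (hf : ContDiffOn ℝ ∞ f UU) :
    ContinuousOn (leviMat f) UU := by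
  have two_le : (2 : WithTop ℕ∞) ≤ ∞ := by
    show ((2 : ℕ∞) : WithTop ℕ∞) ≤ ((⊤ : ℕ∞) : WithTop ℕ∞)
    exact WithTop.coe_le_coe.2 le_top
  have hD : ∀ v w : Fin 4 → ℂ, ContinuousOn (fun z => D2 f z v w) UU := by
    intro v w z hz
    have h1 : ContDiffAt ℝ ∞ f z := hf.contDiffAt (UU_open.mem_nhds hz)
    have h2 : ContDiffAt ℝ 1 (fderiv ℝ f) z :=
      h1.fderiv_right (by rw [one_add_one_eq_two]; exact two_le)
    have h3 : ContDiffAt ℝ 0 (fderiv ℝ (fderiv ℝ f)) z := h2.fderiv_right (by norm_num)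
    have h4 : ContinuousAt (fun z => fderiv ℝ (fderiv ℝ f) z v w) z :=
      (h3.continuousAt.clm_apply continuousAt_const).clm_apply continuousAt_const
    exact h4.continuousWithinAt
  refine continuousOn_pi.2 fun j => continuousOn_pi.2 fun k => ?_
  have e : (fun z => leviMat f z j k) = fun z =>
      (((D2 f z (Pi.single j 1) (Pi.single k 1) +
      D2 f z (Pi.single j Complex.I) (Pi.single k Complex.I) : ℝ) : ℂ) +
    Complex.I * ((D2 f z (Pi.single j Complex.I) (Pi.single k 1) -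
      D2 f z (Pi.single j 1) (Pi.single k Complex.I) : ℝ) : ℂ)) / 4 := rfl
  rw [e]
  refine ContinuousOn.div_const ?_ _
  refine ContinuousOn.add ?_ (ContinuousOn.mul continuousOn_const ?_)
  · exact Complex.continuous_ofReal.comp_continuousOn ((hD _ _).add (hD _ _))
  · exact Complex.continuous_ofReal.comp_continuousOn ((hD _ _).sub (hD _ _))

end Pool.Agent.HMP
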