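import Pool.Agent.HMP.Supp
import Pool.Agent.HMV.Cnt

/-!
HMP-SumB. The sum of the negative parts over all sheets is `O(T)` when `B = 2T`. Model: the proved
file HMV/SumB (copy and simplify: here `s_k = ss (yp q k z) = ss z - 2 k log ‖q‖` exactly).


PLAN. `Q = ‖q‖`, `L = 2 log Q > 0`, `δ = (Q-1)/(Q+1)`, `y_k = yp q k z ∈ UU`, `s_k = ss z - k L`,
`ww y_k = q^{-k} z 0 z 2 - 1`, `B = 2T`.
(1) For `k ∈ S`: `log (2/3) ≤ s_k < T` (`ap_supp`), so `card_le` gives `#S ≤ C₁ T`.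
(2) `S₁ = {k ∈ S | s_k ≥ T - 1}`: `#S₁ ≤ 1/L + 1`.
(3) `k ∈ S ∖ S₁`: `e^{-B (T-s)²} ≤ e^{-B} ≤ e^{-T}`, and if `‖ww y_k‖ ≥ δ` then
`τ ≤ E/δ² = e^{b+s}/δ² ≤ e^{T-B}/δ² = e^{-T}/δ²` (`bb_le`). At most one `k` violates
`‖ww y_k‖ ≥ δ` (`close_unique`, `c = z 0 * z 2`).
(4) `∑ neg ≤ #S + B (1 + #S₁ + #S e^{-T}/δ²) + B (#S₁ + #S e^{-T})`, `#S e^{-T} ≤ C₁`.
-/

open Finset

namespace Pool.Agent.HMP

open Pool.Agent.HMV

private theorem q_ne {q : ℂ} (hq : 1 < ‖q‖) : q ≠ 0 := by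
  intro h
  rw [h, norm_zero] at hq
  exact absurd hq (by norm_num)

theorem yp_mem {q : ℂ} (hq : 1 < ‖q‖) (k : ℤ) {z : Fin 4 → ℂ} (hz : z ∈ UU) :
    yp q k z ∈ UU :=
  sc_mem (zpow_ne_zero _ (q_ne hq)) one_ne_zero hz

theorem ss_yp {q : ℂ} (hq : 1 < ‖q‖) (k : ℤ) {z : Fin 4 → ℂ} (hz : z ∈ UU) :
    ss (yp q k z) = ss z - k * (2 * Real.log ‖q‖) := by
  have h0 : 0 < ‖q‖ := by linarith
  have h1 : N1 (yp q k z) = ‖q ^ (-k)‖ ^ 2 * N1 z := (N_sc (a := q ^ (-k)) (b := 1) z).1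
  have h2 : N2 (yp q k z) = ‖(1 : ℂ)‖ ^ 2 * N2 z := (N_sc (a := q ^ (-k)) (b := 1) z).2
  have h3 : ‖q ^ (-k)‖ ^ 2 = ‖q‖ ^ (-(2 * k)) := by
    rw [norm_zpow, ← zpow_natCast, ← zpow_mul]
    congr 1
    push_cast
    ring
  unfold ss
  rw [h1, h2, h3, norm_one, one_pow, one_mul, Real.log_mul (zpow_pos h0 _).ne' (N1_pos hz).ne',
    Real.log_zpow]
  push_cast
  ring

theorem ww_yp (q : ℂ) (k : ℤ) (z : Fin 4 → ℂ) :
    ww (yp q k z) = q ^ (-k) * (z 0 * z 2) - 1 := by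
  unfold ww yp sc
  simp
  ring

private theorem tau_bds (B T : ℝ) (z : Fin 4 → ℂ) : 0 ≤ taup B T z ∧ taup B T z ≤ 1 := by
  have h1 := Ep_pos B T z
  have h2 : Ep B T z ≤ Fp B T z := by
    have : 0 ≤ ‖ww z‖ ^ 2 := by positivity
    unfold Fp
    linarith
  have h3 : 0 < Fp B T z := h1.trans_le h2
  exact ⟨div_nonneg h1.le h3.le, (div_le_one h3).2 h2⟩

/-- bound of one term -/
private theorem one_term {T δ : ℝ} (hT : 1 ≤ T) (hδ : 0 < δ) {y : Fin 4 → ℂ}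
    (ht : ss y < T) :
    negp (2 * T) T y ≤ 1 + 2 * T * ((if T - 1 ≤ ss y then (1 : ℝ) else 0) +
        (if ‖ww y‖ < δ then (1 : ℝ) else 0) + Real.exp (-T) / δ ^ 2) +
      2 * T * ((if T - 1 ≤ ss y then (1 : ℝ) else 0) + Real.exp (-T)) := by
  have hB : 0 ≤ 2 * T := by linarith
  obtain ⟨h1, h2⟩ := tau_bds (2 * T) T y
  have he : 0 < Real.exp (-T) := Real.exp_pos _
  have hd : 0 < Real.exp (-T) / δ ^ 2 := by positivity
  have h3 : Real.exp (-(2 * T * (T - ss y) ^ 2)) ≤ 1 := by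
    rw [Real.exp_le_one_iff]
    have : 0 ≤ 2 * T * (T - ss y) ^ 2 := by positivity
    linarith
  have h4 : Real.exp (-(2 * T * (T - ss y) ^ 2)) ≤
      (if T - 1 ≤ ss y then (1 : ℝ) else 0) + Real.exp (-T) := by
    split_ifs with hc
    · linarith
    · rw [zero_add]
      apply Real.exp_le_exp.2
      rw [not_le] at hc
      have : 1 ≤ (T - ss y) ^ 2 := by nlinarith
      nlinarith
  have h5 : taup (2 * T) T y ≤ (if T - 1 ≤ ss y then (1 : ℝ) else 0) +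
      (if ‖ww y‖ < δ then (1 : ℝ) else 0) + Real.exp (-T) / δ ^ 2 := by
    by_cases hc : T - 1 ≤ ss y
    · rw [if_pos hc]
      have : (0 : ℝ) ≤ (if ‖ww y‖ < δ then (1 : ℝ) else 0) := by split_ifs <;> norm_num
      linarith
    · by_cases hc' : ‖ww y‖ < δ
      · rw [if_neg hc, if_pos hc']
        linarith
      · rw [if_neg hc, if_neg hc', zero_add, zero_add]
        rw [not_le] at hc
        rw [not_lt] at hc'
        have h6 : Ep (2 * T) T y ≤ Real.exp (-T) := by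
          apply Real.exp_le_exp.2
          have h7 := bb_le hB ht.le
          have : 1 ≤ (T - ss y) ^ 2 := by nlinarith
          unfold cp
          nlinarith
        have h8 : δ ^ 2 ≤ Fp (2 * T) T y := by
          have h9 := Ep_pos (2 * T) T y
          have h10 : δ ^ 2 ≤ ‖ww y‖ ^ 2 := pow_le_pow_left₀ hδ.le hc' 2
          unfold Fp
          linarith
        exact div_le_div₀ he.le h6 (by positivity) h8
  unfold negp
  have h6 := mul_le_mul_of_nonneg_left h4 hB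
  have h7 := mul_le_mul_of_nonneg_left h5 hB
  linarith

private theorem log_two_thirds : -1 ≤ Real.log (2 / 3) := by
  rw [Real.le_log_iff_exp_le (by norm_num), Real.exp_neg, inv_le_comm₀ (Real.exp_pos _)
    (by norm_num)]
  have := Real.add_one_le_exp (1 : ℝ)
  linarith

theorem sum_neg_le {q : ℂ} (hq : 1 < ‖q‖) : ∃ C : ℝ, 0 < C ∧ ∀ T : ℝ, 1 ≤ T →
    ∀ z : Fin 4 → ℂ, z ∈ UU → ∀ S : Finset ℤ,
      (∀ k ∈ S, ap (2 * T) T (yp q k z) < -3) → ∑ k ∈ S, negp (2 * T) T (yp q k z) ≤ C * T := by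
  classical
  obtain ⟨L, hL⟩ : ∃ L, L = 2 * Real.log ‖q‖ := ⟨_, rfl⟩
  have hL0 : 0 < L := by
    rw [hL]
    exact mul_pos two_pos (Real.log_pos hq)
  obtain ⟨δ, hδ⟩ : ∃ δ, δ = (‖q‖ - 1) / (‖q‖ + 1) := ⟨_, rfl⟩
  have hδ0 : 0 < δ := by
    rw [hδ]
    exact div_pos (by linarith) (by linarith)
  obtain ⟨C1, hC1⟩ : ∃ C1, C1 = 3 / L + 1 := ⟨_, rfl⟩
  have hC10 : 0 < C1 := by rw [hC1]; positivity
  refine ⟨7 * C1 + 2 + 2 * C1 / δ ^ 2, by positivity, fun T hT z hz S hS => ?_⟩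
  have hB : 0 ≤ 2 * T := by linarith
  obtain ⟨x, hx⟩ : ∃ x, x = ss z := ⟨_, rfl⟩
  have hlog : ∀ k : ℤ, ss (yp q k z) = x - k * L := fun k => by
    rw [hx, hL]
    exact ss_yp hq k hz
  have hsup : ∀ k ∈ S, Real.log (2 / 3) ≤ ss (yp q k z) ∧ ss (yp q k z) < T := fun k hk =>
    ap_supp (yp_mem hq k hz) (hS k hk)
  have htT : ∀ k ∈ S, ss (yp q k z) < T := fun k hk => (hsup k hk).2
  have hl23 := log_two_thirds
  have hl23' : Real.log (2 / 3) ≤ 0 := Real.log_nonpos (by norm_num) (by norm_num)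
  have hcardS : (S.card : ℝ) ≤ C1 * T := by
    have h1 := card_le (x := x) (α := Real.log (2 / 3)) (β := T) hL0 (by linarith) S
      (fun k hk => by
        rw [← hlog]
        exact ⟨(hsup k hk).1, (hsup k hk).2.le⟩)
    have h3 : (T - Real.log (2 / 3)) / L ≤ (3 * T) / L :=
      div_le_div_of_nonneg_right (by linarith) hL0.le
    have h4 : C1 * T = 3 * T / L + T := by rw [hC1]; ring
    rw [h4]
    linarith
  have hcard1 : ((S.filter fun k => T - 1 ≤ ss (yp q k z)).card : ℝ) ≤ C1 := by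
    have h1 := card_le (x := x) (α := T - 1) (β := T)
      hL0 (by linarith) (S.filter fun k => T - 1 ≤ ss (yp q k z)) (fun k hk => by
          rw [Finset.mem_filter] at hk
          rw [← hlog]
          exact ⟨hk.2, (htT k hk.1).le⟩)
    have h3 : (T - (T - 1)) / L ≤ 3 / L :=
      div_le_div_of_nonneg_right (by linarith) hL0.le
    rw [hC1]
    linarith
  have hcard2 : ((S.filter fun k => ‖ww (yp q k z)‖ < δ).card : ℝ) ≤ 1 := by
    have h1 : (S.filter fun k => ‖ww (yp q k z)‖ < δ).card ≤ 1 := by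
      rw [Finset.card_le_one]
      intro j hj k hk
      rw [Finset.mem_filter, ww_yp, hδ] at hj hk
      exact close_unique hq (z 0 * z 2) hj.2 hk.2
    exact_mod_cast h1
  have hsum : ∑ k ∈ S, negp (2 * T) T (yp q k z) ≤
      ∑ k ∈ S, (1 + 2 * T * ((if T - 1 ≤ ss (yp q k z) then (1 : ℝ) else 0) +
        (if ‖ww (yp q k z)‖ < δ then (1 : ℝ) else 0) + Real.exp (-T) / δ ^ 2) +
      2 * T * ((if T - 1 ≤ ss (yp q k z) then (1 : ℝ) else 0) + Real.exp (-T))) :=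
    Finset.sum_le_sum fun k hk => one_term hT hδ0 (htT k hk)
  refine hsum.trans ?_
  simp only [Finset.sum_add_distrib, ← Finset.mul_sum, Finset.sum_boole, Finset.sum_const,
    nsmul_eq_mul, mul_one]
  have hTe : T * Real.exp (-T) ≤ 1 := by
    rw [Real.exp_neg, ← div_eq_mul_inv, div_le_one (Real.exp_pos _)]
    have := Real.add_one_le_exp T
    linarith
  have hSe : (S.card : ℝ) * Real.exp (-T) ≤ C1 := by
    calc (S.card : ℝ) * Real.exp (-T) ≤ C1 * T * Real.exp (-T) :=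
          mul_le_mul_of_nonneg_right hcardS (Real.exp_pos _).le
      _ = C1 * (T * Real.exp (-T)) := by ring
      _ ≤ C1 * 1 := mul_le_mul_of_nonneg_left hTe hC10.le
      _ = C1 := mul_one _
  have hSed : (S.card : ℝ) * (Real.exp (-T) / δ ^ 2) ≤ C1 / δ ^ 2 := by
    rw [← mul_div_assoc]
    exact div_le_div_of_nonneg_right hSe (by positivity)
  have hA : 2 * T * (((S.filter fun k => T - 1 ≤ ss (yp q k z)).card : ℝ) +
      ((S.filter fun k => ‖ww (yp q k z)‖ < δ).card : ℝ) +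
      (S.card : ℝ) * (Real.exp (-T) / δ ^ 2)) ≤ 2 * T * (C1 + 1 + C1 / δ ^ 2) :=
    mul_le_mul_of_nonneg_left (by linarith) hB
  have hD : 2 * T * (((S.filter fun k => T - 1 ≤ ss (yp q k z)).card : ℝ) +
      (S.card : ℝ) * Real.exp (-T)) ≤ 2 * T * (C1 + C1) :=
    mul_le_mul_of_nonneg_left (by linarith) hB
  have hE : (7 * C1 + 2 + 2 * C1 / δ ^ 2) * T =
      C1 * T + 2 * T * (C1 + 1 + C1 / δ ^ 2) + 2 * T * (C1 + C1) := by ring
  rw [hE]
  linarith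

end Pool.Agent.HMP
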