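import Pool.Agent.HMP.Loc
import Pool.Agent.HMP.SumB

/-!
HMP-Phi. The sum `Φ(z) = ∑_k G(y_k)` is locally finite, smooth, invariant and bounded by `C T³`. Models:
the proved files HMV/Phi and HMV/Osc (copy and simplify).

PLAN. (1) `Ph_loc`: for x near z, `ss x` is within 1 of `ss z` (`ss` is continuous on `UU`); if
`Gp (yp q k x) ≠ 0` then `ap < -3` (`Gp_far`), so `log (2/3) ≤ ss x - 2 k log ‖q‖ < T`: finitely
many k, independent of x.
(2) invariance: `yp q k (sc q 1 z) = yp q (k-1) z` exactly (`q ≠ 0`), reindex the finsum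
(`finsum_comp_equiv`); and `Gp B T (sc a b z)` depends only on `ww` and `ss`, i.e. on
`z 0 * z 2` and `N1 * N2`: so `Gp (yp q k (sc 1 q z)) = Gp (yp q (k-1) z)` as well.
(3) smoothness and `lev_Ph`: `x ↦ yp q k x` is complex linear (diagonal); prove a private version of
`Jet.smul_comp` for `x ↦ f (sc a b x)`: `lev (fun x => f (sc a b x)) z v =
lev f (sc a b z) (sc a b v)` for `f` smooth at `sc a b z` (copy the proof in HMV/JetC with the
continuous linear map `sc a b`).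
(4) `Ph_bound`: as in HMV/Osc: `|hh x| ≤ -x` for `x < -3`; for at most one k
(`close_unique`) `|G| ≤ 10 T³ + 1` (`ap_ge_gen`), for the others `|G| ≤ T + 2|log δ|` (`ap_ge_far`);
their number is at most `∑ negp ≤ C T` (each `negp ≥ 1`).
-/

open scoped ContDiff Topology
open Finset

namespace Pool.Agent.HMP

open Pool.Agent.HMV

private theorem p_N1_cont : Continuous N1 := by
  unfold N1
  fun_prop

private theorem p_N2_cont : Continuous N2 := by
  unfold N2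
  fun_prop

private theorem p_ss_cont {z : Fin 4 → ℂ} (hz : z ∈ UU) : ContinuousAt ss z := by
  unfold ss
  exact (p_N1_cont.continuousAt.log hz.1).add (p_N2_cont.continuousAt.log hz.2)

theorem Ph_loc {q : ℂ} (hq : 1 < ‖q‖) {B : ℝ} (hB : 0 ≤ B) (T : ℝ)
    {z : Fin 4 → ℂ} (hz : z ∈ UU) : ∃ S : Finset ℤ, 0 ∈ S ∧
      ∀ᶠ x in 𝓝 z, Ph q B T x = ∑ k ∈ S, Gp B T (yp q k x) := by
  have hL : 0 < 2 * Real.log ‖q‖ := by
    have := Real.log_pos hq
    linarith
  set L : ℝ := 2 * Real.log ‖q‖ with hLd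
  refine ⟨insert 0 (Finset.Icc ⌊(ss z - 1 - T) / L⌋ ⌈(ss z + 1 - Real.log (2 / 3)) / L⌉),
    Finset.mem_insert_self _ _, ?_⟩
  have hc := p_ss_cont hz
  filter_upwards [hc.eventually (lt_mem_nhds (show ss z - 1 < ss z by linarith)),
    hc.eventually (gt_mem_nhds (show ss z < ss z + 1 by linarith)),
    p_N1_cont.continuousAt.eventually_ne hz.1, p_N2_cont.continuousAt.eventually_ne hz.2]
    with x hx1 hx2 hx3 hx4
  have hx : x ∈ UU := ⟨hx3, hx4⟩
  unfold Ph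
  refine finsum_eq_sum_of_support_subset _ fun k hk => ?_
  have hy : yp q k x ∈ UU := yp_mem hq k hx
  have ha : ap B T (yp q k x) < -3 := by
    by_contra h
    exact hk (Gp_far hB T hy (not_lt.1 h) 0).1
  obtain ⟨h1, h2⟩ := ap_supp hy ha
  rw [ss_yp hq k hx, ← hLd] at h1 h2
  rw [Finset.coe_insert]
  refine Or.inr (Finset.mem_coe.2 (Finset.mem_Icc.2 ⟨?_, ?_⟩))
  · have h7 : (ss z - 1 - T) / L ≤ k := by
      rw [div_le_iff₀ hL]
      linarith
    exact_mod_cast (Int.floor_le _).trans h7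
  · have h7 : (k : ℝ) ≤ (ss z + 1 - Real.log (2 / 3)) / L := by
      rw [le_div_iff₀ hL]
      linarith
    exact_mod_cast h7.trans (Int.le_ceil _)

private theorem p_N1_sc (a b : ℂ) (z : Fin 4 → ℂ) : N1 (sc a b z) = ‖a‖ ^ 2 * N1 z := by
  unfold N1 sc
  simp
  ring

private theorem p_N2_sc (a b : ℂ) (z : Fin 4 → ℂ) : N2 (sc a b z) = ‖b‖ ^ 2 * N2 z := by
  unfold N2 sc
  simp
  ring

private theorem p_ww_sc (a b : ℂ) (z : Fin 4 → ℂ) : ww (sc a b z) = a * b * (z 0 * z 2) - 1 := by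
  unfold ww sc
  simp
  ring

private theorem p_ss_sc {a b : ℂ} (ha : a ≠ 0) (hb : b ≠ 0) {z : Fin 4 → ℂ} (hz : z ∈ UU) :
    ss (sc a b z) = ss z + (2 * Real.log ‖a‖ + 2 * Real.log ‖b‖) := by
  have ha' : ‖a‖ ^ 2 ≠ 0 := pow_ne_zero 2 (norm_ne_zero_iff.2 ha)
  have hb' : ‖b‖ ^ 2 ≠ 0 := pow_ne_zero 2 (norm_ne_zero_iff.2 hb)
  unfold ss
  rw [p_N1_sc, p_N2_sc, Real.log_mul ha' hz.1, Real.log_mul hb' hz.2, Real.log_pow, Real.log_pow]
  push_cast
  ring

private theorem p_G_congr {B T : ℝ} {x y : Fin 4 → ℂ} (h1 : ww x = ww y) (h2 : ss x = ss y) :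
    Gp B T x = Gp B T y := by
  unfold Gp ap Fp Ep cp
  rw [h1, h2]

private theorem p_sc_sc (a b c d : ℂ) (z : Fin 4 → ℂ) :
    sc a b (sc c d z) = sc (a * c) (b * d) z := by
  unfold sc
  funext i
  fin_cases i <;> simp [mul_assoc]

theorem Ph_inv {q : ℂ} (hq : 1 < ‖q‖) (B T : ℝ) {z : Fin 4 → ℂ} (hz : z ∈ UU) :
    Ph q B T (sc q 1 z) = Ph q B T z ∧ Ph q B T (sc 1 q z) = Ph q B T z := by
  have hq0 : q ≠ 0 := by
    rintro rfl
    simp at hq
    linarith
  have hpow : ∀ k : ℤ, q ^ (-k) * q = q ^ (-(k - 1)) := by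
    intro k
    rw [neg_sub, sub_eq_neg_add, zpow_add₀ hq0, zpow_one]
  have key : ∀ x : Fin 4 → ℂ, (∀ k : ℤ, Gp B T (yp q k x) = Gp B T (yp q (k - 1) z)) →
      Ph q B T x = Ph q B T z := by
    intro x hx
    have h1 : ∀ k : ℤ, Gp B T (yp q k x) = Gp B T (yp q ((Equiv.subRight (1 : ℤ)) k) z) := by
      intro k
      rw [hx, Equiv.subRight_apply]
    unfold Ph
    simp only [h1]
    exact finsum_comp_equiv (Equiv.subRight (1 : ℤ)) (f := fun k => Gp B T (yp q k z))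
  refine ⟨key _ fun k => ?_, key _ fun k => ?_⟩
  · unfold yp
    rw [p_sc_sc, hpow, one_mul]
  · have hk : q ^ (-k) ≠ 0 := zpow_ne_zero _ hq0
    have hk1 : q ^ (-(k - 1)) ≠ 0 := zpow_ne_zero _ hq0
    unfold yp
    rw [p_sc_sc, mul_one, one_mul]
    refine p_G_congr ?_ ?_
    · rw [p_ww_sc, p_ww_sc, hpow, mul_one]
    · rw [p_ss_sc hk hq0 hz, p_ss_sc hk1 one_ne_zero hz, ← hpow, norm_mul,
        Real.log_mul (norm_ne_zero_iff.2 hk) (norm_ne_zero_iff.2 hq0)]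
      simp
      ring

private noncomputable def p_L (a b : ℂ) : (Fin 4 → ℂ) →L[ℝ] (Fin 4 → ℂ) :=
  LinearMap.toContinuousLinearMap
    { toFun := sc a b
      map_add' := by
        intro x y
        funext i
        fin_cases i <;> simp [sc] <;> ring
      map_smul' := by
        intro t x
        funext i
        fin_cases i <;> simp [sc] <;> ring }

private theorem p_L_apply (a b : ℂ) (x : Fin 4 → ℂ) : p_L a b x = sc a b x := rfl

private theorem p_sc_I (a b : ℂ) (v : Fin 4 → ℂ) :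
    sc a b (Complex.I • v) = Complex.I • sc a b v := by
  funext i
  fin_cases i <;> simp [sc] <;> ring

private theorem p_yp (q : ℂ) (k : ℤ) : ContDiff ℝ ∞ (yp q k) :=
  (p_L (q ^ (-k)) 1).contDiff

private theorem p_at {q : ℂ} (hq : 1 < ‖q‖) {B : ℝ} (hB : 0 ≤ B) (T : ℝ)
    {z : Fin 4 → ℂ} (hz : z ∈ UU) : ContDiffAt ℝ ∞ (Ph q B T) z := by
  obtain ⟨S, -, hS⟩ := Ph_loc hq hB T hz
  refine ContDiffAt.congr_of_eventuallyEq ?_ hS
  refine ContDiffAt.sum fun k _ => ?_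
  exact ContDiffAt.comp (g := Gp B T) (f := yp q k) z (Gp_smooth hB T (yp_mem hq k hz))
    (p_yp q k).contDiffAt

theorem Ph_smooth {q : ℂ} (hq : 1 < ‖q‖) {B : ℝ} (hB : 0 ≤ B) (T : ℝ) :
    ContDiffOn ℝ ∞ (Ph q B T) UU :=
  fun _ hz => (p_at hq hB T hz).contDiffWithinAt

private theorem p_ev {E : Type*} [NormedAddCommGroup E] [NormedSpace ℝ E] {g : E → ℝ} {x : E}
    (h : ContDiffAt ℝ ∞ g x) : ∀ᶠ y in 𝓝 x, DifferentiableAt ℝ g y := by
  have h1 : ContDiffAt ℝ 1 g x := h.of_le (by exact_mod_cast le_top)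
  have h2 := h1.eventually (by simp)
  filter_upwards [h2] with y hy
  exact hy.differentiableAt (by simp)

private theorem p_fd {E : Type*} [NormedAddCommGroup E] [NormedSpace ℝ E] {g : E → ℝ} {x : E}
    (h : ContDiffAt ℝ ∞ g x) : DifferentiableAt ℝ (fderiv ℝ g) x := by
  have h1 : ContDiffAt ℝ 1 (fderiv ℝ g) x := h.fderiv_right (by
    show ((1 : ℕ∞) : WithTop ℕ∞) + 1 ≤ _
    exact_mod_cast le_top)
  exact h1.differentiableAt (by simp)

private theorem p_jet_sc {f : (Fin 4 → ℂ) → ℝ} {z : Fin 4 → ℂ} {d : (Fin 4 → ℂ) → ℂ}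
    {l : (Fin 4 → ℂ) → ℝ} (a b : ℂ) (hf : Jet f (sc a b z) d l) :
    Jet (fun x => f (sc a b x)) z (fun v => d (sc a b v)) (fun v => l (sc a b v)) := by
  have hfs := hf.smooth
  have hLd : ∀ x, HasFDerivAt (fun x : Fin 4 → ℂ => sc a b x) (p_L a b) x :=
    fun x => (p_L a b).hasFDerivAt
  have hLc : Filter.Tendsto (fun x : Fin 4 → ℂ => sc a b x) (𝓝 z) (𝓝 (sc a b z)) :=
    (hLd z).continuousAt.tendsto
  have h1 : fderiv ℝ (fun x => f (sc a b x)) =ᶠ[𝓝 z]
      fun x => (fderiv ℝ f (sc a b x)).comp (p_L a b) := by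
    filter_upwards [hLc.eventually (p_ev hfs)] with x hx
    exact (hx.hasFDerivAt.comp x (hLd x)).fderiv
  have hfd : ∀ v, fderiv ℝ (fun x => f (sc a b x)) z v = fderiv ℝ f (sc a b z) (sc a b v) := by
    intro v
    rw [h1.self_of_nhds]
    rfl
  have h2 : HasFDerivAt (fun x => fderiv ℝ f (sc a b x))
      ((fderiv ℝ (fderiv ℝ f) (sc a b z)).comp (p_L a b)) z :=
    (p_fd hfs).hasFDerivAt.comp z (hLd z)
  have h3 := h2.clm_comp (hasFDerivAt_const (p_L a b) z)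
  have hD2 : ∀ v w, D2 (fun x => f (sc a b x)) z v w = D2 f (sc a b z) (sc a b v) (sc a b w) := by
    intro v w
    unfold D2
    rw [h1.fderiv_eq, h3.fderiv]
    simp only [ContinuousLinearMap.comp_zero, zero_add]
    rfl
  have hsc : ContDiffAt ℝ ∞ (fun x => f (sc a b x)) z := by
    have : ContDiffAt ℝ ∞ (fun x : Fin 4 → ℂ => sc a b x) z := (p_L a b).contDiff.contDiffAt
    exact ContDiffAt.comp z hfs this
  refine ⟨hsc, fun v => ?_, fun v => ?_⟩
  · rw [← hf.hd]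
    unfold dz
    rw [hfd, hfd, p_sc_I]
  · rw [← hf.hl]
    unfold lev
    rw [hD2, hD2, p_sc_I]

theorem lev_Ph {q : ℂ} (hq : 1 < ‖q‖) {B : ℝ} (hB : 0 ≤ B) (T : ℝ)
    {z : Fin 4 → ℂ} (hz : z ∈ UU) : ∃ S : Finset ℤ, 0 ∈ S ∧
      ∀ v, lev (Ph q B T) z v = ∑ k ∈ S, lev (Gp B T) (yp q k z) (yp q k v) := by
  obtain ⟨S, h0, hS⟩ := Ph_loc hq hB T hz
  refine ⟨S, h0, fun v => ?_⟩
  have h1 : ∀ k ∈ S, Jet (fun x => Gp B T (yp q k x)) z (fun v => dz (Gp B T) (yp q k z) (yp q k v))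
      (fun v => lev (Gp B T) (yp q k z) (yp q k v)) := by
    intro k _
    exact p_jet_sc (q ^ (-k)) 1 (Jet.of_contDiffAt (Gp_smooth hB T (yp_mem hq k hz)))
  exact ((Jet.sum S h1).congr hS).hl v

private theorem p_hh_abs {x : ℝ} (hx : x < -3) : |hh x| ≤ -x := by
  unfold hh
  rw [abs_mul, abs_of_neg (by linarith : x + 3 < 0),
    abs_of_nonneg (Real.smoothTransition.nonneg _)]
  have h1 := Real.smoothTransition.le_one (-3 - x)
  have h2 : -(x + 3) * Real.smoothTransition (-3 - x) ≤ -(x + 3) * 1 :=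
    mul_le_mul_of_nonneg_left h1 (by linarith)
  linarith

theorem Ph_bound {q : ℂ} (hq : 1 < ‖q‖) : ∃ C : ℝ, 0 < C ∧ ∀ T : ℝ, 1 ≤ T →
    ∀ z : Fin 4 → ℂ, z ∈ UU → |Ph q (2 * T) T z| ≤ C * T ^ 3 := by
  classical
  obtain ⟨C, hC0, hC⟩ := sum_neg_le hq
  set δ : ℝ := (‖q‖ - 1) / (‖q‖ + 1) with hδ
  have hδ0 : 0 < δ := div_pos (by linarith) (by linarith)
  set D : ℝ := 2 * |Real.log δ| with hD
  have hD0 : 0 ≤ D := by positivity
  refine ⟨11 + C * (1 + D), by positivity, fun T hT z hz => ?_⟩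
  obtain ⟨S, -, hS⟩ := Ph_loc hq (by linarith : (0 : ℝ) ≤ 2 * T) T hz
  have h1 : Ph q (2 * T) T z = ∑ k ∈ S, Gp (2 * T) T (yp q k z) := hS.self_of_nhds
  set S' := S.filter fun k => ap (2 * T) T (yp q k z) < -3 with hS'
  have h2 : ∑ k ∈ S, Gp (2 * T) T (yp q k z) = ∑ k ∈ S', Gp (2 * T) T (yp q k z) := by
    rw [hS', Finset.sum_filter]
    refine Finset.sum_congr rfl fun k _ => ?_
    split_ifs with h
    · rfl
    · exact (Gp_far (by linarith : (0 : ℝ) ≤ 2 * T) T (yp_mem hq k hz) (not_lt.1 h) 0).1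
  have hmem : ∀ k ∈ S', ap (2 * T) T (yp q k z) < -3 := fun k hk => (Finset.mem_filter.1 hk).2
  have hcard : (S'.card : ℝ) ≤ C * T := by
    have h3 := hC T hT z hz S' hmem
    have h4 : (S'.card : ℝ) = ∑ k ∈ S', (1 : ℝ) := by simp
    rw [h4]
    refine le_trans (Finset.sum_le_sum fun k _ => ?_) h3
    have hE : 0 < Ep (2 * T) T (yp q k z) := Real.exp_pos _
    have hF : 0 < Fp (2 * T) T (yp q k z) := by
      unfold Fp
      positivity
    have ht : 0 ≤ taup (2 * T) T (yp q k z) := div_nonneg hE.le hF.le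
    unfold negp
    have h5 : 0 ≤ 2 * T * taup (2 * T) T (yp q k z) := by positivity
    have h6 : 0 ≤ 2 * T * Real.exp (-(2 * T * (T - ss (yp q k z)) ^ 2)) := by positivity
    linarith
  have hterm : ∀ k ∈ S', |Gp (2 * T) T (yp q k z)| ≤
      (if ‖ww (yp q k z)‖ < δ then 10 * T ^ 3 + 1 else 0) + (T + D) := by
    intro k hk
    have ha := hmem k hk
    have hn := yp_mem hq k hz
    have h3 := p_hh_abs ha
    have h4 : Gp (2 * T) T (yp q k z) = hh (ap (2 * T) T (yp q k z)) := rfl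
    rw [h4]
    split_ifs with hc
    · have h5 := ap_ge_gen hT hn ha
      linarith
    · have h5 := ap_ge_far hδ0 hn ha (not_lt.1 hc)
      linarith
  rw [h1, h2]
  refine le_trans (Finset.abs_sum_le_sum_abs _ _) (le_trans (Finset.sum_le_sum hterm) ?_)
  rw [Finset.sum_add_distrib, Finset.sum_const, nsmul_eq_mul]
  have hclose : ∑ k ∈ S', (if ‖ww (yp q k z)‖ < δ then 10 * T ^ 3 + 1 else 0) ≤
      10 * T ^ 3 + 1 := by
    rw [← Finset.sum_filter, Finset.sum_const, nsmul_eq_mul]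
    have h5 : ((S'.filter fun k => ‖ww (yp q k z)‖ < δ).card : ℝ) ≤ 1 := by
      have : (S'.filter fun k => ‖ww (yp q k z)‖ < δ).card ≤ 1 := by
        rw [Finset.card_le_one]
        intro j hj k hk
        have hj' := (Finset.mem_filter.1 hj).2
        have hk' := (Finset.mem_filter.1 hk).2
        rw [ww_yp] at hj' hk'
        exact close_unique hq (z 0 * z 2) hj' hk'
      exact_mod_cast this
    have h6 : 0 ≤ 10 * T ^ 3 + 1 := by positivity
    calc _ ≤ 1 * (10 * T ^ 3 + 1) := mul_le_mul_of_nonneg_right h5 h6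
      _ = _ := one_mul _
  have h7 : (S'.card : ℝ) * (T + D) ≤ C * T * (T + D) :=
    mul_le_mul_of_nonneg_right hcard (by linarith)
  have hT1 : 1 ≤ T ^ 3 := one_le_pow₀ hT
  have hT2 : T * (T + D) ≤ (1 + D) * T ^ 3 := by
    have e1 : T * T ≤ T ^ 3 := by
      nlinarith [mul_nonneg (by linarith : (0:ℝ) ≤ T) (by linarith : (0:ℝ) ≤ T)]
    have e2 : T ≤ T ^ 3 := by
      nlinarith [mul_nonneg (by linarith : (0:ℝ) ≤ T) (by linarith : (0:ℝ) ≤ T)]
    nlinarith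
  have h8 : C * T * (T + D) ≤ C * ((1 + D) * T ^ 3) := by
    have := mul_le_mul_of_nonneg_left hT2 hC0.le
    linarith
  nlinarith

end Pool.Agent.HMP
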