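import Pool.Agent.HMP.SDefs

/-!
HMP-Plu. The product metric `|dz'|²/|z'|² + |dz''|²/|z''|²` of the product of two Hopf surfaces is
smooth and pluriclosed: the second derivatives of `1/N1` and `1/N2` are computed explicitly
(`1/|x|²` is harmonic in `ℝ⁴`). `flat z` is the diagonal matrix `diag(1/N1, 1/N1, 1/N2, 1/N2)`.
-/

open scoped ContDiff ComplexOrder Matrix
open Finset

namespace Pool.Agent.HMP

open Pool.Agent.HMV

private theorem hess_inv {ι E : Type*} [Fintype ι] [NormedAddCommGroup E] [NormedSpace ℝ E]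
    (L : ι → E →L[ℝ] ℝ) (z u v : E) (hz : ∑ i, (L i z) ^ 2 ≠ 0) :
    fderiv ℝ (fderiv ℝ (fun x => ((1 / ∑ i, (L i x) ^ 2 : ℝ) : ℂ))) z u v =
      ((8 * (∑ i, L i z * L i u) * (∑ i, L i z * L i v) / (∑ i, (L i z) ^ 2) ^ 3 -
        2 * (∑ i, L i u * L i v) / (∑ i, (L i z) ^ 2) ^ 2 : ℝ) : ℂ) := by
  have hN : ∀ x : E, HasFDerivAt (fun x => ∑ i, (L i x) ^ 2) (∑ i, (2 * L i x) • L i) x := by
    intro x
    refine HasFDerivAt.fun_sum fun i _ => ?_
    have h := ((L i).hasFDerivAt (x := x)).pow 2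
    simpa using h
  have hf : ∀ x : E, ∑ i, (L i x) ^ 2 ≠ 0 →
      HasFDerivAt (fun x => ((1 / ∑ i, (L i x) ^ 2 : ℝ) : ℂ))
        (Complex.ofRealCLM.comp ((-((∑ i, (L i x) ^ 2) ^ 2)⁻¹) • (∑ i, (2 * L i x) • L i))) x := by
    intro x hx
    have h1 := (hasDerivAt_inv hx).comp_hasFDerivAt x (hN x)
    have h2 := (Complex.ofRealCLM.hasFDerivAt (x := ((∑ i, (L i x) ^ 2)⁻¹))).comp x h1
    simp only [one_div]
    exact h2
  have hopen : ∀ᶠ x in nhds z, ∑ i, (L i x) ^ 2 ≠ 0 :=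
    (hN z).continuousAt.eventually_ne hz
  have hcd : ContDiffAt ℝ 2 (fun x => ((1 / ∑ i, (L i x) ^ 2 : ℝ) : ℂ)) z := by
    refine Complex.ofRealCLM.contDiff.contDiffAt.comp z ?_
    refine ContDiffAt.div contDiffAt_const ?_ hz
    exact ContDiffAt.sum fun i _ => ((L i).contDiff.contDiffAt).pow 2
  have hd : DifferentiableAt ℝ (fderiv ℝ (fun x => ((1 / ∑ i, (L i x) ^ 2 : ℝ) : ℂ))) z :=
    (hcd.fderiv_right (m := 1) (by norm_num)).differentiableAt (by norm_num)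
  have h1 : fderiv ℝ (fderiv ℝ (fun x => ((1 / ∑ i, (L i x) ^ 2 : ℝ) : ℂ))) z u v =
      fderiv ℝ (fun y => fderiv ℝ (fun x => ((1 / ∑ i, (L i x) ^ 2 : ℝ) : ℂ)) y v) z u := by
    have h2 := (hd.hasFDerivAt.clm_apply (hasFDerivAt_const v z)).fderiv
    rw [h2]
    simp
  rw [h1]
  have h3 : (fun y => fderiv ℝ (fun x => ((1 / ∑ i, (L i x) ^ 2 : ℝ) : ℂ)) y v) =ᶠ[nhds z]
      fun y => ((-((∑ i, (L i y) ^ 2) ^ 2)⁻¹ * ∑ i, 2 * L i y * L i v : ℝ) : ℂ) := by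
    filter_upwards [hopen] with y hy
    rw [(hf y hy).fderiv]
    simp
  rw [h3.fderiv_eq]
  have hz2 : (∑ i, (L i z) ^ 2) ^ 2 ≠ 0 := pow_ne_zero _ hz
  have h4 : HasFDerivAt (fun y => (∑ i, (L i y) ^ 2) ^ 2)
      ((2 * (∑ i, (L i z) ^ 2)) • ∑ i, (2 * L i z) • L i) z := by
    have h := (hN z).pow 2
    simpa using h
  have h5 : HasFDerivAt (fun y => -((∑ i, (L i y) ^ 2) ^ 2)⁻¹)
      (-(-(((∑ i, (L i z) ^ 2) ^ 2) ^ 2)⁻¹ • (2 * ∑ i, (L i z) ^ 2) • ∑ i, (2 * L i z) • L i)) z :=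
    ((hasDerivAt_inv hz2).comp_hasFDerivAt z h4).neg
  have h6 : HasFDerivAt (fun y => ∑ i, 2 * L i y * L i v) (∑ i, (2 * L i v) • L i) z := by
    refine HasFDerivAt.fun_sum fun i _ => ?_
    have h := ((L i).hasFDerivAt (x := z)).const_mul (2 * L i v)
    refine h.congr_of_eventuallyEq (Filter.Eventually.of_forall fun y => ?_)
    ring
  have h7 := (Complex.ofRealCLM.hasFDerivAt (x := -((∑ i, (L i z) ^ 2) ^ 2)⁻¹ *
    ∑ i, 2 * L i z * L i v)).comp z (h5.mul h6)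
  have h8 := h7.fderiv
  have h9 : fderiv ℝ (fun y => ((-((∑ i, (L i y) ^ 2) ^ 2)⁻¹ * ∑ i, 2 * L i y * L i v : ℝ) : ℂ)) z
      = _ := h8
  rw [h9]
  rw [ContinuousLinearMap.comp_apply, Complex.ofRealCLM_apply]
  congr 1
  simp only [add_apply, smul_apply, neg_apply, smul_eq_mul, _root_.sum_apply]
  have e1 : ∑ i, 2 * L i v * L i u = 2 * ∑ i, L i u * L i v := by
    rw [mul_sum]
    exact sum_congr rfl fun i _ => by ring
  have e2 : ∑ i, 2 * L i z * L i v = 2 * ∑ i, L i z * L i v := by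
    rw [mul_sum]
    exact sum_congr rfl fun i _ => by ring
  have e3 : ∑ i, 2 * L i z * L i u = 2 * ∑ i, L i z * L i u := by
    rw [mul_sum]
    exact sum_congr rfl fun i _ => by ring
  rw [e1, e2, e3]
  field_simp
  ring

private noncomputable def LL (a b : Fin 4) : Fin 4 → ((Fin 4 → ℂ) →L[ℝ] ℝ) :=
  ![Complex.reCLM.comp ((ContinuousLinearMap.proj a : (Fin 4 → ℂ) →L[ℂ] ℂ).restrictScalars ℝ),
    Complex.imCLM.comp ((ContinuousLinearMap.proj a : (Fin 4 → ℂ) →L[ℂ] ℂ).restrictScalars ℝ),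
    Complex.reCLM.comp ((ContinuousLinearMap.proj b : (Fin 4 → ℂ) →L[ℂ] ℂ).restrictScalars ℝ),
    Complex.imCLM.comp ((ContinuousLinearMap.proj b : (Fin 4 → ℂ) →L[ℂ] ℂ).restrictScalars ℝ)]

private theorem LL_sum (a b : Fin 4) (u v : Fin 4 → ℂ) :
    ∑ i, LL a b i u * LL a b i v =
      (u a).re * (v a).re + (u a).im * (v a).im + (u b).re * (v b).re + (u b).im * (v b).im := by
  simp [LL, Fin.sum_univ_four]

private theorem LL_sq (a b : Fin 4) (u : Fin 4 → ℂ) :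
    ∑ i, (LL a b i u) ^ 2 = ‖u a‖ ^ 2 + ‖u b‖ ^ 2 := by
  rw [Complex.sq_norm, Complex.sq_norm, Complex.normSq_apply, Complex.normSq_apply]
  simp [LL, Fin.sum_univ_four]
  ring

/-- the second derivatives of `1 / (|z_a|² + |z_b|²)` -/
private theorem hess_ab (a b : Fin 4) (z u v : Fin 4 → ℂ) (hz : ‖z a‖ ^ 2 + ‖z b‖ ^ 2 ≠ 0) :
    fderiv ℝ (fderiv ℝ (fun x : Fin 4 → ℂ => ((1 / (‖x a‖ ^ 2 + ‖x b‖ ^ 2) : ℝ) : ℂ))) z u v =
      ((8 * ((z a).re * (u a).re + (z a).im * (u a).im + (z b).re * (u b).re + (z b).im * (u b).im) *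
          ((z a).re * (v a).re + (z a).im * (v a).im + (z b).re * (v b).re + (z b).im * (v b).im) /
          (‖z a‖ ^ 2 + ‖z b‖ ^ 2) ^ 3 -
        2 * ((u a).re * (v a).re + (u a).im * (v a).im + (u b).re * (v b).re +
          (u b).im * (v b).im) / (‖z a‖ ^ 2 + ‖z b‖ ^ 2) ^ 2 : ℝ) : ℂ) := by
  have h := hess_inv (LL a b) z u v (by rw [LL_sq]; exact hz)
  simp only [LL_sum] at h
  simp only [LL_sq] at h
  exact h

private theorem mixed_zero (z : Fin 4 → ℂ) (l m : Fin 4) :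
    mixed (fun _ => (0 : ℂ)) z l m = 0 := by
  unfold mixed D2C
  simp

private theorem mixed_ab_left (a b : Fin 4) (z : Fin 4 → ℂ) (hz : ‖z a‖ ^ 2 + ‖z b‖ ^ 2 ≠ 0)
    (l m : Fin 4) (h : (l ≠ a ∧ l ≠ b) ∨ (m ≠ a ∧ m ≠ b)) :
    mixed (fun x : Fin 4 → ℂ => ((1 / (‖x a‖ ^ 2 + ‖x b‖ ^ 2) : ℝ) : ℂ)) z l m = 0 := by
  unfold mixed D2C
  rw [hess_ab a b z _ _ hz, hess_ab a b z _ _ hz, hess_ab a b z _ _ hz, hess_ab a b z _ _ hz]
  rcases h with ⟨h1, h2⟩ | ⟨h1, h2⟩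
  · simp [Pi.single_eq_of_ne h1.symm, Pi.single_eq_of_ne h2.symm]
  · simp [Pi.single_eq_of_ne h1.symm, Pi.single_eq_of_ne h2.symm]

private theorem mixed_ab_sum (a b : Fin 4) (hab : a ≠ b) (z : Fin 4 → ℂ)
    (hz : ‖z a‖ ^ 2 + ‖z b‖ ^ 2 ≠ 0) :
    mixed (fun x : Fin 4 → ℂ => ((1 / (‖x a‖ ^ 2 + ‖x b‖ ^ 2) : ℝ) : ℂ)) z a a +
      mixed (fun x : Fin 4 → ℂ => ((1 / (‖x a‖ ^ 2 + ‖x b‖ ^ 2) : ℝ) : ℂ)) z b b = 0 := by
  unfold mixed D2C
  simp only [hess_ab a b z _ _ hz]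
  simp only [Pi.single_eq_same, Pi.single_eq_of_ne hab, Pi.single_eq_of_ne hab.symm,
    Complex.one_re, Complex.one_im, Complex.I_re, Complex.I_im, Complex.zero_re, Complex.zero_im,
    mul_zero, mul_one, add_zero, zero_add]
  have hN : ‖z a‖ ^ 2 + ‖z b‖ ^ 2 = (z a).re ^ 2 + (z a).im ^ 2 + (z b).re ^ 2 + (z b).im ^ 2 := by
    rw [Complex.sq_norm, Complex.sq_norm, Complex.normSq_apply, Complex.normSq_apply]
    ring
  have hN' : (z a).re ^ 2 + (z a).im ^ 2 + (z b).re ^ 2 + (z b).im ^ 2 ≠ 0 := by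
    rw [← hN]
    exact hz
  rw [hN]
  have key : ((8 * (z a).re * (z a).re / ((z a).re ^ 2 + (z a).im ^ 2 + (z b).re ^ 2 + (z b).im ^ 2) ^ 3
      - 2 / ((z a).re ^ 2 + (z a).im ^ 2 + (z b).re ^ 2 + (z b).im ^ 2) ^ 2) +
      (8 * (z a).im * (z a).im / ((z a).re ^ 2 + (z a).im ^ 2 + (z b).re ^ 2 + (z b).im ^ 2) ^ 3
      - 2 / ((z a).re ^ 2 + (z a).im ^ 2 + (z b).re ^ 2 + (z b).im ^ 2) ^ 2)) +
      ((8 * (z b).re * (z b).re / ((z a).re ^ 2 + (z a).im ^ 2 + (z b).re ^ 2 + (z b).im ^ 2) ^ 3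
      - 2 / ((z a).re ^ 2 + (z a).im ^ 2 + (z b).re ^ 2 + (z b).im ^ 2) ^ 2) +
      (8 * (z b).im * (z b).im / ((z a).re ^ 2 + (z a).im ^ 2 + (z b).re ^ 2 + (z b).im ^ 2) ^ 3
      - 2 / ((z a).re ^ 2 + (z a).im ^ 2 + (z b).re ^ 2 + (z b).im ^ 2) ^ 2)) = 0 := by
    field_simp
    ring
  have key' := congrArg Complex.ofReal key
  push_cast at key' ⊢
  linear_combination (1 / 4 : ℂ) * key'

/-- the standard product metric -/
noncomputable def flat (z : Fin 4 → ℂ) : Matrix (Fin 4) (Fin 4) ℂ :=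
  Matrix.diagonal ![((1 / N1 z : ℝ) : ℂ), ((1 / N1 z : ℝ) : ℂ), ((1 / N2 z : ℝ) : ℂ),
    ((1 / N2 z : ℝ) : ℂ)]

private theorem N1_pos {z : Fin 4 → ℂ} (hz : z ∈ UU) : 0 < N1 z :=
  lt_of_le_of_ne (by unfold N1; positivity) hz.1.symm

private theorem N2_pos {z : Fin 4 → ℂ} (hz : z ∈ UU) : 0 < N2 z :=
  lt_of_le_of_ne (by unfold N2; positivity) hz.2.symm

private theorem smooth_inv (a b : Fin 4) (z : Fin 4 → ℂ) (hz : ‖z a‖ ^ 2 + ‖z b‖ ^ 2 ≠ 0) :
    ContDiffAt ℝ ∞ (fun x : Fin 4 → ℂ => ((1 / (‖x a‖ ^ 2 + ‖x b‖ ^ 2) : ℝ) : ℂ)) z := by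
  have h : (fun x : Fin 4 → ℂ => ((1 / (‖x a‖ ^ 2 + ‖x b‖ ^ 2) : ℝ) : ℂ)) =
      fun x => ((1 / ∑ i, (LL a b i x) ^ 2 : ℝ) : ℂ) := by
    funext x
    rw [LL_sq]
  rw [h]
  refine Complex.ofRealCLM.contDiff.contDiffAt.comp z ?_
  refine ContDiffAt.div contDiffAt_const ?_ (by rw [LL_sq]; exact hz)
  exact ContDiffAt.sum fun i _ => ((LL a b i).contDiff.contDiffAt).pow 2

private theorem flat_apply (z : Fin 4 → ℂ) (j k : Fin 4) :
    flat z j k = if j = k then (if j = 0 ∨ j = 1 then ((1 / N1 z : ℝ) : ℂ) else ((1 / N2 z : ℝ) : ℂ))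
      else 0 := by
  unfold flat
  rw [Matrix.diagonal_apply]
  fin_cases j <;> fin_cases k <;> simp

theorem flat_smooth : IsSmoothField flat := by
  intro j k z hz
  refine ContDiffAt.contDiffWithinAt ?_
  by_cases hjk : j = k
  · by_cases hj : j = 0 ∨ j = 1
    · have h : (fun z => flat z j k) =
          fun x : Fin 4 → ℂ => ((1 / (‖x 0‖ ^ 2 + ‖x 1‖ ^ 2) : ℝ) : ℂ) := by
        funext x
        rw [flat_apply, if_pos hjk, if_pos hj]
        rfl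
      rw [h]
      exact smooth_inv 0 1 z hz.1
    · have h : (fun z => flat z j k) =
          fun x : Fin 4 → ℂ => ((1 / (‖x 2‖ ^ 2 + ‖x 3‖ ^ 2) : ℝ) : ℂ) := by
        funext x
        rw [flat_apply, if_pos hjk, if_neg hj]
        rfl
      rw [h]
      exact smooth_inv 2 3 z hz.2
  · have h : (fun z => flat z j k) = fun _ => 0 := by
      funext x
      rw [flat_apply, if_neg hjk]
    rw [h]
    exact contDiffAt_const

theorem flat_isMetric {q : ℂ} (hq : 1 < ‖q‖) : IsMetric q flat := by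
  have hq0 : q ≠ 0 := by
    rintro rfl
    simp at hq
    linarith
  have hqn : ‖q‖ ^ 2 ≠ 0 := pow_ne_zero _ (norm_ne_zero_iff.mpr hq0)
  have hqq : (starRingEnd ℂ) q * q = ((‖q‖ ^ 2 : ℝ) : ℂ) := by
    rw [Complex.sq_norm, Complex.normSq_eq_conj_mul_self]
  refine ⟨?_, ?_, ?_, ?_⟩
  · intro z hz
    exact tendsto_pi_nhds.mpr fun j => tendsto_pi_nhds.mpr fun k =>
      (flat_smooth j k).continuousOn z hz
  · intro z hz
    have h1 := N1_pos hz
    have h2 := N2_pos hz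
    unfold flat
    rw [Matrix.posDef_diagonal_iff]
    intro i
    fin_cases i
    · simpa using h1
    · simpa using h1
    · simpa using h2
    · simpa using h2
  · intro z hz
    have e1 : N1 (sc q 1 z) = ‖q‖ ^ 2 * N1 z := by
      unfold N1 sc
      simp [mul_pow]
      ring
    have e2 : N2 (sc q 1 z) = N2 z := by
      unfold N2 sc
      simp
    have h1 := (N1_pos hz).ne'
    unfold scM flat
    rw [e1, e2, Matrix.diagonal_conjTranspose, Matrix.diagonal_mul_diagonal,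
      Matrix.diagonal_mul_diagonal]
    congr 1
    have key : (starRingEnd ℂ) q * ((1 / (‖q‖ ^ 2 * N1 z) : ℝ) : ℂ) * q = ((1 / N1 z : ℝ) : ℂ) := by
      calc (starRingEnd ℂ) q * ((1 / (‖q‖ ^ 2 * N1 z) : ℝ) : ℂ) * q
          = ((starRingEnd ℂ) q * q) * ((1 / (‖q‖ ^ 2 * N1 z) : ℝ) : ℂ) := by ring
        _ = ((‖q‖ ^ 2 * (1 / (‖q‖ ^ 2 * N1 z)) : ℝ) : ℂ) := by rw [hqq]; push_cast; ring
        _ = _ := by
          congr 1
          field_simp
    funext i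
    fin_cases i
    · exact key
    · exact key
    · simp
    · simp
  · intro z hz
    have e1 : N1 (sc 1 q z) = N1 z := by
      unfold N1 sc
      simp
    have e2 : N2 (sc 1 q z) = ‖q‖ ^ 2 * N2 z := by
      unfold N2 sc
      simp [mul_pow]
      ring
    have h1 := (N2_pos hz).ne'
    unfold scM flat
    rw [e1, e2, Matrix.diagonal_conjTranspose, Matrix.diagonal_mul_diagonal,
      Matrix.diagonal_mul_diagonal]
    congr 1
    have key : (starRingEnd ℂ) q * ((1 / (‖q‖ ^ 2 * N2 z) : ℝ) : ℂ) * q = ((1 / N2 z : ℝ) : ℂ) := by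
      calc (starRingEnd ℂ) q * ((1 / (‖q‖ ^ 2 * N2 z) : ℝ) : ℂ) * q
          = ((starRingEnd ℂ) q * q) * ((1 / (‖q‖ ^ 2 * N2 z) : ℝ) : ℂ) := by ring
        _ = ((‖q‖ ^ 2 * (1 / (‖q‖ ^ 2 * N2 z)) : ℝ) : ℂ) := by rw [hqq]; push_cast; ring
        _ = _ := by
          congr 1
          field_simp
    funext i
    fin_cases i
    · simp
    · simp
    · exact key
    · exact key

theorem flat_plu : IsPluriclosed flat := by
  intro z hz
  have hoff : ∀ j k l m : Fin 4, j ≠ k → mixed (fun x => flat x j k) z l m = 0 := by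
    intro j k l m hjk
    have h : (fun z => flat z j k) = fun _ => 0 := by
      funext x
      rw [flat_apply, if_neg hjk]
    rw [h]
    exact mixed_zero z l m
  have hA : ∀ j l m : Fin 4, (j = 0 ∨ j = 1) → mixed (fun x => flat x j j) z l m =
      mixed (fun x : Fin 4 → ℂ => ((1 / (‖x 0‖ ^ 2 + ‖x 1‖ ^ 2) : ℝ) : ℂ)) z l m := by
    intro j l m hj
    have h : (fun z => flat z j j) =
        fun x : Fin 4 → ℂ => ((1 / (‖x 0‖ ^ 2 + ‖x 1‖ ^ 2) : ℝ) : ℂ) := by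
      funext x
      rw [flat_apply, if_pos rfl, if_pos hj]
      rfl
    rw [h]
  have hB : ∀ j l m : Fin 4, ¬ (j = 0 ∨ j = 1) → mixed (fun x => flat x j j) z l m =
      mixed (fun x : Fin 4 → ℂ => ((1 / (‖x 2‖ ^ 2 + ‖x 3‖ ^ 2) : ℝ) : ℂ)) z l m := by
    intro j l m hj
    have h : (fun z => flat z j j) =
        fun x : Fin 4 → ℂ => ((1 / (‖x 2‖ ^ 2 + ‖x 3‖ ^ 2) : ℝ) : ℂ) := by
      funext x
      rw [flat_apply, if_pos rfl, if_neg hj]
      rfl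
    rw [h]
  have hA0 := mixed_ab_left 0 1 z hz.1
  have hB0 := mixed_ab_left 2 3 z hz.2
  have hA1 := mixed_ab_sum 0 1 (by decide) z hz.1
  have hB1 := mixed_ab_sum 2 3 (by decide) z hz.2
  generalize hR : (fun l m : Fin 4 =>
    mixed (fun x : Fin 4 → ℂ => ((1 / (‖x 0‖ ^ 2 + ‖x 1‖ ^ 2) : ℝ) : ℂ)) z l m) = R at *
  generalize hS : (fun l m : Fin 4 =>
    mixed (fun x : Fin 4 → ℂ => ((1 / (‖x 2‖ ^ 2 + ‖x 3‖ ^ 2) : ℝ) : ℂ)) z l m) = S at *
  have hR' : ∀ l m, mixed (fun x : Fin 4 → ℂ => ((1 / (‖x 0‖ ^ 2 + ‖x 1‖ ^ 2) : ℝ) : ℂ)) z l m =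
      R l m := fun l m => by rw [← hR]
  have hS' : ∀ l m, mixed (fun x : Fin 4 → ℂ => ((1 / (‖x 2‖ ^ 2 + ‖x 3‖ ^ 2) : ℝ) : ℂ)) z l m =
      S l m := fun l m => by rw [← hS]
  simp only [hR'] at hA hA0 hA1
  simp only [hS'] at hB hB0 hB1
  have hM : ∀ j k l m : Fin 4, mixed (fun x => flat x j k) z l m =
      if j = k then (if j = 0 ∨ j = 1 then R l m else S l m) else 0 := by
    intro j k l m
    by_cases hjk : j = k
    · subst hjk
      rw [if_pos rfl]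
      by_cases hj : j = 0 ∨ j = 1
      · rw [if_pos hj]
        exact hA j l m hj
      · rw [if_neg hj]
        exact hB j l m hj
    · rw [if_neg hjk]
      exact hoff j k l m hjk
  have r02 := hA0 0 2 (by decide)
  have r03 := hA0 0 3 (by decide)
  have r12 := hA0 1 2 (by decide)
  have r13 := hA0 1 3 (by decide)
  have r20 := hA0 2 0 (by decide)
  have r21 := hA0 2 1 (by decide)
  have r22 := hA0 2 2 (by decide)
  have r23 := hA0 2 3 (by decide)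
  have r30 := hA0 3 0 (by decide)
  have r31 := hA0 3 1 (by decide)
  have r32 := hA0 3 2 (by decide)
  have r33 := hA0 3 3 (by decide)
  have s00 := hB0 0 0 (by decide)
  have s01 := hB0 0 1 (by decide)
  have s02 := hB0 0 2 (by decide)
  have s03 := hB0 0 3 (by decide)
  have s10 := hB0 1 0 (by decide)
  have s11 := hB0 1 1 (by decide)
  have s12 := hB0 1 2 (by decide)
  have s13 := hB0 1 3 (by decide)
  have s20 := hB0 2 0 (by decide)
  have s21 := hB0 2 1 (by decide)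
  have s30 := hB0 3 0 (by decide)
  have s31 := hB0 3 1 (by decide)
  have t1 : R 1 1 = - R 0 0 := by linear_combination hA1
  have t2 : S 3 3 = - S 2 2 := by linear_combination hB1
  intro j k l m
  rw [hM, hM, hM, hM]
  clear hM hoff hA hB hA0 hB0 hA1 hB1 hR hS hR' hS'
  fin_cases j <;> fin_cases k <;> fin_cases l <;> fin_cases m <;>
    simp [r02, r03, r12, r13, r20, r21, r22, r23, r30, r31, r32, r33, s00, s01, s02, s03, s10, s11,
      s12, s13, s20, s21, s30, s31, t1, t2]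

end Pool.Agent.HMP
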