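import Pool.Agent.HMV.SDefs

/-!
Definitions for the statement: Monge-Ampere volumes on the product of two Hopf surfaces.

The universal covering of `X = H × H`, `H = (ℂ² ∖ 0)/⟨z ↦ q z⟩`, is
`U = {z ∈ ℂ⁴ | (z₀, z₁) ≠ 0, (z₂, z₃) ≠ 0}`; the deck transformations are generated by
`(z₀, z₁, z₂, z₃) ↦ (q z₀, q z₁, z₂, z₃)` and `(z₀, z₁, z₂, z₃) ↦ (z₀, z₁, q z₂, q z₃)`.
-/

open scoped ContDiff ComplexOrder Matrix
open Finset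

namespace Pool.Agent.HMP

open Pool.Agent.HMV

/-- `|z₀|² + |z₁|²` -/
noncomputable def N1 (z : Fin 4 → ℂ) : ℝ := ‖z 0‖ ^ 2 + ‖z 1‖ ^ 2

/-- `|z₂|² + |z₃|²` -/
noncomputable def N2 (z : Fin 4 → ℂ) : ℝ := ‖z 2‖ ^ 2 + ‖z 3‖ ^ 2

/-- `(ℂ² ∖ 0) × (ℂ² ∖ 0)` -/
def UU : Set (Fin 4 → ℂ) := {z | N1 z ≠ 0 ∧ N2 z ≠ 0}

/-- `(z₀, z₁, z₂, z₃) ↦ (a z₀, a z₁, b z₂, b z₃)` -/
def sc (a b : ℂ) (z : Fin 4 → ℂ) : Fin 4 → ℂ := ![a * z 0, a * z 1, b * z 2, b * z 3]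

/-- the matrix of `sc a b` -/
def scM (a b : ℂ) : Matrix (Fin 4) (Fin 4) ℂ := Matrix.diagonal ![a, a, b, b]

/-- `A` is a (continuous) Hermitian metric of `X = H × H` -/
structure IsMetric (q : ℂ) (A : (Fin 4 → ℂ) → Matrix (Fin 4) (Fin 4) ℂ) : Prop where
  cont : ContinuousOn A UU
  pos : ∀ z ∈ UU, (A z).PosDef
  inv1 : ∀ z ∈ UU, (scM q 1)ᴴ * A (sc q 1 z) * scM q 1 = A z
  inv2 : ∀ z ∈ UU, (scM 1 q)ᴴ * A (sc 1 q z) * scM 1 q = A z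

/-- `φ` is a smooth function on `X` such that `ω + dd^c φ` is again a Hermitian metric, where `ω`
is given by `A`. -/
structure IsPot (q : ℂ) (A : (Fin 4 → ℂ) → Matrix (Fin 4) (Fin 4) ℂ)
    (φ : (Fin 4 → ℂ) → ℝ) : Prop where
  smooth : ContDiffOn ℝ ∞ φ UU
  inv1 : ∀ z ∈ UU, φ (sc q 1 z) = φ z
  inv2 : ∀ z ∈ UU, φ (sc 1 q z) = φ z
  pos : ∀ z ∈ UU, (A z + leviMat φ z).PosDef

/-- a fundamental domain of the deck group -/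
def fundP (q : ℂ) : Set (Fin 4 → ℂ) :=
  {z | (1 ≤ N1 z ∧ N1 z < ‖q‖ ^ 2) ∧ (1 ≤ N2 z ∧ N2 z < ‖q‖ ^ 2)}

/-- the volume `∫_X (ω + dd^c φ)^4`, up to a constant -/
noncomputable def pvol (q : ℂ) (A : (Fin 4 → ℂ) → Matrix (Fin 4) (Fin 4) ℂ)
    (φ : (Fin 4 → ℂ) → ℝ) : ℝ :=
  ∫ z in fundP q, (A z + leviMat φ z).det.re

/-- the second real derivative `D²f(z)(v, w)` of a complex valued function -/
noncomputable def D2C (f : (Fin 4 → ℂ) → ℂ) (z v w : Fin 4 → ℂ) : ℂ :=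
  fderiv ℝ (fderiv ℝ f) z v w

/-- `∂²f/∂z_l ∂z̄_m` for a complex valued function -/
noncomputable def mixed (f : (Fin 4 → ℂ) → ℂ) (z : Fin 4 → ℂ) (l m : Fin 4) : ℂ :=
  ((D2C f z (Pi.single l 1) (Pi.single m 1) +
      D2C f z (Pi.single l Complex.I) (Pi.single m Complex.I)) +
    Complex.I * (D2C f z (Pi.single l 1) (Pi.single m Complex.I) -
      D2C f z (Pi.single l Complex.I) (Pi.single m 1))) / 4

/-- the coefficients of `A` are smooth -/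
def IsSmoothField (A : (Fin 4 → ℂ) → Matrix (Fin 4) (Fin 4) ℂ) : Prop :=
  ∀ j k : Fin 4, ContDiffOn ℝ ∞ (fun z => A z j k) UU

/-- the metric `ω = i ∑ A_{jk} dz_k ∧ dz̄_j` is pluriclosed: `dd^c ω = 0` -/
def IsPluriclosed (A : (Fin 4 → ℂ) → Matrix (Fin 4) (Fin 4) ℂ) : Prop :=
  ∀ z ∈ UU, ∀ j k l m : Fin 4,
    mixed (fun x => A x j k) z l m - mixed (fun x => A x j l) z k m -
      mixed (fun x => A x m k) z l j + mixed (fun x => A x m l) z k j = 0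

end Pool.Agent.HMP
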