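import Pool.Agent.HMP.LevP

/-!
HMP-Supp. Consequences of `a(z) < -3`: `s` is between `log (2/3)` and `T`; lower bounds of `a`, in general and
far from the divisor `w = 0`.
-/

open Finset

namespace Pool.Agent.HMP

open Pool.Agent.HMV

private theorem supp_exp : 20 * Real.exp (-3) ≤ 1 := by
  have h1 : (2.7182818283 : ℝ) < Real.exp 1 := Real.exp_one_gt_d9
  have h2 : Real.exp 3 = Real.exp 1 ^ 3 := by
    rw [← Real.exp_nat_mul]
    norm_num
  have h3 : (20 : ℝ) ≤ Real.exp 3 := by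
    rw [h2]
    have : (2.7182818283 : ℝ) ^ 3 ≤ Real.exp 1 ^ 3 := pow_le_pow_left₀ (by norm_num) h1.le 3
    refine le_trans ?_ this
    norm_num
  rw [Real.exp_neg]
  rw [← div_eq_mul_inv, div_le_one (Real.exp_pos 3)]
  exact h3

private theorem exp_ss {z : Fin 4 → ℂ} (hz : z ∈ UU) : Real.exp (ss z) = N1 z * N2 z := by
  unfold ss
  rw [Real.exp_add, Real.exp_log (N1_pos hz), Real.exp_log (N2_pos hz)]

private theorem F_lt {B T : ℝ} {z : Fin 4 → ℂ} (hz : z ∈ UU) (ha : ap B T z < -3) :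
    Fp B T z < N1 z * N2 z / 20 := by
  have hN : 0 < N1 z * N2 z := mul_pos (N1_pos hz) (N2_pos hz)
  have h1 : Real.log (Fp B T z) < ss z + -3 := by
    unfold ap at ha
    linarith
  have h2 : Fp B T z < Real.exp (ss z + -3) := (Real.log_lt_iff_lt_exp (Fp_pos B T z)).1 h1
  rw [Real.exp_add, exp_ss hz] at h2
  have h3 := supp_exp
  nlinarith

theorem ap_supp {B T : ℝ} {z : Fin 4 → ℂ} (hz : z ∈ UU) (ha : ap B T z < -3) :
    Real.log (2 / 3) ≤ ss z ∧ ss z < T := by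
  have hN1 := N1_pos hz
  have hN2 := N2_pos hz
  have hN : 0 < N1 z * N2 z := mul_pos hN1 hN2
  have hE : 0 < Ep B T z := Ep_pos B T z
  have h1 := F_lt hz ha
  have hFd : Fp B T z = ‖ww z‖ ^ 2 + Ep B T z := rfl
  set w := ‖ww z‖ with hw
  have hw0 : 0 ≤ w := norm_nonneg _
  have hw2 : w ^ 2 ≤ N1 z * N2 z / 20 := by rw [hFd] at h1; linarith
  have hE2 : Ep B T z < N1 z * N2 z / 20 := by
    rw [hFd] at h1
    nlinarith [sq_nonneg w]
  constructor
  · set r := √(N1 z * N2 z) with hr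
    have hr2 : r ^ 2 = N1 z * N2 z := Real.sq_sqrt hN.le
    have hr0 : 0 ≤ r := Real.sqrt_nonneg _
    have hz0 : ‖z 0 * z 2‖ ≤ r := by
      apply Real.le_sqrt_of_sq_le
      rw [norm_mul, mul_pow]
      have h2 : ‖z 0‖ ^ 2 ≤ N1 z := by
        unfold N1
        nlinarith [sq_nonneg ‖z 1‖]
      have h3 : ‖z 2‖ ^ 2 ≤ N2 z := by
        unfold N2
        nlinarith [sq_nonneg ‖z 3‖]
      exact mul_le_mul h2 h3 (sq_nonneg _) hN1.le
    have hwr : w ≤ 2237 / 10000 * r := by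
      rw [← hr2] at hw2
      apply le_of_sq_le_sq _ (by positivity)
      nlinarith
    have ht1 : 1 ≤ ‖z 0 * z 2‖ + w := by
      have h4 : (1 : ℂ) = z 0 * z 2 - ww z := by unfold ww; ring
      have h5 : ‖(1 : ℂ)‖ ≤ ‖z 0 * z 2‖ + ‖ww z‖ := by
        conv_lhs => rw [h4]
        exact norm_sub_le _ _
      simpa using h5
    have hr1 : 1 ≤ 12237 / 10000 * r := by linarith
    have hA : 2 / 3 ≤ N1 z * N2 z := by
      rw [← hr2]
      nlinarith
    unfold ss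
    rw [← Real.log_mul hN1.ne' hN2.ne']
    exact Real.log_le_log (by norm_num) hA
  · apply lt_of_bb_neg (B := B)
    have h9 : Ep B T z = Real.exp (bb B T (ss z)) * (N1 z * N2 z) := by
      unfold Ep cp
      rw [Real.exp_add, exp_ss hz]
    have h10 : Real.exp (bb B T (ss z)) < 1 := by
      rw [h9] at hE2
      by_contra h13
      rw [not_lt] at h13
      nlinarith
    exact Real.exp_lt_one_iff.1 h10

private theorem ap_ge_bb (B T : ℝ) (z : Fin 4 → ℂ) : bb B T (ss z) ≤ ap B T z := by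
  have h1 : Ep B T z ≤ Fp B T z := by
    unfold Fp
    have := sq_nonneg ‖ww z‖
    linarith
  have h2 : Real.log (Ep B T z) ≤ Real.log (Fp B T z) := Real.log_le_log (Ep_pos B T z) h1
  have h3 : Real.log (Ep B T z) = bb B T (ss z) + ss z := by
    unfold Ep cp
    rw [Real.log_exp]
  unfold ap
  linarith

private theorem bet_le {u : ℝ} (hu : 0 ≤ u) : bet u ≤ 2 * u ^ 2 + 1 := by
  unfold bet
  have h : √(1 + u ^ 2) ≤ 1 + u := by
    rw [Real.sqrt_le_left (by linarith)]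
    nlinarith
  nlinarith [mul_le_mul_of_nonneg_left h hu, sq_nonneg (u - 1)]

theorem ap_ge_gen {T : ℝ} (hT : 1 ≤ T) {z : Fin 4 → ℂ} (hz : z ∈ UU)
    (ha : ap (2 * T) T z < -3) : -(10 * T ^ 3 + 1) ≤ ap (2 * T) T z := by
  obtain ⟨h1, h2⟩ := ap_supp hz ha
  have h3 : (-1 / 2 : ℝ) ≤ Real.log (2 / 3) := by
    rw [Real.le_log_iff_exp_le (by norm_num)]
    have h4 : (1 / 2 : ℝ) + 1 ≤ Real.exp (1 / 2) := Real.add_one_le_exp _
    have h5 : Real.exp (-1 / 2) = (Real.exp (1 / 2))⁻¹ := by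
      rw [← Real.exp_neg]
      norm_num
    rw [h5, inv_le_comm₀ (Real.exp_pos _) (by norm_num)]
    linarith
  have h6 := ap_ge_bb (2 * T) T z
  have hu : 0 ≤ √(2 * T) * (T - ss z) := mul_nonneg (Real.sqrt_nonneg _) (by linarith)
  have h7 := bet_le hu
  have h8 : (√(2 * T) * (T - ss z)) ^ 2 = 2 * T * (T - ss z) ^ 2 := by
    rw [mul_pow, Real.sq_sqrt (by linarith)]
  rw [h8] at h7
  have h9 : (T - ss z) ^ 2 ≤ (3 / 2 * T) ^ 2 :=
    pow_le_pow_left₀ (by linarith) (by linarith) 2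
  have h10 : 2 * T * (T - ss z) ^ 2 ≤ 2 * T * (3 / 2 * T) ^ 2 :=
    mul_le_mul_of_nonneg_left h9 (by linarith)
  have h11 : 0 < T ^ 3 := by positivity
  unfold bb at h6
  nlinarith

theorem ap_ge_far {B T δ : ℝ} (hδ : 0 < δ) {z : Fin 4 → ℂ} (hz : z ∈ UU)
    (ha : ap B T z < -3) (hd : δ ≤ ‖ww z‖) : -(T + 2 * |Real.log δ|) ≤ ap B T z := by
  obtain ⟨-, h2⟩ := ap_supp hz ha
  have h3 : δ ^ 2 ≤ Fp B T z := by
    unfold Fp
    have h4 : δ ^ 2 ≤ ‖ww z‖ ^ 2 := pow_le_pow_left₀ hδ.le hd 2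
    have h5 := Ep_pos B T z
    linarith
  have h4 : Real.log (δ ^ 2) ≤ Real.log (Fp B T z) := Real.log_le_log (by positivity) h3
  rw [Real.log_pow] at h4
  push_cast at h4
  have h5 : -|Real.log δ| ≤ Real.log δ := neg_abs_le _
  unfold ap
  linarith

end Pool.Agent.HMP
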