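import Pool.Agent.HMP.LevP
import Pool.Agent.HMP.Fub

/-!
HMP-Tube. Estimates in the tube (`B = 2T`). `z ∈ ℂ⁴`, `y = (z₁, z₂, z₃)` in `dom a d` with
`0 < a ≤ 1/8`, `d = a/4`. `s0 y = log(1/|y₁|² + |y₀|²) + log(|y₁|² + |y₂|²)` is the value of `s` at
`z₀ = 1/z₂`; `E0 y = exp(bb (2T) T (s0 y) + s0 y - 1)`.

PLAN. In the domain `|y₁|² ∈ [1-d, 1+d]`, `d ≤ 1/32`, so `1/|y₁|² + |y₀|²`, `|y₁|² + |y₂|²` lie in
`[1/2, 3/2]` and in fact `-1 ≤ s0 ≤ 1`. Put `w = ww z = z₀ z₂ - 1 = z₂ (z₀ - 1/z₂)`, so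
`‖w‖² = |y₁|² ‖z₀ - 1/y₁‖² ≤ E0` by `h`. `N1 z = ‖1+w‖²/|y₁|² + |y₀|²`, `N2 z = |y₁|² + |y₂|²`, so
`|ss z - s0 y| ≤ 2 |log ‖1+w‖| ≤ 4 ‖w‖` if `‖w‖ ≤ 1/2`.
`E0 ≤ exp(s0 - 2T (T - s0)²) ≤ exp(1 - 2T (T-1)²)` (`bb_le`), extremely small for `T ≥ 10`.
`bb1 (2T) T t = √(2T) bet1(√(2T)(T-t)) ≤ √(2T) (1 + 2√(2T)(T-t)) ≤ 10 T²` for `-1 ≤ t`, `T ≥ 10`
(`bet1 u ≤ 1 + 2u` for `u ≥ 0`); `bb` is increasing with derivative `bb1` (`bb_deriv`, mean value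
theorem), so `|cp z - (bb (s0) + s0)| ≤ (1 + 10T²) · 4‖w‖ ≤ 1`, since `‖w‖ ≤ √E0` and
`(44 T²)² exp(1 - 2T(T-1)²) ≤ 1` for `T ≥ 10`.
(a) hence `E0 ≤ Ep ≤ e² E0` (`Ep = exp cp`, `E0 = exp(c0 - 1)`), and `‖w‖² ≤ E0 ≤ Ep`;
(b) `ap z = log F - s ≤ log(2 Ep) - s = log 2 + b(s) ≤ 1 - 2T (T - s)² < -4`;
(c) `‖w‖ bb1 ≤ √E0 · 10 T² ≤ 1/2`;
(d) `τ = Ep/F ≥ 1/2`, `1 + b' ≥ b' ≥ 4T (T - s) ≥ 2T²` (`bb1_ge`; `s ≤ 2 ≤ T/2`),
`Ep/F² ≥ 1/(4 Ep) ≥ 1/(4 e² E0)`, so `Qp ≥ T² (LL1 + LL2) + ‖dw - w dcp‖²/(4 e² E0)`.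
(e) `tube_small`: `‖w‖² ≤ E0 ≤ exp(1 - 2T(T-1)²)`.
-/

open Finset

namespace Pool.Agent.HMP

open Pool.Agent.HMV

/-- the value of `s` at `z₀ = 1/z₂` -/
noncomputable def s0 (y : Fin 3 → ℂ) : ℝ :=
  Real.log (1 / ‖y 1‖ ^ 2 + ‖y 0‖ ^ 2) + Real.log (‖y 1‖ ^ 2 + ‖y 2‖ ^ 2)

/-- `e^{c₀ - 1}` -/
noncomputable def E0 (T : ℝ) (y : Fin 3 → ℂ) : ℝ :=
  Real.exp (bb (2 * T) T (s0 y) + s0 y - 1)

private theorem bet1_le {u : ℝ} (hu : 0 ≤ u) : bet1 u ≤ 1 + 2 * u := by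
  unfold bet1
  have h1 : 1 ≤ √(1 + u ^ 2) := Real.le_sqrt_of_sq_le (by nlinarith)
  have h2 : u ≤ √(1 + u ^ 2) := Real.le_sqrt_of_sq_le (by linarith)
  rw [div_le_iff₀ (by linarith)]
  nlinarith [mul_le_mul_of_nonneg_left h2 hu]

private theorem bb1_le {T t : ℝ} (hT : 10 ≤ T) (h1 : -2 ≤ t) (h2 : t ≤ 2) :
    bb1 (2 * T) T t ≤ 10 * T ^ 2 := by
  unfold bb1
  have h0 : 0 ≤ √(2 * T) := Real.sqrt_nonneg _
  have hs : √(2 * T) * √(2 * T) = 2 * T := Real.mul_self_sqrt (by linarith)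
  have hs1 : √(2 * T) ≤ 2 * T := by
    rw [Real.sqrt_le_left (by linarith)]
    nlinarith
  have hu : 0 ≤ √(2 * T) * (T - t) := mul_nonneg h0 (by linarith)
  have h3 := mul_le_mul_of_nonneg_left (bet1_le hu) h0
  have h4 : √(2 * T) * (1 + 2 * (√(2 * T) * (T - t))) = √(2 * T) + 2 * (2 * T) * (T - t) := by
    linear_combination 2 * (T - t) * hs
  have h5 : 2 * (2 * T) * (T - t) ≤ 2 * (2 * T) * (T + 2) :=
    mul_le_mul_of_nonneg_left (by linarith) (by linarith)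
  nlinarith

private theorem bb_diff {T s t : ℝ} (hT : 10 ≤ T) (h1 : -2 ≤ s) (h2 : s ≤ 2) (h3 : -2 ≤ t)
    (h4 : t ≤ 2) : |bb (2 * T) T t - bb (2 * T) T s| ≤ 10 * T ^ 2 * |t - s| := by
  have h := (convex_Icc (-2 : ℝ) 2).norm_image_sub_le_of_norm_deriv_le (f := bb (2 * T) T)
    (C := 10 * T ^ 2) (x := s) (y := t)
    (fun x _ => ((bb_smooth (2 * T) T).differentiable (by norm_num)).differentiableAt)
    (fun x hx => by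
      rw [bb_deriv, Real.norm_eq_abs, abs_of_pos (bb1_pos (by linarith) T x)]
      exact bb1_le hT hx.1 hx.2) ⟨h1, h2⟩ ⟨h3, h4⟩
  rw [Real.norm_eq_abs, Real.norm_eq_abs] at h
  exact h

private theorem w_facts (z : Fin 4 → ℂ) (hw : ‖ww z‖ ≤ 1) :
    (1 - ‖ww z‖) ^ 2 ≤ ‖z 0‖ ^ 2 * ‖z 2‖ ^ 2 ∧ ‖z 0‖ ^ 2 * ‖z 2‖ ^ 2 ≤ (1 + ‖ww z‖) ^ 2 := by
  have h0 : z 0 * z 2 = 1 + ww z := by unfold ww; ring
  have h1 : ‖z 0‖ * ‖z 2‖ = ‖1 + ww z‖ := by rw [← norm_mul, h0]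
  have h2 : ‖z 0‖ ^ 2 * ‖z 2‖ ^ 2 = ‖1 + ww z‖ ^ 2 := by rw [← h1]; ring
  have h3 : ‖1 + ww z‖ ≤ 1 + ‖ww z‖ := by
    refine (norm_add_le _ _).trans ?_
    rw [norm_one]
  have h4 : 1 - ‖ww z‖ ≤ ‖1 + ww z‖ := by
    have h6 : (1 : ℂ) = (1 + ww z) - ww z := by ring
    have h7 : ‖(1 : ℂ)‖ ≤ ‖1 + ww z‖ + ‖ww z‖ := by
      conv_lhs => rw [h6]
      exact norm_sub_le _ _
    rw [norm_one] at h7
    linarith
  rw [h2]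
  exact ⟨pow_le_pow_left₀ (by linarith) h4 2, pow_le_pow_left₀ (norm_nonneg _) h3 2⟩

private theorem exp_small {T : ℝ} (hT : 10 ≤ T) :
    Real.exp (1 - 2 * T * (T - 1) ^ 2) ≤ (1 / (44 * T ^ 2)) ^ 2 := by
  have hX : 100 ≤ T ^ 2 := by nlinarith
  obtain ⟨X, hXe⟩ : ∃ X, X = T ^ 2 := ⟨_, rfl⟩
  rw [← hXe] at hX ⊢
  have h1 : 1 - 2 * T * (T - 1) ^ 2 ≤ -X := by
    rw [hXe]
    have h2 : T ≤ (T - 1) ^ 2 := by nlinarith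
    have h3 : 2 * T * T ≤ 2 * T * (T - 1) ^ 2 := mul_le_mul_of_nonneg_left h2 (by linarith)
    nlinarith
  have h2 := Real.pow_div_factorial_le_exp X (by linarith) 6
  have h3 : Real.exp (1 - 2 * T * (T - 1) ^ 2) ≤ Real.exp (-X) := Real.exp_le_exp.2 h1
  refine h3.trans ?_
  rw [Real.exp_neg, div_pow, one_pow, ← one_div]
  apply one_div_le_one_div_of_le (by positivity)
  refine le_trans ?_ h2
  have h6 : ((Nat.factorial 6 : ℕ) : ℝ) = 720 := by norm_num [Nat.factorial]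
  rw [h6, le_div_iff₀ (by norm_num)]
  have h7 : (100 : ℝ) ^ 4 ≤ X ^ 4 := pow_le_pow_left₀ (by norm_num) hX 4
  have h8 : X ^ 6 = X ^ 4 * X ^ 2 := by ring
  rw [h8]
  have h9 : 0 ≤ X ^ 2 := by positivity
  nlinarith [mul_le_mul_of_nonneg_right h7 h9]

private theorem dom_facts {a : ℝ} (ha : 0 < a) (ha1 : a ≤ 1 / 8) {z : Fin 4 → ℂ}
    {y : Fin 3 → ℂ} (hy : y = fun i => z (Fin.succ i)) (hD : y ∈ dom a (a / 4)) :
    y 0 = z 1 ∧ y 1 = z 2 ∧ y 2 = z 3 ∧ a ≤ ‖z 1‖ ^ 2 ∧ ‖z 1‖ ^ 2 ≤ 2 * a ∧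
      1 - a / 4 ≤ ‖z 2‖ ^ 2 ∧ ‖z 2‖ ^ 2 ≤ 1 + a / 4 ∧ a ≤ ‖z 3‖ ^ 2 ∧ ‖z 3‖ ^ 2 ≤ 2 * a := by
  have e0 : y 0 = z 1 := by rw [hy]; rfl
  have e1 : y 1 = z 2 := by rw [hy]; rfl
  have e2 : y 2 = z 3 := by rw [hy]; rfl
  obtain ⟨⟨h1, h2⟩, ⟨h3, h4⟩, ⟨h5, h6⟩⟩ := hD
  rw [e0] at h1 h2
  rw [e1] at h3 h4
  rw [e2] at h5 h6
  exact ⟨e0, e1, e2, h1, h2, h3, h4, h5, h6⟩

private theorem s0_facts {P A C : ℝ} (hP1 : 31 / 32 ≤ P) (hP2 : P ≤ 33 / 32) (hA : 0 < A)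
    (hA2 : A ≤ 1 / 4) (hC : 0 < C) (hC2 : C ≤ 1 / 4) :
    -1 ≤ Real.log (1 / P + A) + Real.log (P + C) ∧
      Real.log (1 / P + A) + Real.log (P + C) ≤ 1 := by
  have hP : 0 < P := by linarith
  have h1 : 1 / P ≤ 32 / 31 := by
    rw [div_le_div_iff₀ hP (by norm_num)]; linarith
  have h2 : 32 / 33 ≤ 1 / P := by
    rw [div_le_div_iff₀ (by norm_num) hP]; linarith
  have hx : 0 < 1 / P + A := by positivity
  have hy : 0 < P + C := by positivity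
  have h3 := Real.log_le_sub_one_of_pos hx
  have h4 := Real.log_le_sub_one_of_pos hy
  have h5 := Real.one_sub_inv_le_log_of_pos hx
  have h6 := Real.one_sub_inv_le_log_of_pos hy
  have h7 : (1 / P + A)⁻¹ ≤ 33 / 32 := by
    rw [inv_le_comm₀ hx (by norm_num)]
    have : ((33 : ℝ) / 32)⁻¹ = 32 / 33 := by norm_num
    rw [this]; linarith
  have h8 : (P + C)⁻¹ ≤ 32 / 31 := by
    rw [inv_le_comm₀ hy (by norm_num)]
    have : ((32 : ℝ) / 31)⁻¹ = 31 / 32 := by norm_num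
    rw [this]; linarith
  constructor <;> linarith

private theorem log_N1 {N N0 x : ℝ} (hx0 : 0 ≤ x) (hx : x ≤ 1 / 2) (hN0 : 0 < N0) (hN : 0 < N)
    (h1 : (1 - x) ^ 2 * N0 ≤ N) (h2 : N ≤ (1 + x) ^ 2 * N0) :
    |Real.log N - Real.log N0| ≤ 4 * x := by
  have h3 : Real.log N ≤ 2 * Real.log (1 + x) + Real.log N0 := by
    have := Real.log_le_log hN h2
    rwa [Real.log_mul (by positivity) hN0.ne', Real.log_pow, Nat.cast_two] at this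
  have h4 : 2 * Real.log (1 - x) + Real.log N0 ≤ Real.log N := by
    have hp : 0 < (1 - x) ^ 2 := by nlinarith
    have := Real.log_le_log (mul_pos hp hN0) h1
    rwa [Real.log_mul hp.ne' hN0.ne', Real.log_pow, Nat.cast_two] at this
  have h5 := Real.log_le_sub_one_of_pos (show 0 < 1 + x by linarith)
  have h6 := Real.one_sub_inv_le_log_of_pos (show 0 < 1 - x by linarith)
  have h7 : (1 - x)⁻¹ ≤ 1 + 2 * x := by
    rw [inv_le_iff_one_le_mul₀ (by linarith)]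
    nlinarith
  rw [abs_le]
  constructor <;> linarith

theorem tube_main {a T : ℝ} (ha : 0 < a) (ha1 : a ≤ 1 / 8) (hT : 10 ≤ T) {z : Fin 4 → ℂ}
    {y : Fin 3 → ℂ} (hy : y = fun i => z (Fin.succ i)) (hD : y ∈ dom a (a / 4))
    (h : ‖z 0 - 1 / y 1‖ ^ 2 ≤ E0 T y / ‖y 1‖ ^ 2) :
    z ∈ UU ∧ ap (2 * T) T z < -4 ∧ ‖ww z‖ * bb1 (2 * T) T (ss z) ≤ 1 / 2 ∧
      ‖ww z‖ ^ 2 ≤ Real.exp (1 - 2 * T * (T - 1) ^ 2) ∧
      ∀ v, T ^ 2 * (LL1 z v + LL2 z v) +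
        1 / (4 * Real.exp 2 * E0 T y) * ‖dw z v - ww z * dcp (2 * T) T z v‖ ^ 2 ≤
        Qp (2 * T) T z v := by
  obtain ⟨e0, e1, e2, hA1, hA2, hP1, hP2, hC1, hC2⟩ := dom_facts ha ha1 hy hD
  have hP : 0 < ‖z 2‖ ^ 2 := by linarith
  have hz2 : z 2 ≠ 0 := by
    intro h0
    rw [h0, norm_zero] at hP
    norm_num at hP
  rw [e1] at h
  have hs0e : s0 y = Real.log (1 / ‖z 2‖ ^ 2 + ‖z 1‖ ^ 2) + Real.log (‖z 2‖ ^ 2 + ‖z 3‖ ^ 2) := by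
    unfold s0
    rw [e0, e1, e2]
  have hs0 := s0_facts (P := ‖z 2‖ ^ 2) (A := ‖z 1‖ ^ 2) (C := ‖z 3‖ ^ 2) (by linarith)
    (by linarith) (by linarith) (by linarith) (by linarith) (by linarith)
  rw [← hs0e] at hs0
  -- bound for w
  have hwE : ‖ww z‖ ^ 2 ≤ E0 T y := by
    have h1 : ww z = z 2 * (z 0 - 1 / z 2) := by
      unfold ww
      field_simp
    rw [h1, norm_mul, mul_pow]
    rw [le_div_iff₀ hP] at h
    linarith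
  have hE0le : E0 T y ≤ Real.exp (1 - 2 * T * (T - 1) ^ 2) := by
    unfold E0
    apply Real.exp_le_exp.2
    have h1 := bb_le (B := 2 * T) (T := T) (t := s0 y) (by linarith) (by linarith)
    have h2 : (T - 1) ^ 2 ≤ (T - s0 y) ^ 2 := pow_le_pow_left₀ (by linarith) (by linarith) 2
    have h3 : 2 * T * (T - 1) ^ 2 ≤ 2 * T * (T - s0 y) ^ 2 :=
      mul_le_mul_of_nonneg_left h2 (by linarith)
    linarith
  have hwS : ‖ww z‖ ≤ 1 / (44 * T ^ 2) := by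
    have h1 : ‖ww z‖ ^ 2 ≤ (1 / (44 * T ^ 2)) ^ 2 := (hwE.trans hE0le).trans (exp_small hT)
    exact (pow_le_pow_iff_left₀ (norm_nonneg _) (by positivity) two_ne_zero).1 h1
  have hT2 : 100 ≤ T ^ 2 := by nlinarith
  have hwT : ‖ww z‖ * (44 * T ^ 2) ≤ 1 := by
    rwa [le_div_iff₀ (by positivity)] at hwS
  have hw0 := norm_nonneg (ww z)
  have hw1 : ‖ww z‖ ≤ 1 / 100 := by nlinarith
  -- N1, N2
  obtain ⟨hl, hu⟩ := w_facts z (by linarith)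
  have hN1 : N1 z = ‖z 0‖ ^ 2 + ‖z 1‖ ^ 2 := rfl
  have hN2 : N2 z = ‖z 2‖ ^ 2 + ‖z 3‖ ^ 2 := rfl
  have hN1p : 0 < N1 z := by rw [hN1]; have := sq_nonneg ‖z 0‖; linarith
  have hN2p : 0 < N2 z := by rw [hN2]; linarith
  have hz0 : ‖z 0‖ ^ 2 = (‖z 0‖ ^ 2 * ‖z 2‖ ^ 2) * (1 / ‖z 2‖ ^ 2) := by
    field_simp
  have hPi : 0 < 1 / ‖z 2‖ ^ 2 := by positivity
  have hsd : |ss z - s0 y| ≤ 4 * ‖ww z‖ := by
    have h1 : ss z - s0 y = Real.log (N1 z) - Real.log (1 / ‖z 2‖ ^ 2 + ‖z 1‖ ^ 2) := by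
      rw [hs0e]
      unfold ss
      rw [hN2]
      ring
    rw [h1]
    apply log_N1 hw0 (by linarith) (by linarith) hN1p
    · rw [hN1, hz0]
      have h2 : (1 - ‖ww z‖) ^ 2 * (1 / ‖z 2‖ ^ 2) ≤ (‖z 0‖ ^ 2 * ‖z 2‖ ^ 2) * (1 / ‖z 2‖ ^ 2) :=
        mul_le_mul_of_nonneg_right hl hPi.le
      have h3 : (1 - ‖ww z‖) ^ 2 * ‖z 1‖ ^ 2 ≤ ‖z 1‖ ^ 2 := by
        have : (1 - ‖ww z‖) ^ 2 ≤ 1 := by nlinarith
        nlinarith [sq_nonneg ‖z 1‖]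
      linarith
    · rw [hN1, hz0]
      have h2 : (‖z 0‖ ^ 2 * ‖z 2‖ ^ 2) * (1 / ‖z 2‖ ^ 2) ≤ (1 + ‖ww z‖) ^ 2 * (1 / ‖z 2‖ ^ 2) :=
        mul_le_mul_of_nonneg_right hu hPi.le
      have h3 : ‖z 1‖ ^ 2 ≤ (1 + ‖ww z‖) ^ 2 * ‖z 1‖ ^ 2 := by
        have : 1 ≤ (1 + ‖ww z‖) ^ 2 := by nlinarith
        nlinarith [sq_nonneg ‖z 1‖]
      linarith
  have hsd' := abs_le.1 hsd
  have hs1 : -2 ≤ ss z := by linarith [hsd'.1]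
  have hs2 : ss z ≤ 2 := by linarith [hsd'.2]
  have hcd : |cp (2 * T) T z - (bb (2 * T) T (s0 y) + s0 y)| ≤ 1 := by
    have h1 := bb_diff (T := T) (s := s0 y) (t := ss z) hT (by linarith) (by linarith) hs1 hs2
    have h2 : cp (2 * T) T z - (bb (2 * T) T (s0 y) + s0 y) =
        (bb (2 * T) T (ss z) - bb (2 * T) T (s0 y)) + (ss z - s0 y) := by
      unfold cp; ring
    rw [h2]
    refine (abs_add_le _ _).trans ?_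
    have h3 : 10 * T ^ 2 * |ss z - s0 y| ≤ 10 * T ^ 2 * (4 * ‖ww z‖) :=
      mul_le_mul_of_nonneg_left hsd (by positivity)
    nlinarith
  have hcd' := abs_le.1 hcd
  have hE0 : 0 < E0 T y := Real.exp_pos _
  have hEp : 0 < Ep (2 * T) T z := Ep_pos _ _ _
  have hFp : 0 < Fp (2 * T) T z := Fp_pos _ _ _
  have hEa : E0 T y ≤ Ep (2 * T) T z := by
    unfold E0 Ep
    apply Real.exp_le_exp.2
    linarith [hcd'.1]
  have hEb : Ep (2 * T) T z ≤ Real.exp 2 * E0 T y := by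
    unfold E0 Ep
    rw [← Real.exp_add]
    apply Real.exp_le_exp.2
    linarith [hcd'.2]
  have hFle : Fp (2 * T) T z ≤ 2 * Ep (2 * T) T z := by
    unfold Fp
    linarith
  refine ⟨⟨hN1p.ne', hN2p.ne'⟩, ?_, ?_, hwE.trans hE0le, ?_⟩
  · have h1 : Real.log (Fp (2 * T) T z) ≤ Real.log 2 + cp (2 * T) T z := by
      refine (Real.log_le_log hFp hFle).trans (le_of_eq ?_)
      rw [Real.log_mul (by norm_num) hEp.ne']
      unfold Ep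
      rw [Real.log_exp]
    have h2 := bb_le (B := 2 * T) (T := T) (t := ss z) (by linarith) (by linarith)
    have h3 : (8 : ℝ) ^ 2 ≤ (T - ss z) ^ 2 := pow_le_pow_left₀ (by norm_num) (by linarith) 2
    have h4 : 2 * T * 8 ^ 2 ≤ 2 * T * (T - ss z) ^ 2 :=
      mul_le_mul_of_nonneg_left h3 (by linarith)
    have h5 : Real.log 2 ≤ 1 := by
      have := Real.log_le_sub_one_of_pos (show (0 : ℝ) < 2 by norm_num)
      linarith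
    unfold ap
    unfold cp at h1
    linarith
  · have h1 := bb1_le hT hs1 hs2
    have h2 : ‖ww z‖ * bb1 (2 * T) T (ss z) ≤ ‖ww z‖ * (10 * T ^ 2) :=
      mul_le_mul_of_nonneg_left h1 hw0
    linarith
  · intro v
    have htau : 1 / 2 ≤ taup (2 * T) T z := by
      unfold taup
      rw [div_le_div_iff₀ (by norm_num) hFp]
      linarith
    have hb : 2 * T ^ 2 ≤ 1 + bb1 (2 * T) T (ss z) := by
      have h4 := bb1_ge (B := 2 * T) (by linarith) T (ss z)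
      have h5 : T / 2 ≤ T - ss z := by linarith
      have h6 : 2 * (2 * T) * (T / 2) ≤ 2 * (2 * T) * (T - ss z) :=
        mul_le_mul_of_nonneg_left h5 (by linarith)
      have h7 : 2 * (2 * T) * (T / 2) = 2 * T ^ 2 := by ring
      linarith
    have hL : 0 ≤ LL1 z v + LL2 z v := by
      unfold LL1 LL2
      positivity
    have hA : 1 / 2 * (2 * T ^ 2) * (LL1 z v + LL2 z v) ≤
        taup (2 * T) T z * (1 + bb1 (2 * T) T (ss z)) * (LL1 z v + LL2 z v) := by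
      refine mul_le_mul_of_nonneg_right ?_ hL
      exact mul_le_mul htau hb (by positivity) (by linarith)
    have hB : 1 / (4 * Real.exp 2 * E0 T y) ≤ Ep (2 * T) T z / Fp (2 * T) T z ^ 2 := by
      have h4 : Fp (2 * T) T z ^ 2 ≤ (2 * Ep (2 * T) T z) ^ 2 := pow_le_pow_left₀ hFp.le hFle 2
      have h5 : 1 / (4 * Real.exp 2 * E0 T y) ≤ 1 / (4 * Ep (2 * T) T z) := by
        apply one_div_le_one_div_of_le (by positivity)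
        linarith
      refine h5.trans ?_
      rw [div_le_div_iff₀ (by positivity) (by positivity)]
      nlinarith
    have hCC := mul_le_mul_of_nonneg_right hB
      (sq_nonneg ‖dw z v - ww z * dcp (2 * T) T z v‖)
    unfold Qp
    have hD : 1 / 2 * (2 * T ^ 2) * (LL1 z v + LL2 z v) = T ^ 2 * (LL1 z v + LL2 z v) := by ring
    linarith

/-- the tube lies in the fundamental domain when `w` is small -/
theorem tube_fund {a : ℝ} {q : ℂ} (hq : 1 < ‖q‖) (ha : 0 < a) (ha1 : a ≤ 1 / 8)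
    (ha2 : 8 * a ≤ ‖q‖ ^ 2 - 1) {z : Fin 4 → ℂ}
    {y : Fin 3 → ℂ} (hy : y = fun i => z (Fin.succ i)) (hD : y ∈ dom a (a / 4))
    (h : ‖ww z‖ ≤ a / 32) :
    z ∈ fundP q ∧ N1 z ≤ 2 ∧ N2 z ≤ 2 ∧ 1 / 2 ≤ ‖z 0‖ ^ 2 := by
  obtain ⟨e0, e1, e2, hA1, hA2, hP1, hP2, hC1, hC2⟩ := dom_facts ha ha1 hy hD
  have hP : 0 < ‖z 2‖ ^ 2 := by linarith
  have hw0 := norm_nonneg (ww z)
  obtain ⟨hl, hu⟩ := w_facts z (by linarith)
  have hN1 : N1 z = ‖z 0‖ ^ 2 + ‖z 1‖ ^ 2 := rfl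
  have hN2 : N2 z = ‖z 2‖ ^ 2 + ‖z 3‖ ^ 2 := rfl
  have hl2 : 1 - a / 16 ≤ ‖z 0‖ ^ 2 * ‖z 2‖ ^ 2 := by nlinarith
  have hu2 : ‖z 0‖ ^ 2 * ‖z 2‖ ^ 2 ≤ 1 + a / 8 := by nlinarith
  have hx0 : 0 ≤ ‖z 0‖ ^ 2 := sq_nonneg _
  have hlow : 1 - a / 2 ≤ ‖z 0‖ ^ 2 := by
    by_contra hc
    push Not at hc
    nlinarith
  have hup : ‖z 0‖ ^ 2 ≤ 1 + a := by
    by_contra hc
    push Not at hc
    nlinarith
  refine ⟨⟨⟨?_, ?_⟩, ⟨?_, ?_⟩⟩, ?_, ?_, ?_⟩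
  · rw [hN1]; linarith
  · rw [hN1]; linarith
  · rw [hN2]; linarith
  · rw [hN2]; linarith
  · rw [hN1]; linarith
  · rw [hN2]; linarith
  · linarith

end Pool.Agent.HMP
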