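import Pool.Agent.HMP.Glob
import Pool.Agent.HMP.Tube
import Pool.Agent.HMP.DetS
import Pool.Agent.HMP.Met
import Pool.Agent.HMP.Plu
import Pool.Agent.HMV.Mat

/-!
HMP-Vol. Assembly (helper67).
-/

open scoped Matrix ComplexOrder Topology ContDiff
open Finset MeasureTheory Filter

namespace Pool.Agent.HMP

open Pool.Agent.HMV

/-- the potential -/
noncomputable def potP (q : ℂ) (ε θ T : ℝ) (z : Fin 4 → ℂ) : ℝ :=
  ε * (θ / (2 * T)) * Ph q (2 * T) T z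

theorem potP_smooth {q : ℂ} (hq : 1 < ‖q‖) (ε θ : ℝ) {T : ℝ} (hT : 0 ≤ T) :
    ContDiffOn ℝ ∞ (potP q ε θ T) UU :=
  contDiffOn_const.mul (Ph_smooth hq (by linarith : (0 : ℝ) ≤ 2 * T) T)

theorem potP_lev {q : ℂ} (hq : 1 < ‖q‖) (ε θ : ℝ) {T : ℝ} (hT : 0 ≤ T)
    {z : Fin 4 → ℂ} (hz : z ∈ UU) (v : Fin 4 → ℂ) :
    lev (potP q ε θ T) z v = ε * (θ / (2 * T) * lev (Ph q (2 * T) T) z v) := by
  have h0 : ContDiffAt ℝ ∞ (Ph q (2 * T) T) z :=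
    (Ph_smooth hq (by linarith : (0 : ℝ) ≤ 2 * T) T).contDiffAt (UU_open.mem_nhds hz)
  have h1 := (Jet.of_contDiffAt h0).const_mul (ε * (θ / (2 * T)))
  have h3 : lev (potP q ε θ T) z v = ε * (θ / (2 * T)) * lev (Ph q (2 * T) T) z v := h1.hl v
  rw [h3]
  ring

/-- lower bounds for the form of `A + leviMat pot` -/
theorem formP_lower {q : ℂ} (hq : 1 < ‖q‖) {A : (Fin 4 → ℂ) → Matrix (Fin 4) (Fin 4) ℂ}
    {ε θ : ℝ} (hε : 0 < ε)
    (hA : ∀ z ∈ UU, ∀ v : Fin 4 → ℂ, ε * om z v ≤ (star v ⬝ᵥ (A z *ᵥ v)).re)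
    (hθ : ∀ T : ℝ, 1 ≤ T → ∀ z : Fin 4 → ℂ, z ∈ UU → ∀ v : Fin 4 → ℂ,
      -(1 / 2) * om z v ≤ θ / (2 * T) * lev (Ph q (2 * T) T) z v ∧
      (ap (2 * T) T z < -4 →
        -(1 / 2) * om z v + θ / (2 * T) * Qp (2 * T) T z v ≤
          θ / (2 * T) * lev (Ph q (2 * T) T) z v))
    {T : ℝ} (hT : 1 ≤ T) {z : Fin 4 → ℂ} (hz : z ∈ UU) (v : Fin 4 → ℂ) :
    ε / 2 * om z v ≤ (star v ⬝ᵥ ((A z + leviMat (potP q ε θ T) z) *ᵥ v)).re ∧
      (ap (2 * T) T z < -4 →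
        ε / 2 * om z v + ε * (θ / (2 * T) * Qp (2 * T) T z v) ≤
          (star v ⬝ᵥ ((A z + leviMat (potP q ε θ T) z) *ᵥ v)).re) := by
  have hsm : ContDiffAt ℝ ∞ (potP q ε θ T) z :=
    (potP_smooth hq ε θ (by linarith)).contDiffAt (UU_open.mem_nhds hz)
  have hsum : (star v ⬝ᵥ ((A z + leviMat (potP q ε θ T) z) *ᵥ v)).re =
      (star v ⬝ᵥ (A z *ᵥ v)).re + lev (potP q ε θ T) z v := by
    rw [Matrix.add_mulVec, dotProduct_add, leviMat_form hsm, Complex.add_re, Complex.ofReal_re]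
  have h1 := hA z hz v
  obtain ⟨h2, h3⟩ := hθ T hT z hz v
  have h4 := potP_lev hq ε θ (by linarith : (0 : ℝ) ≤ T) hz v
  constructor
  · rw [hsum, h4]
    have := mul_le_mul_of_nonneg_left h2 hε.le
    nlinarith
  · intro ha
    rw [hsum, h4]
    have := mul_le_mul_of_nonneg_left (h3 ha) hε.le
    nlinarith

theorem hermP {q : ℂ} (hq : 1 < ‖q‖) {A : (Fin 4 → ℂ) → Matrix (Fin 4) (Fin 4) ℂ}
    (hM : IsMetric q A) (ε θ : ℝ) {T : ℝ} (hT : 0 ≤ T) {z : Fin 4 → ℂ} (hz : z ∈ UU) :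
    (A z + leviMat (potP q ε θ T) z).IsHermitian := by
  have hsm : ContDiffAt ℝ ∞ (potP q ε θ T) z :=
    (potP_smooth hq ε θ hT).contDiffAt (UU_open.mem_nhds hz)
  exact (hM.pos z hz).isHermitian.add (leviMat_herm hsm)

theorem potP_isPot {q : ℂ} (hq : 1 < ‖q‖) {A : (Fin 4 → ℂ) → Matrix (Fin 4) (Fin 4) ℂ}
    (hM : IsMetric q A) {ε θ : ℝ} (hε : 0 < ε)
    (hA : ∀ z ∈ UU, ∀ v : Fin 4 → ℂ, ε * om z v ≤ (star v ⬝ᵥ (A z *ᵥ v)).re)
    (hθ : ∀ T : ℝ, 1 ≤ T → ∀ z : Fin 4 → ℂ, z ∈ UU → ∀ v : Fin 4 → ℂ,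
      -(1 / 2) * om z v ≤ θ / (2 * T) * lev (Ph q (2 * T) T) z v ∧
      (ap (2 * T) T z < -4 →
        -(1 / 2) * om z v + θ / (2 * T) * Qp (2 * T) T z v ≤
          θ / (2 * T) * lev (Ph q (2 * T) T) z v))
    {T : ℝ} (hT : 1 ≤ T) : IsPot q A (potP q ε θ T) := by
  refine ⟨potP_smooth hq ε θ (by linarith), fun z hz => ?_, fun z hz => ?_, ?_⟩
  · unfold potP
    rw [(Ph_inv hq _ _ hz).1]
  · unfold potP
    rw [(Ph_inv hq _ _ hz).2]
  intro z hz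
  have hH := hermP hq hM ε θ (by linarith : (0 : ℝ) ≤ T) hz
  refine Matrix.PosDef.of_dotProduct_mulVec_pos hH ?_
  intro v hv
  have h1 := (formP_lower hq hε hA hθ hT hz v).1
  have h2 : 0 < om z v := om_pos hz hv
  have h3 : 0 < (star v ⬝ᵥ ((A z + leviMat (potP q ε θ T) z) *ᵥ v)).re := by
    have : 0 < ε / 2 * om z v := by positivity
    linarith
  have h4 : (star v ⬝ᵥ ((A z + leviMat (potP q ε θ T) z) *ᵥ v)).im = 0 :=
    hH.im_star_dotProduct_mulVec_self v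
  rw [Complex.lt_def]
  exact ⟨h3, h4.symm⟩

/-- the tube -/
noncomputable def eP (T : ℝ) (y : Fin 3 → ℂ) : ℝ :=
  if y 1 = 0 then 1 else E0 T y / ‖y 1‖ ^ 2

def tubeP (a T : ℝ) : Set (Fin 4 → ℂ) :=
  {z : Fin 4 → ℂ | (fun i => z (Fin.succ i)) ∈ dom a (a / 4) ∧
        ‖z 0 - 1 / (fun i : Fin 3 => z (Fin.succ i)) 1‖ ^ 2 ≤ eP T (fun i => z (Fin.succ i))}

theorem eP_pos (T : ℝ) (y : Fin 3 → ℂ) : 0 < eP T y := by
  unfold eP
  split_ifs with h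
  · exact one_pos
  · have h1 : 0 < ‖y 1‖ := norm_pos_iff.2 h
    have h2 : 0 < E0 T y := Real.exp_pos _
    positivity

theorem eP_meas (T : ℝ) : Measurable (eP T) := by
  unfold eP
  refine Measurable.ite ?_ measurable_const ?_
  · exact (measurableSet_singleton (0 : ℂ)).preimage (measurable_pi_apply 1)
  · have h1 : Measurable s0 := by
      unfold s0
      fun_prop
    have h2 : Measurable (bb (2 * T) T) := (bb_smooth (2 * T) T).continuous.measurable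
    have h3 : Measurable (E0 T) := by
      unfold E0
      exact Real.measurable_exp.comp (((h2.comp h1).add h1).sub measurable_const)
    have h4 : Measurable fun y : Fin 3 → ℂ => ‖y 1‖ ^ 2 := by fun_prop
    exact h3.div h4

theorem dom_ne {a d : ℝ} (hd : d < 1) {y : Fin 3 → ℂ} (hy : y ∈ dom a d) : y 1 ≠ 0 := by
  intro h
  have h1 := hy.2.1.1
  rw [h, norm_zero] at h1
  norm_num at h1
  linarith

end Pool.Agent.HMP
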